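import Pool.Agent.Smj.Defs

/-!
Smj BDDP: bounded sequence entropy of the square.
-/

set_option autoImplicit false

namespace Pool.Agent.Smj

open MeasureTheory ProbabilityTheory Filter Topology Pool.Agent.Sar
open scoped ENNReal ComplexConjugate

/-- the covering number is attained -/
private theorem BddP_attained {Y : Type*} (f : Y → Y) (a : ℕ → ℕ) {k : ℕ} (U : Fin k → Set Y)
    (hU : (⋃ i, U i) = Set.univ) (n : ℕ) : ∃ W : Finset (Fin n → Fin k), W.card = covNum f a U n ∧
    ∀ x, ∃ w ∈ W, ∀ i : Fin n, f^[a i] x ∈ U (w i) := by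
  have h : (covNum f a U n) ∈ {c | ∃ W : Finset (Fin n → Fin k), W.card = c ∧
      ∀ x, ∃ w ∈ W, ∀ i : Fin n, f^[a i] x ∈ U (w i)} := by
    refine Nat.sInf_mem ⟨(Finset.univ : Finset (Fin n → Fin k)).card, Finset.univ, rfl, fun x => ?_⟩
    have h1 : ∀ y : Y, ∃ i, y ∈ U i := by
      intro y
      have : y ∈ ⋃ i, U i := by rw [hU]; trivial
      exact Set.mem_iUnion.1 this
    choose g hg using h1
    exact ⟨fun i => g (f^[a i] x), Finset.mem_univ _, fun i => hg _⟩
  exact h

private theorem BddP_cov {X : Type*} [MetricSpace X] [CompactSpace X] (T : X → X) {k : ℕ}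
    (U : Fin k → Set (X × X)) (hUo : ∀ i, IsOpen (U i)) (hU : (⋃ i, U i) = Set.univ) :
    ∃ (m : ℕ) (V : Fin m → Set X), (∀ i, IsOpen (V i)) ∧ (⋃ i, V i) = Set.univ ∧
      ∀ (a : ℕ → ℕ) (n : ℕ), covNum (Prod.map T T) a U n ≤ covNum T a V n ^ 2 := by
  obtain ⟨δ, hδ, hL⟩ := lebesgue_number_lemma_of_metric (isCompact_univ (X := X × X)) hUo
    (by rw [hU])
  obtain ⟨t, -, ht, htc⟩ := (isCompact_univ (X := X)).finite_cover_balls hδ
  have htf : t.Finite := ht
  set s := htf.toFinset with hs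
  let e := s.equivFin
  let V : Fin s.card → Set X := fun j => Metric.ball ((e.symm j : s) : X) δ
  have hV : (⋃ i, V i) = Set.univ := by
    rw [Set.eq_univ_iff_forall]
    intro x
    have hx := htc (Set.mem_univ x)
    rw [Set.mem_iUnion₂] at hx
    obtain ⟨c, hc, hxc⟩ := hx
    rw [Set.mem_iUnion]
    have hcs : c ∈ s := by rw [hs]; exact htf.mem_toFinset.2 hc
    refine ⟨e ⟨c, hcs⟩, ?_⟩
    show x ∈ Metric.ball ((e.symm (e ⟨c, hcs⟩) : s) : X) δ
    rw [Equiv.symm_apply_apply]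
    exact hxc
  have hidx : ∀ j j' : Fin s.card, ∃ i, V j ×ˢ V j' ⊆ U i := by
    intro j j'
    obtain ⟨i, hi⟩ := hL ((((e.symm j : s) : X)), (((e.symm j' : s) : X))) (Set.mem_univ _)
    refine ⟨i, ?_⟩
    rw [← ball_prod_same] at hi
    exact hi
  choose idx hidx using hidx
  refine ⟨s.card, V, fun i => Metric.isOpen_ball, hV, fun a n => ?_⟩
  obtain ⟨W, hWc, hW⟩ := BddP_attained T a V hV n
  classical
  refine le_trans (Nat.sInf_le ⟨(W ×ˢ W).image (fun p => fun i => idx (p.1 i) (p.2 i)), rfl, ?_⟩) ?_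
  · rintro ⟨x, y⟩
    obtain ⟨w, hw, hwx⟩ := hW x
    obtain ⟨w', hw', hwy⟩ := hW y
    refine ⟨fun i => idx (w i) (w' i), Finset.mem_image.2 ⟨(w, w'), Finset.mem_product.2 ⟨hw, hw'⟩, rfl⟩,
      fun i => ?_⟩
    rw [Prod.map_iterate]
    exact hidx _ _ ⟨hwx i, hwy i⟩
  · refine Finset.card_image_le.trans ?_
    rw [Finset.card_product, hWc, sq]

/-- For an open cover `U` of `X × X` there is (Lebesgue number) a finite cover `V_j` of `X` by balls such that every `V_j × V_j'` is contained in some `U_i`. Given a set `W` of words which covers for `(T, a, V, n)`, the words `i ↦` (an index of a set `U` containing `V_{w i} × V_{w' i}`), `w, w' ∈ W`,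
cover for `(T×T, a, U, n)`: `covNum(T×T, U) ≤ covNum(T, V)²`, constant `2M`. -/
theorem bdd_prod {X : Type*} [MetricSpace X] [CompactSpace X] {T : X → X} (hT : Continuous T)
    (hB : BddSeqEnt T) : BddSeqEnt (Prod.map T T) := by
  obtain ⟨M, hM⟩ := hB
  refine ⟨2 * M, fun a ha ha0 k U hUo hU => ?_⟩
  obtain ⟨m, V, hVo, hV, hc⟩ := BddP_cov T U hUo hU
  have h1 := hM a ha ha0 m V hVo hV
  refine le_of_forall_gt_imp_ge_of_dense fun c hcc => ?_
  obtain ⟨c', hc1, hc2⟩ := EReal.lt_iff_exists_real_btwn.1 hcc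
  refine le_trans ?_ hc2.le
  have h2 : limsup (fun n : ℕ => (((Real.log (covNum T a V n)) / n : ℝ) : EReal)) atTop <
      ((c' / 2 : ℝ) : EReal) := by
    refine lt_of_le_of_lt h1 ?_
    rw [EReal.coe_lt_coe_iff] at hc1 ⊢
    linarith
  have h3 := eventually_lt_of_limsup_lt h2
  refine limsup_le_of_le (by isBoundedDefault) ?_
  filter_upwards [h3] with n hn
  rw [EReal.coe_lt_coe_iff] at hn
  rw [EReal.coe_le_coe_iff]
  have h4 : Real.log (covNum (Prod.map T T) a U n) ≤ 2 * Real.log (covNum T a V n) := by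
    rcases Nat.eq_zero_or_pos (covNum (Prod.map T T) a U n) with h0 | h0
    · rw [h0, Nat.cast_zero, Real.log_zero]
      have := Real.log_natCast_nonneg (covNum T a V n)
      linarith
    · have h5 : ((covNum (Prod.map T T) a U n : ℕ) : ℝ) ≤ ((covNum T a V n : ℕ) : ℝ) ^ 2 := by
        exact_mod_cast hc a n
      have h6 := Real.log_le_log (by exact_mod_cast h0) h5
      rw [Real.log_pow] at h6
      exact_mod_cast h6
  have h7 : Real.log (covNum (Prod.map T T) a U n) / n ≤ 2 * (Real.log (covNum T a V n) / n) := by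
    rw [← mul_div_assoc]
    exact div_le_div_of_nonneg_right h4 (Nat.cast_nonneg n)
  linarith

end Pool.Agent.Smj
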