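import Pool.Agent.Smj.P1t
import Pool.Agent.Sar.K4

/-!
Smj EVJ: eigenvalues of an ergodic joining.
-/

set_option autoImplicit false

namespace Pool.Agent.Smj

open MeasureTheory ProbabilityTheory Filter Topology Pool.Agent.Sar
open scoped ENNReal ComplexConjugate

section two
variable {X Y : Type*} [MeasurableSpace X] [StandardBorelSpace X] [Nonempty X]
  [MeasurableSpace Y] [StandardBorelSpace Y] [Nonempty Y] {ν : Measure X} {μ : Measure Y}
  [IsProbabilityMeasure ν] [IsProbabilityMeasure μ] {T : X → X} {S : Y → Y}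

/-- `φ = eg π l`: `∫ φ^n (eg l₁ ⊗ eg l₂) dπ = l^n l₁ l₂ (same)`. If no `n ≤ m m'` has `l^n ∈ EV ν T · EV μ S` all these integrals vanish and `P1t` gives `φ = 0` a.e., but `|φ| = 1`. -/
theorem ev_join (hT : Ergodic T ν) (hS : Ergodic S μ) {m m' : ℕ} {a a' : ℝ} {ℓ : X → Fin m}
    {ℓ' : Y → Fin m'} (hL : Lab ν T m a ℓ) (hL' : Lab μ S m' a' ℓ') {π : Measure (X × Y)}
    (hπ : EJ T S ν μ π) {l : ℂ} (hl : l ∈ EV π (Prod.map T S)) :
    ∃ n : ℕ, 1 ≤ n ∧ n ≤ m * m' ∧ ∃ l₁ ∈ EV ν T, ∃ l₂ ∈ EV μ S, l ^ n = l₁ * l₂ := by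
  by_contra hcon
  haveI := hπ.prob
  have hφ := eg_spec hl
  have hMP : MeasurePreserving (Prod.map T S) π π := hπ.erg.toMeasurePreserving
  have hz : ∀ᵐ z ∂π, eg π (Prod.map T S) l z = 0 := by
    refine P1t hT hS hL hL' hπ.fst hπ.snd hφ.meas ⟨1, fun z => (hφ.norm z).le⟩ ?_
    intro n hn1 hn2 l₁ h1 l₂ h2
    have e1 : ∀ᵐ z ∂π, eg ν T l₁ (T z.1) = l₁ * eg ν T l₁ z.1 := by
      have h3 : ∀ᵐ x ∂(π.map Prod.fst), eg ν T l₁ (T x) = l₁ * eg ν T l₁ x := by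
        rw [hπ.fst]
        exact (eg_spec h1).eq
      exact ae_of_ae_map measurable_fst.aemeasurable h3
    have e2 : ∀ᵐ z ∂π, eg μ S l₂ (S z.2) = l₂ * eg μ S l₂ z.2 := by
      have h3 : ∀ᵐ x ∂(π.map Prod.snd), eg μ S l₂ (S x) = l₂ * eg μ S l₂ x := by
        rw [hπ.snd]
        exact (eg_spec h2).eq
      exact ae_of_ae_map measurable_snd.aemeasurable h3
    obtain ⟨F, hF⟩ : ∃ F : X × Y → ℂ, F = fun z =>
        eg π (Prod.map T S) l z ^ n * (eg ν T l₁ z.1 * eg μ S l₂ z.2) := ⟨_, rfl⟩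
    have hFm : Measurable F := by
      rw [hF]
      exact (hφ.meas.pow_const n).mul
        (((eg_meas l₁).comp measurable_fst).mul ((eg_meas l₂).comp measurable_snd))
    have hI1 : ∫ z, F (Prod.map T S z) ∂π = ∫ z, F z ∂π := by
      have h3 : ∫ z, F z ∂π = ∫ z, F z ∂(π.map (Prod.map T S)) := by rw [hMP.map_eq]
      rw [h3, integral_map hMP.measurable.aemeasurable hFm.aestronglyMeasurable]
    have hI2 : ∫ z, F (Prod.map T S z) ∂π = (l ^ n * l₁ * l₂) * ∫ z, F z ∂π := by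
      rw [← integral_const_mul]
      refine integral_congr_ae ?_
      filter_upwards [hφ.eq, e1, e2] with z hz hz1 hz2
      simp only [hF]
      rw [hz, Prod.map_fst, Prod.map_snd, hz1, hz2, mul_pow]
      ring
    have h10 : l₁ ≠ 0 := by
      intro h0
      have h4 := EV_norm hT.toMeasurePreserving h1
      rw [h0, norm_zero] at h4
      exact zero_ne_one h4
    have h20 : l₂ ≠ 0 := by
      intro h0
      have h4 := EV_norm hS.toMeasurePreserving h2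
      rw [h0, norm_zero] at h4
      exact zero_ne_one h4
    have hne : l ^ n * l₁ * l₂ ≠ 1 := by
      intro h
      apply hcon
      refine ⟨n, hn1, hn2, l₁⁻¹, EV_inv hT.toMeasurePreserving h1, l₂⁻¹,
        EV_inv hS.toMeasurePreserving h2, ?_⟩
      rw [← mul_inv]
      refine eq_inv_of_mul_eq_one_left ?_
      rw [← mul_assoc]
      exact h
    have h5 : (1 - l ^ n * l₁ * l₂) * ∫ z, F z ∂π = 0 := by
      rw [hI1] at hI2
      linear_combination hI2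
    have h6 : ∫ z, F z ∂π = 0 := by
      rcases mul_eq_zero.1 h5 with h7 | h7
      · exact absurd (sub_eq_zero.1 h7).symm hne
      · exact h7
    rw [hF] at h6
    exact h6
  obtain ⟨z, hz⟩ := hz.exists
  have h1 := hφ.norm z
  rw [hz, norm_zero] at h1
  exact zero_ne_one h1
end two

variable {X : Type*} [MeasurableSpace X] [StandardBorelSpace X] [Nonempty X] {ι : Type*}
  {ν : ι → Measure X} [∀ s, IsProbabilityMeasure (ν s)] {T : X → X}

private theorem EVj_GE_mul (s s' : ι) {l₁ l₂ : ℂ} (h1 : l₁ ∈ EV (ν s) T) (h2 : l₂ ∈ EV (ν s') T) :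
    l₁ * l₂ ∈ GE ν T := by
  unfold GE
  exact mul_mem (Submonoid.subset_closure (Set.mem_iUnion.2 ⟨s, h1⟩))
    (Submonoid.subset_closure (Set.mem_iUnion.2 ⟨s', h2⟩))

private theorem EVj_GE_pow {l : ℂ} (h : l ∈ GE ν T) (n : ℕ) : l ^ n ∈ GE ν T := by
  unfold GE at h ⊢
  exact pow_mem h n

/-- If `zt p ∈ EV π` then `(zt p)^n ∈ GE` for some `1 ≤ n ≤ m m' < p`, and `zt p` is a power of `(zt p)^n`. -/
theorem good_join (hE : ∀ s, Ergodic T (ν s)) {s s' : ι} {m m' : ℕ} {a a' : ℝ} {ℓ : X → Fin m}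
    {ℓ' : X → Fin m'} (hL : Lab (ν s) T m a ℓ) (hL' : Lab (ν s') T m' a' ℓ')
    {π : Measure (X × X)} (hπ : EJ T T (ν s) (ν s') π) {p : ℕ} (hp : p.Prime) (hM : m * m' < p)
    (hz : zt p ∉ GE ν T) : Good π (Prod.map T T) p := by
  refine ⟨hp, fun h => ?_⟩
  obtain ⟨n, hn1, hn2, l₁, h1, l₂, h2, he⟩ := ev_join (hE s) (hE s') hL hL' hπ h
  have hG : zt p ^ n ∈ GE ν T := by
    rw [he]
    exact EVj_GE_mul s s' h1 h2
  have hcop : Nat.Coprime n p := by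
    rw [Nat.coprime_comm, hp.coprime_iff_not_dvd]
    intro hd
    have := Nat.le_of_dvd (by omega) hd
    omega
  obtain ⟨k, -, hk⟩ := Nat.exists_mul_mod_eq_one_of_coprime hcop hp.one_lt
  have hζ : IsPrimitiveRoot (zt p) p := Complex.isPrimitiveRoot_exp p hp.ne_zero
  apply hz
  have h3 : (zt p ^ n) ^ k = zt p := by
    rw [← pow_mul, pow_eq_pow_mod (n * k) hζ.pow_eq_one, hk, pow_one]
  rw [← h3]
  exact EVj_GE_pow hG k

/-- `I = {l^n : l ∈ I', 1 ≤ n ≤ m m', l^n ∈ GE}`; if `l = k^p`, `k ∈ EV π`, then `k^n ∈ GE` for some `1 ≤ n ≤ m m'`, so `l^n = (k^n)^p` is in `GE` and a `p`-th power in `GE`. -/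
theorem pow_join (hE : ∀ s, Ergodic T (ν s)) {s s' : ι} {m m' : ℕ} {a a' : ℝ} {ℓ : X → Fin m}
    {ℓ' : X → Fin m'} (hL : Lab (ν s) T m a ℓ) (hL' : Lab (ν s') T m' a' ℓ')
    {π : Measure (X × X)} (hπ : EJ T T (ν s) (ν s') π) (I' : Finset ℂ)
    (hI' : ∀ l ∈ I', l ∈ EV π (Prod.map T T) ∧ ¬ Tors l) :
    ∃ I : Finset ℂ, (∀ l ∈ I, l ∈ GE ν T ∧ ¬ Tors l) ∧
      ∀ p : ℕ, (∀ l ∈ I, ¬ ∃ k ∈ GE ν T, k ^ p = l) → ∀ l ∈ I', ¬ IsPow π (Prod.map T T) p l := by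
  classical
  refine ⟨((I' ×ˢ Finset.Icc 1 (m * m')).image fun q => q.1 ^ q.2).filter fun l => l ∈ GE ν T,
    ?_, ?_⟩
  · intro l hl
    rw [Finset.mem_filter, Finset.mem_image] at hl
    obtain ⟨⟨q, hq, hql⟩, hG⟩ := hl
    rw [Finset.mem_product, Finset.mem_Icc] at hq
    refine ⟨hG, ?_⟩
    rintro ⟨r, hr1, hr2⟩
    apply (hI' q.1 hq.1).2
    refine ⟨q.2 * r, Nat.mul_pos (by omega) (by omega), ?_⟩
    rw [pow_mul, hql, hr2]
  · intro p hp l hl
    rintro ⟨k, hk, hkp⟩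
    obtain ⟨n, hn1, hn2, l₁, h1, l₂, h2, he⟩ := ev_join (hE s) (hE s') hL hL' hπ hk
    have hG : k ^ n ∈ GE ν T := by
      rw [he]
      exact EVj_GE_mul s s' h1 h2
    have h3 : (k ^ n) ^ p = l ^ n := by
      rw [← hkp, ← pow_mul, ← pow_mul, mul_comm]
    refine hp (l ^ n) ?_ ⟨k ^ n, hG, h3⟩
    rw [Finset.mem_filter, Finset.mem_image]
    refine ⟨⟨(l, n), ?_, rfl⟩, ?_⟩
    · rw [Finset.mem_product, Finset.mem_Icc]
      exact ⟨hl, hn1, hn2⟩
    · rw [← h3]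
      exact EVj_GE_pow hG p

end Pool.Agent.Smj
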