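import Pool.Agent.Smj.Defs
import Pool.Agent.Sar.K1

/-!
Smj FCL: functions orthogonal to all eigenfunctions, lifted to a joining.
-/

set_option autoImplicit false

namespace Pool.Agent.Smj

open MeasureTheory ProbabilityTheory Filter Topology Pool.Agent.Sar
open scoped ENNReal ComplexConjugate

private theorem FcL_bdd_int {Z : Type*} [MeasurableSpace Z] {ρ : Measure Z}
    [IsProbabilityMeasure ρ] {g : Z → ℂ} (hg : Measurable g) {C : ℝ} (hC : ∀ z, ‖g z‖ ≤ C) :
    Integrable g ρ :=
  Integrable.of_bound hg.aestronglyMeasurable C (Filter.Eventually.of_forall hC)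

private theorem FcL_aux {X Y : Type*} [MeasurableSpace X] [StandardBorelSpace X] [Nonempty X]
    [MeasurableSpace Y] [StandardBorelSpace Y] [Nonempty Y] {ν : Measure X}
    [IsProbabilityMeasure ν] {T : X ≃ᵐ X} {S : Y ≃ᵐ Y} (hT : Ergodic T ν) {π : Measure (X × Y)}
    [IsProbabilityMeasure π] (hπ : MeasurePreserving (Prod.map T S) π π)
    (hfst : π.map Prod.fst = ν) {v : X → ℂ} (hv : BM v) (h0 : ∀ l ∈ EV ν T, fc ν T v l = 0)
    {l : ℂ} {e : X × Y → ℂ} (he : IsEig π (Prod.map T S) l e) :
    ∫ z, v z.1 * conj (e z) ∂π = 0 := by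
  obtain ⟨f, hf⟩ : ∃ f : X → ℂ, f = fun x => ∫ y, e (x, y) ∂(π.condKernel x) := ⟨_, rfl⟩
  have hfm : Measurable f := by
    rw [hf]
    exact (MeasureTheory.StronglyMeasurable.integral_kernel_prod_right'
      (κ := π.condKernel) he.meas.stronglyMeasurable).measurable
  have hfb : ∀ x, ‖f x‖ ≤ 1 := by
    intro x
    rw [hf]
    have h1 := norm_integral_le_of_norm_le_const (μ := π.condKernel x) (f := fun y => e (x, y))
      (C := 1) (Filter.Eventually.of_forall fun y => (he.norm (x, y)).le)
    refine h1.trans ?_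
    simp
  -- testing
  have htest : ∀ w : X → ℂ, Measurable w → (∃ C : ℝ, ∀ x, ‖w x‖ ≤ C) →
      ∫ z, w z.1 * e z ∂π = ∫ x, w x * f x ∂ν := by
    intro w hw hC
    obtain ⟨C, hC⟩ := hC
    have hi : Integrable (fun z : X × Y => w z.1 * e z) π := by
      refine FcL_bdd_int ((hw.comp measurable_fst).mul he.meas) (C := C) fun z => ?_
      rw [norm_mul, he.norm, mul_one]
      exact hC _
    have h1 := MeasureTheory.Measure.integral_condKernel hi
    rw [← h1]
    have h2 : π.fst = ν := hfst
    rw [h2]
    refine integral_congr_ae (Filter.Eventually.of_forall fun x => ?_)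
    simp only [hf]
    rw [integral_const_mul]
  -- equation
  have heq : ∀ w : X → ℂ, Measurable w → (∃ C : ℝ, ∀ x, ‖w x‖ ≤ C) →
      ∫ x, w x * f (T x) ∂ν = l * ∫ x, w x * f x ∂ν := by
    intro w hw hC
    have hw' : Measurable fun x => w (T.symm x) := hw.comp T.symm.measurable
    have hC' : ∃ C : ℝ, ∀ x, ‖w (T.symm x)‖ ≤ C := by
      obtain ⟨C, hC⟩ := hC
      exact ⟨C, fun x => hC _⟩
    have h1 : ∫ x, w x * f (T x) ∂ν = ∫ x, w (T.symm x) * f x ∂ν := by
      have h2 : ∫ x, w (T.symm x) * f x ∂ν = ∫ x, w (T.symm x) * f x ∂(ν.map T) := by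
        rw [hT.toMeasurePreserving.map_eq]
      have h4 : Measurable fun x => w (T.symm x) * f x := hw'.mul hfm
      rw [h2, integral_map T.measurable.aemeasurable h4.aestronglyMeasurable]
      refine integral_congr_ae (Filter.Eventually.of_forall fun x => ?_)
      simp only [MeasurableEquiv.symm_apply_apply]
    have hm : Measurable fun z : X × Y => w (T.symm z.1) * e z :=
      (hw'.comp measurable_fst).mul he.meas
    have h3 : ∫ z, w (T.symm z.1) * e z ∂π = l * ∫ z, w z.1 * e z ∂π := by
      have h2 : ∫ z, w (T.symm z.1) * e z ∂π =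
          ∫ z, w (T.symm z.1) * e z ∂(π.map (Prod.map T S)) := by rw [hπ.map_eq]
      rw [h2, integral_map hπ.measurable.aemeasurable hm.aestronglyMeasurable,
        ← integral_const_mul]
      refine integral_congr_ae ?_
      filter_upwards [he.eq] with z hz
      rw [hz, Prod.map_fst, MeasurableEquiv.symm_apply_apply]
      ring
    rw [h1, ← htest _ hw' hC', h3, htest w hw hC]
  have hfT : Measurable fun x => f (T x) := hfm.comp T.measurable
  have hinv : ∀ᵐ x ∂ν, f (T x) = l * f x := by
    obtain ⟨g, hg⟩ : ∃ g : X → ℂ, g = fun x => f (T x) - l * f x := ⟨_, rfl⟩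
    have hgm : Measurable g := by
      rw [hg]
      exact hfT.sub (hfm.const_mul l)
    have hgb : ∀ x, ‖g x‖ ≤ 1 + ‖l‖ := by
      intro x
      rw [hg]
      refine (norm_sub_le _ _).trans (add_le_add (hfb _) ?_)
      rw [norm_mul]
      exact mul_le_of_le_one_right (norm_nonneg _) (hfb _)
    have hgc : Measurable fun x => conj (g x) := Complex.continuous_conj.measurable.comp hgm
    have hgcb : ∀ x, ‖conj (g x)‖ ≤ 1 + ‖l‖ := fun x => by
      rw [Complex.norm_conj]
      exact hgb x
    have h1 := heq (fun x => conj (g x)) hgc ⟨_, hgcb⟩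
    have hiA : Integrable (fun x => conj (g x) * f (T x)) ν := by
      refine FcL_bdd_int (hgc.mul hfT) (C := 1 + ‖l‖) fun x => ?_
      rw [norm_mul]
      exact (mul_le_of_le_one_right (norm_nonneg _) (hfb _)).trans (hgcb x)
    have hiB : Integrable (fun x => conj (g x) * f x) ν := by
      refine FcL_bdd_int (hgc.mul hfm) (C := 1 + ‖l‖) fun x => ?_
      rw [norm_mul]
      exact (mul_le_of_le_one_right (norm_nonneg _) (hfb _)).trans (hgcb x)
    have h2 : ∫ x, conj (g x) * g x ∂ν = 0 := by
      have h3 : (fun x => conj (g x) * g x) =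
          fun x => conj (g x) * f (T x) - l * (conj (g x) * f x) := by
        funext x
        have h4 : g x = f (T x) - l * f x := by rw [hg]
        calc conj (g x) * g x = conj (g x) * (f (T x) - l * f x) := by rw [← h4]
          _ = _ := by ring
      rw [h3, integral_sub hiA (hiB.const_mul l), integral_const_mul, h1, sub_self]
    have h5 : ∫ x, ‖g x‖ ^ 2 ∂ν = 0 := by
      have h6 : (fun x => conj (g x) * g x) = fun x => ((‖g x‖ ^ 2 : ℝ) : ℂ) := by
        funext x
        rw [Complex.conj_mul']
        push_cast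
        rfl
      rw [h6, integral_complex_ofReal] at h2
      exact_mod_cast h2
    rw [integral_eq_zero_iff_of_nonneg (fun x => by positivity)] at h5
    · filter_upwards [h5] with x hx
      have h6 : ‖g x‖ = 0 := by
        have h7 : ‖g x‖ ^ 2 = 0 := hx
        exact pow_eq_zero_iff (two_ne_zero) |>.1 h7
      have h7 : g x = 0 := norm_eq_zero.1 h6
      rw [hg] at h7
      exact sub_eq_zero.1 h7
    · refine Integrable.of_bound (hgm.norm.pow_const 2).aestronglyMeasurable ((1 + ‖l‖) ^ 2)
        (Filter.Eventually.of_forall fun x => ?_)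
      rw [Real.norm_eq_abs, abs_of_nonneg (by positivity)]
      exact pow_le_pow_left₀ (norm_nonneg _) (hgb x) 2
  -- conclusion
  obtain ⟨C, hC⟩ := hv.bdd
  have hvc : Measurable fun x => conj (v x) := Complex.continuous_conj.measurable.comp hv.meas
  have hvcb : ∀ x, ‖conj (v x)‖ ≤ C := fun x => by
    rw [Complex.norm_conj]
    exact hC x
  have h1 : ∫ z, v z.1 * conj (e z) ∂π = conj (∫ x, conj (v x) * f x ∂ν) := by
    rw [← htest _ hvc ⟨C, hvcb⟩, ← integral_conj]
    refine integral_congr_ae (Filter.Eventually.of_forall fun z => ?_)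
    simp only [map_mul, Complex.conj_conj]
  rw [h1]
  by_cases h2 : ∀ᵐ x ∂ν, f x = 0
  · have h3 : ∫ x, conj (v x) * f x ∂ν = 0 := by
      have h4 : (fun x => conj (v x) * f x) =ᵐ[ν] fun _ => (0 : ℂ) := by
        filter_upwards [h2] with x hx
        rw [hx, mul_zero]
      rw [integral_congr_ae h4, integral_zero]
    rw [h3, map_zero]
  · obtain ⟨hl, c, -, hc⟩ := eig_of_fun hT (FcL_bdd_int hfm hfb) hinv h2
    have h3 : ∫ x, conj (v x) * f x ∂ν = c * conj (fc ν T v l) := by
      unfold fc
      rw [← integral_conj, ← integral_const_mul]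
      refine integral_congr_ae ?_
      filter_upwards [hc] with x hx
      rw [hx, map_mul, Complex.conj_conj]
      ring
    rw [h3, h0 l hl, map_zero, mul_zero, map_zero]

variable {X Y : Type*} [MeasurableSpace X] [StandardBorelSpace X] [Nonempty X]
  [MeasurableSpace Y] [StandardBorelSpace Y] [Nonempty Y] {ν : Measure X} {μ : Measure Y}
  [IsProbabilityMeasure ν] [IsProbabilityMeasure μ] {T : X ≃ᵐ X} {S : Y ≃ᵐ Y}

/-- `f(x) = E(eg π l | z.1 = x)` (conditional kernel of `π`) satisfies `f ∘ T = l f` a.e. (test against bounded functions of `z.1`), so it is 0 a.e. or `l ∈ EV ν T` and `f = c eg ν l` (`eig_of_fun`); `fc = ∫ v conj f dν = 0`. -/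
theorem fc_fst (hT : Ergodic T ν) {π : Measure (X × Y)} (hπ : EJ T S ν μ π) {v : X → ℂ}
    (hv : BM v) (h0 : ∀ l ∈ EV ν T, fc ν T v l = 0) :
    ∀ l ∈ EV π (Prod.map T S), fc π (Prod.map T S) (fun z => v z.1) l = 0 := by
  intro l hl
  haveI := hπ.prob
  exact FcL_aux hT hπ.erg.toMeasurePreserving hπ.fst hv h0 (eg_spec hl)

/-- the same for the second coordinate -/
theorem fc_snd (hS : Ergodic S μ) {π : Measure (X × Y)} (hπ : EJ T S ν μ π) {v : Y → ℂ}
    (hv : BM v) (h0 : ∀ l ∈ EV μ S, fc μ S v l = 0) :
    ∀ l ∈ EV π (Prod.map T S), fc π (Prod.map T S) (fun z => v z.2) l = 0 := by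
  intro l hl
  haveI := hπ.prob
  have hMP : MeasurePreserving (Prod.map T S) π π := hπ.erg.toMeasurePreserving
  have he := eg_spec hl
  haveI : IsProbabilityMeasure (π.map Prod.swap) :=
    Measure.isProbabilityMeasure_map measurable_swap.aemeasurable
  have hfst : (π.map Prod.swap).map Prod.fst = μ := by
    rw [Measure.map_map measurable_fst measurable_swap]
    exact hπ.snd
  have hcomp : (Prod.map S T) ∘ (Prod.swap : X × Y → Y × X) = Prod.swap ∘ (Prod.map T S) := rfl
  have hmeas : Measurable (Prod.map S T) := S.measurable.prodMap T.measurable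
  have hMP' : MeasurePreserving (Prod.map S T) (π.map Prod.swap) (π.map Prod.swap) := by
    refine ⟨hmeas, ?_⟩
    rw [Measure.map_map hmeas measurable_swap, hcomp,
      ← Measure.map_map measurable_swap hMP.measurable, hMP.map_eq]
  have he' : IsEig (π.map Prod.swap) (Prod.map S T) l
      (fun w => eg π (Prod.map T S) l w.swap) := by
    refine ⟨he.meas.comp measurable_swap, fun w => he.norm _, ?_⟩
    rw [ae_map_iff measurable_swap.aemeasurable]
    · filter_upwards [he.eq] with z hz
      exact hz
    · exact measurableSet_eq_fun ((he.meas.comp measurable_swap).comp hmeas)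
        ((he.meas.comp measurable_swap).const_mul l)
  have h1 := FcL_aux hS hMP' hfst hv h0 he'
  have hm : Measurable fun w : Y × X => v w.1 * conj (eg π (Prod.map T S) l w.swap) :=
    (hv.meas.comp measurable_fst).mul
      (Complex.continuous_conj.measurable.comp (he.meas.comp measurable_swap))
  rw [integral_map measurable_swap.aemeasurable hm.aestronglyMeasurable] at h1
  exact h1

end Pool.Agent.Smj
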