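import Pool.Agent.Smj.Defs
import Pool.Agent.Sar.K4

/-!
Smj JNE: ergodic joinings satisfy `Sar.Jn`.
-/

set_option autoImplicit false

namespace Pool.Agent.Smj

open MeasureTheory ProbabilityTheory Filter Topology Pool.Agent.Sar
open scoped ENNReal ComplexConjugate

variable {X : Type*} [mX : MeasurableSpace X] [StandardBorelSpace X] [Nonempty X]
  {ν : Measure X} [IsProbabilityMeasure ν]

/-- `rat`: `eg l z.1 * conj (eg l' z.2)` is invariant a.e. (`eig_iter`, `l^p₀ = l'^p`), hence constant a.e. -/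
theorem jn_of_erg {T : X ≃ᵐ X} (hT : MeasurePreserving T ν ν) {p₀ p : ℕ} {ρ : Measure (X × X)}
    (h : EJ ((⇑T)^[p₀]) ((⇑T)^[p]) ν ν ρ) : Jn ν T p₀ p ρ := by
  haveI := h.prob
  refine ⟨⟨h.fst, h.snd⟩, h.erg.toMeasurePreserving.map_eq, ?_⟩
  intro l hl l' hl' _ _ hll
  have e1 : ∀ᵐ z ∂ρ, eg ν T l ((⇑T)^[p₀] z.1) = l ^ p₀ * eg ν T l z.1 := by
    have h1 : ∀ᵐ x ∂(ρ.map Prod.fst), eg ν T l ((⇑T)^[p₀] x) = l ^ p₀ * eg ν T l x := by
      rw [h.fst]; exact eig_iter hT (eg_spec hl) p₀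
    exact ae_of_ae_map measurable_fst.aemeasurable h1
  have e2 : ∀ᵐ z ∂ρ, eg ν T l' ((⇑T)^[p] z.2) = l' ^ p * eg ν T l' z.2 := by
    have h1 : ∀ᵐ x ∂(ρ.map Prod.snd), eg ν T l' ((⇑T)^[p] x) = l' ^ p * eg ν T l' x := by
      rw [h.snd]; exact eig_iter hT (eg_spec hl') p
    exact ae_of_ae_map measurable_snd.aemeasurable h1
  have hn : ‖l' ^ p‖ = 1 := by rw [norm_pow, EV_norm hT hl', one_pow]
  have h3 : IsEig ρ (Prod.map ((⇑T)^[p₀]) ((⇑T)^[p])) 1
      (fun z => eg ν T l z.1 * conj (eg ν T l' z.2)) := by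
    refine ⟨((eg_meas l).comp measurable_fst).mul (Complex.continuous_conj.measurable.comp
      ((eg_meas l').comp measurable_snd)), fun z => ?_, ?_⟩
    · rw [norm_mul, Complex.norm_conj, eg_norm, eg_norm, mul_one]
    · filter_upwards [e1, e2] with z hz1 hz2
      show eg ν T l ((⇑T)^[p₀] z.1) * conj (eg ν T l' ((⇑T)^[p] z.2)) = _
      rw [hz1, hz2, hll, map_mul, one_mul]
      have h5 : l' ^ p * conj (l' ^ p) = 1 := by
        rw [Complex.mul_conj', hn]; norm_num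
      calc l' ^ p * eg ν T l z.1 * (conj (l' ^ p) * conj (eg ν T l' z.2))
          = (l' ^ p * conj (l' ^ p)) * (eg ν T l z.1 * conj (eg ν T l' z.2)) := by ring
        _ = _ := by rw [h5, one_mul]
  have h4 : IsEig ρ (Prod.map ((⇑T)^[p₀]) ((⇑T)^[p])) 1 (fun _ => 1) :=
    ⟨measurable_const, fun _ => by simp, Filter.Eventually.of_forall fun _ => by simp⟩
  obtain ⟨c, _, hc⟩ := eig_unique h.erg h3 h4
  refine ⟨c, ?_⟩
  filter_upwards [hc] with z hz
  have h6 : conj (eg ν T l' z.2) * eg ν T l' z.2 = 1 := by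
    rw [mul_comm, Complex.mul_conj', eg_norm]; norm_num
  have h7 : eg ν T l z.1 * conj (eg ν T l' z.2) = c := by rw [hz, mul_one]
  calc eg ν T l z.1 = eg ν T l z.1 * (conj (eg ν T l' z.2) * eg ν T l' z.2) := by rw [h6, mul_one]
    _ = (eg ν T l z.1 * conj (eg ν T l' z.2)) * eg ν T l' z.2 := by ring
    _ = _ := by rw [h7]

end Pool.Agent.Smj
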