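import Pool.Agent.Smj.ErgC

/-!
Smj LIFT: lifting ergodic joinings to the product system.
-/

set_option autoImplicit false

namespace Pool.Agent.Smj

open MeasureTheory ProbabilityTheory Filter Topology Pool.Agent.Sar
open scoped ENNReal ComplexConjugate

section aux

variable {X : Type*} [MeasurableSpace X] [StandardBorelSpace X] [Nonempty X]

/-- equivariance of the conditional laws -/
private theorem Lift_equi {A B : X ≃ᵐ X} {π : Measure (X × X)} [IsProbabilityMeasure π]
    (hA : MeasurePreserving A π.fst π.fst) (inv : π.map (Prod.map A B) = π) :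
    ∀ᵐ x ∂π.fst, π.condKernel (A x) = (π.condKernel x).map B := by
  set κ : Kernel X X := (π.condKernel.comap A A.measurable).map B.symm with hκ
  have hκa : ∀ x, κ x = (π.condKernel (A x)).map B.symm := fun x => by
    rw [hκ, Kernel.map_apply _ B.symm.measurable, Kernel.comap_apply]
  have hmar : IsMarkovKernel κ := by
    rw [hκ]; exact Kernel.IsMarkovKernel.map _ B.symm.measurable
  have key : π = π.fst ⊗ₘ κ := by
    refine Measure.ext_prod fun {s t} hs ht => ?_
    rw [Measure.compProd_apply_prod hs ht]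
    have h1 : ∀ a, κ a t = (fun b => π.condKernel b (B.symm ⁻¹' t)) (A a) := fun a => by
      rw [hκa, Measure.map_apply B.symm.measurable ht]
    have h2 : s = A ⁻¹' (A.symm ⁻¹' s) := by
      ext x; simp
    simp_rw [h1]
    conv_rhs => rw [h2]
    have hm : Measurable fun b => π.condKernel b (B.symm ⁻¹' t) :=
      π.condKernel.measurable_coe (B.symm.measurable ht)
    rw [hA.setLIntegral_comp_preimage (A.symm.measurable hs) hm]
    rw [← Measure.compProd_apply_prod (A.symm.measurable hs) (B.symm.measurable ht),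
      π.disintegrate π.condKernel]
    conv_rhs => rw [← inv]
    rw [Measure.map_apply (A.measurable.prodMap B.measurable)
      ((A.symm.measurable hs).prod (B.symm.measurable ht))]
    congr 1
    ext z
    simp [Set.mem_prod]
  filter_upwards [eq_condKernel_of_measure_eq_compProd κ key] with x hx
  rw [← hx, hκa, Measure.map_map B.measurable B.symm.measurable]
  have : (⇑B ∘ ⇑B.symm) = id := by ext y; simp
  rw [this, Measure.map_id]

private theorem Lift_fst {A B : X → X} (hA : Measurable A) (hB : Measurable B)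
    {π : Measure (X × X)} (inv : π.map (Prod.map A B) = π) : MeasurePreserving A π.fst π.fst := by
  refine ⟨hA, ?_⟩
  have h1 : (π.map (Prod.map A B)).fst = π.fst := by rw [inv]
  rw [Measure.fst, Measure.map_map measurable_fst (hA.prodMap hB)] at h1
  rw [Measure.fst, Measure.map_map hA measurable_fst]
  exact h1

/-- the kernel -/
private noncomputable def Lift_K (κ κ' : Kernel X X) :
    Kernel (X × X) ((X × X) × (X × X)) :=
  ((Kernel.deterministic Prod.fst measurable_fst) ×ₖ (κ.comap Prod.fst measurable_fst)) ×ₖ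
    ((κ'.comap Prod.snd measurable_snd) ×ₖ (Kernel.deterministic Prod.snd measurable_snd))

private instance (κ κ' : Kernel X X) [IsMarkovKernel κ] [IsMarkovKernel κ'] :
    IsMarkovKernel (Lift_K κ κ') := by
  unfold Lift_K; infer_instance

private theorem Lift_K_apply (κ κ' : Kernel X X) [IsMarkovKernel κ] [IsMarkovKernel κ']
    (z : X × X) : Lift_K κ κ' z = ((Measure.dirac z.1).prod (κ z.1)).prod
      ((κ' z.2).prod (Measure.dirac z.2)) := by
  unfold Lift_K
  rw [Kernel.prod_apply, Kernel.prod_apply, Kernel.prod_apply, Kernel.comap_apply,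
    Kernel.comap_apply, Kernel.deterministic_apply, Kernel.deterministic_apply]

end aux

variable {X : Type*} [MeasurableSpace X] [StandardBorelSpace X] [Nonempty X] {ν μ : Measure X}
  [IsProbabilityMeasure ν] [IsProbabilityMeasure μ] {T : X ≃ᵐ X}

/-- Let `σ₀` be the law of `((z₁, z₂), (w₁, w₂))`, `(z₁, w₂) ~ ρ`, `z₂ ~ π.condKernel z₁`, `w₁ ~` conditional law of the first coordinate of `π` given the second `= w₂`, conditionally independent. It is invariant under `(T×T)^p₀ × (T×T)^p` (test on products; the conditional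
laws are equivariant under `T` a.e. since `π` is `T×T`-invariant), both marginals on `X × X` are `π`. Almost every ergodic component (`EC_erg`) has by `EC_marg` marginals `π`, `π` (ergodic for the iterates, `h0`, `hp`) and the law `ρ` for `(z₁, w₂)` (`hρ.erg`). -/
theorem lift {π : Measure (X × X)} (hπ : EJ T T ν μ π) {p₀ p : ℕ}
    (h0 : Ergodic ((Prod.map T T)^[p₀]) π) (hp : Ergodic ((Prod.map T T)^[p]) π)
    {ρ : Measure (X × X)} (hρ : EJ ((⇑T)^[p₀]) ((⇑T)^[p]) ν μ ρ) :
    ∃ σ : Measure ((X × X) × (X × X)),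
      EJ ((Prod.map T T)^[p₀]) ((Prod.map T T)^[p]) π π σ ∧
      ∀ u v : X → ℂ, BM u → BM v → ∫ z, u z.1.1 * v z.2.2 ∂σ = ∫ z, u z.1 * v z.2 ∂ρ := by
  have := hπ.prob
  have := hρ.prob
  have hmT : ∀ n : ℕ, Measurable (⇑T)^[n] := fun n => T.measurable.iterate n
  have hmR : ∀ n : ℕ, Measurable (Prod.map (⇑T) (⇑T))^[n] := fun n =>
    (T.measurable.prodMap T.measurable).iterate n
  set π' : Measure (X × X) := π.map Prod.swap with hπ'
  have : IsProbabilityMeasure π' := Measure.isProbabilityMeasure_map measurable_swap.aemeasurable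
  set κ := π.condKernel with hκ
  set κ' := π'.condKernel with hκ'
  have hπf : π.fst = ν := hπ.fst
  have hπ'f : π'.fst = μ := by
    rw [hπ', Measure.fst, Measure.map_map measurable_fst measurable_swap]
    exact hπ.snd
  -- invariance of `π` under the iterates
  have hinv : ∀ n : ℕ, π.map (Prod.map ((⇑T)^[n]) ((⇑T)^[n])) = π := fun n => by
    have h := (hπ.erg.toMeasurePreserving.iterate n).map_eq
    rwa [Prod.map_iterate] at h
  have hinv' : ∀ n : ℕ, π'.map (Prod.map ((⇑T)^[n]) ((⇑T)^[n])) = π' := fun n => by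
    rw [hπ', Measure.map_map ((hmT n).prodMap (hmT n)) measurable_swap]
    have h1 : (Prod.map ((⇑T)^[n]) ((⇑T)^[n])) ∘ (Prod.swap : X × X → X × X)
        = Prod.swap ∘ (Prod.map ((⇑T)^[n]) ((⇑T)^[n])) := by
      ext z <;> rfl
    rw [h1, ← Measure.map_map measurable_swap ((hmT n).prodMap (hmT n)), hinv]
  have eq1 : ∀ n : ℕ, ∀ᵐ x ∂ν, κ ((⇑T)^[n] x) = (κ x).map ((⇑T)^[n]) := fun n => by
    have h := Lift_equi (A := itE T n) (B := itE T n) (π := π)
      (Lift_fst (itE T n).measurable (itE T n).measurable (by rw [itE_coe]; exact hinv n))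
      (by rw [itE_coe]; exact hinv n)
    rw [hπf] at h
    simpa only [itE_coe] using h
  have eq2 : ∀ n : ℕ, ∀ᵐ x ∂μ, κ' ((⇑T)^[n] x) = (κ' x).map ((⇑T)^[n]) := fun n => by
    have h := Lift_equi (A := itE T n) (B := itE T n) (π := π')
      (Lift_fst (itE T n).measurable (itE T n).measurable (by rw [itE_coe]; exact hinv' n))
      (by rw [itE_coe]; exact hinv' n)
    rw [hπ'f] at h
    simpa only [itE_coe] using h
  have eq1' : ∀ᵐ z ∂ρ, κ ((⇑T)^[p₀] z.1) = (κ z.1).map ((⇑T)^[p₀]) :=
    ae_of_ae_map measurable_fst.aemeasurable (by rw [hρ.fst]; exact eq1 p₀)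
  have eq2' : ∀ᵐ z ∂ρ, κ' ((⇑T)^[p] z.2) = (κ' z.2).map ((⇑T)^[p]) :=
    ae_of_ae_map measurable_snd.aemeasurable (by rw [hρ.snd]; exact eq2 p)
  -- the measure
  set K := Lift_K κ κ' with hK
  set σ₀ : Measure ((X × X) × (X × X)) := K ∘ₘ ρ with hσ₀
  have hσp : IsProbabilityMeasure σ₀ := by rw [hσ₀]; infer_instance
  -- first marginal
  have m1 : σ₀.map Prod.fst = π := by
    have : IsProbabilityMeasure (σ₀.map Prod.fst) :=
      Measure.isProbabilityMeasure_map measurable_fst.aemeasurable
    refine Measure.ext_prod fun {s t} hs ht => ?_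
    rw [Measure.map_apply measurable_fst (hs.prod ht), hσ₀,
      Measure.bind_apply (measurable_fst (hs.prod ht)) (Kernel.aemeasurable _)]
    have h1 : ∀ z : X × X, K z (Prod.fst ⁻¹' (s ×ˢ t)) =
        (fun x => s.indicator (fun x => κ x t) x) z.1 := fun z => by
      rw [hK, Lift_K_apply]
      have h2 : (Prod.fst ⁻¹' (s ×ˢ t) : Set ((X × X) × (X × X))) = (s ×ˢ t) ×ˢ Set.univ := by
        ext w; simp
      rw [h2, Measure.prod_prod, Measure.prod_prod, measure_univ, mul_one,
        Measure.dirac_apply' _ hs]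
      by_cases hz : z.1 ∈ s <;> simp [hz]
    simp_rw [h1]
    have hm : Measurable fun x => s.indicator (fun x => κ x t) x :=
      (κ.measurable_coe ht).indicator hs
    rw [← lintegral_map hm measurable_fst, hρ.fst, lintegral_indicator hs]
    have h3 := Measure.compProd_apply_prod (μ := ν) (κ := κ) hs ht
    rw [← h3]
    have h4 := π.disintegrate π.condKernel
    rw [hπf] at h4
    rw [hκ, h4]
  -- second marginal
  have m2 : σ₀.map Prod.snd = π := by
    have : IsProbabilityMeasure (σ₀.map Prod.snd) :=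
      Measure.isProbabilityMeasure_map measurable_snd.aemeasurable
    refine Measure.ext_prod fun {s t} hs ht => ?_
    rw [Measure.map_apply measurable_snd (hs.prod ht), hσ₀,
      Measure.bind_apply (measurable_snd (hs.prod ht)) (Kernel.aemeasurable _)]
    have h1 : ∀ z : X × X, K z (Prod.snd ⁻¹' (s ×ˢ t)) =
        (fun x => t.indicator (fun x => κ' x s) x) z.2 := fun z => by
      rw [hK, Lift_K_apply]
      have h2 : (Prod.snd ⁻¹' (s ×ˢ t) : Set ((X × X) × (X × X))) = Set.univ ×ˢ (s ×ˢ t) := by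
        ext w; simp
      rw [h2, Measure.prod_prod, Measure.prod_prod, measure_univ, one_mul,
        Measure.dirac_apply' _ ht]
      by_cases hz : z.2 ∈ t <;> simp [hz]
    simp_rw [h1]
    have hm : Measurable fun x => t.indicator (fun x => κ' x s) x :=
      (κ'.measurable_coe hs).indicator ht
    rw [← lintegral_map hm measurable_snd, hρ.snd, lintegral_indicator ht]
    have h3 := Measure.compProd_apply_prod (μ := μ) (κ := κ') ht hs
    rw [← h3]
    have h4 := π'.disintegrate π'.condKernel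
    rw [hπ'f] at h4
    rw [hκ', h4, hπ', Measure.map_apply measurable_swap (ht.prod hs)]
    congr 1
    ext z
    simp only [Set.mem_preimage, Set.mem_prod, Prod.fst_swap, Prod.snd_swap]
    exact and_comm
  -- the law of the outer coordinates
  have hmo : Measurable fun z : (X × X) × (X × X) => (z.1.1, z.2.2) := by fun_prop
  have m3 : σ₀.map (fun z => (z.1.1, z.2.2)) = ρ := by
    have : IsProbabilityMeasure (σ₀.map (fun z => (z.1.1, z.2.2))) :=
      Measure.isProbabilityMeasure_map hmo.aemeasurable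
    refine Measure.ext_prod fun {s t} hs ht => ?_
    rw [Measure.map_apply hmo (hs.prod ht), hσ₀,
      Measure.bind_apply (hmo (hs.prod ht)) (Kernel.aemeasurable _)]
    have h1 : ∀ z : X × X, K z ((fun z => (z.1.1, z.2.2)) ⁻¹' (s ×ˢ t)) =
        (s ×ˢ t).indicator (fun _ => (1 : ℝ≥0∞)) z := fun z => by
      rw [hK, Lift_K_apply]
      have h2 : ((fun z : (X × X) × (X × X) => (z.1.1, z.2.2)) ⁻¹' (s ×ˢ t)) =
          (s ×ˢ Set.univ) ×ˢ (Set.univ ×ˢ t) := by
        ext w; simp
      rw [h2, Measure.prod_prod, Measure.prod_prod, Measure.prod_prod, measure_univ,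
        measure_univ, mul_one, one_mul, Measure.dirac_apply' _ hs, Measure.dirac_apply' _ ht]
      by_cases hz : z.1 ∈ s <;> by_cases hz' : z.2 ∈ t <;> simp [hz, hz', Set.indicator]
    simp_rw [h1]
    rw [lintegral_indicator (hs.prod ht), setLIntegral_one]
  -- invariance
  have hmS : Measurable (Prod.map ((Prod.map (⇑T) (⇑T))^[p₀]) ((Prod.map (⇑T) (⇑T))^[p])) :=
    (hmR p₀).prodMap (hmR p)
  have hmp : Measurable (Prod.map ((⇑T)^[p₀]) ((⇑T)^[p])) := (hmT p₀).prodMap (hmT p)
  have minv : MeasurePreserving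
      (Prod.map ((Prod.map (⇑T) (⇑T))^[p₀]) ((Prod.map (⇑T) (⇑T))^[p])) σ₀ σ₀ := by
    refine ⟨hmS, ?_⟩
    have h1 : ∀ᵐ z ∂ρ, (K.map (Prod.map ((Prod.map (⇑T) (⇑T))^[p₀]) ((Prod.map (⇑T) (⇑T))^[p]))) z
        = (K.comap (Prod.map ((⇑T)^[p₀]) ((⇑T)^[p])) hmp) z := by
      filter_upwards [eq1', eq2'] with z hz1 hz2
      rw [Kernel.map_apply _ hmS, Kernel.comap_apply, hK, Lift_K_apply, Lift_K_apply]
      rw [Prod.map_fst, Prod.map_snd, hz1, hz2, Prod.map_iterate, Prod.map_iterate]
      rw [← Measure.map_prod_map _ _ ((hmT p₀).prodMap (hmT p₀)) ((hmT p).prodMap (hmT p)),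
        ← Measure.map_prod_map _ _ (hmT p₀) (hmT p₀), ← Measure.map_prod_map _ _ (hmT p) (hmT p),
        Measure.map_dirac' (hmT p₀), Measure.map_dirac' (hmT p)]
    have h2 : σ₀.map (Prod.map ((Prod.map (⇑T) (⇑T))^[p₀]) ((Prod.map (⇑T) (⇑T))^[p]))
        = (K.comap (Prod.map ((⇑T)^[p₀]) ((⇑T)^[p])) hmp) ∘ₘ ρ := by
      rw [hσ₀, Measure.map_comp _ _ hmS]
      exact Measure.comp_congr h1
    rw [h2]
    ext s hs
    rw [Measure.bind_apply hs (Kernel.aemeasurable _)]
    simp_rw [Kernel.comap_apply]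
    have h3 := hρ.erg.toMeasurePreserving.lintegral_comp (K.measurable_coe hs)
    rw [h3, ← Measure.bind_apply hs (Kernel.aemeasurable _)]
  -- an ergodic component
  have c1 := EC_erg minv
  have c2 := EC_marg (f := Prod.fst) (S' := (Prod.map (⇑T) (⇑T))^[p₀]) minv measurable_fst
    (fun y => rfl) (by rw [m1]; exact h0)
  have c3 := EC_marg (f := Prod.snd) (S' := (Prod.map (⇑T) (⇑T))^[p]) minv measurable_snd
    (fun y => rfl) (by rw [m2]; exact hp)
  have c4 := EC_marg (f := fun z : (X × X) × (X × X) => (z.1.1, z.2.2))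
    (S' := Prod.map ((⇑T)^[p₀]) ((⇑T)^[p])) minv hmo
    (fun y => by simp [Prod.map_iterate]) (by rw [m3]; exact hρ.erg)
  obtain ⟨w, w1, w2, w3, w4⟩ := (c1.and (c2.and (c3.and c4))).exists
  rw [m1] at w2
  rw [m2] at w3
  rw [m3] at w4
  refine ⟨EC σ₀ (Prod.map ((Prod.map (⇑T) (⇑T))^[p₀]) ((Prod.map (⇑T) (⇑T))^[p])) w,
    ⟨inferInstance, w1, w2, w3⟩, fun u v hu hv => ?_⟩
  have hm : Measurable fun z : X × X => u z.1 * v z.2 :=
    (hu.meas.comp measurable_fst).mul (hv.meas.comp measurable_snd)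
  conv_rhs => rw [← w4]
  rw [integral_map hmo.aemeasurable hm.aestronglyMeasurable]

end Pool.Agent.Smj
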