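import Pool.Agent.Smj.ExJ
import Pool.Agent.Smj.JnE
import Pool.Agent.Smj.EVj
import Pool.Agent.Smj.FcL
import Pool.Agent.Smj.Lift
import Pool.Agent.Smj.BddP
import Pool.Agent.Sar.D4
import Pool.Agent.Sar.S2
import Pool.Agent.Sar.S3

/-!
Smj BLKJ: the block estimate for joinings of two of the measures.
-/

set_option autoImplicit false

namespace Pool.Agent.Smj

open MeasureTheory ProbabilityTheory Filter Topology Pool.Agent.Sar
open scoped ENNReal ComplexConjugate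

variable {X : Type*} [MetricSpace X] [CompactSpace X] [mX : MeasurableSpace X] [BorelSpace X]
  [Nonempty X] {ι : Type*} {ν : ι → Measure X} [∀ s, IsProbabilityMeasure (ν s)]

private noncomputable def BlkJ_G (F F' : X → ℂ) (k : ℕ) (z : X × X) : ℂ :=
  (F z.1 + Complex.I ^ k * F' z.2) / 2

omit [CompactSpace X] [BorelSpace X] [Nonempty X] [MetricSpace X] in
private theorem BlkJ_B1 {F F' : X → ℂ} (hF : B1 F) (hF' : B1 F') (k : ℕ) : B1 (BlkJ_G F F' k) := by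
  refine ⟨?_, fun z => ?_⟩
  · unfold BlkJ_G
    exact ((hF.meas.comp measurable_fst).add ((hF'.meas.comp measurable_snd).const_mul _)).div_const _
  · unfold BlkJ_G
    have h1 : ‖F z.1 + Complex.I ^ k * F' z.2‖ ≤ 2 := by
      refine (norm_add_le _ _).trans ?_
      rw [norm_mul, norm_pow, Complex.norm_I, one_pow, one_mul]
      linarith [hF.bdd z.1, hF'.bdd z.2]
    rw [norm_div]
    have h2 : ‖(2 : ℂ)‖ = 2 := by norm_num
    rw [h2, div_le_one (by norm_num)]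
    exact h1

omit [CompactSpace X] [BorelSpace X] [Nonempty X] [MetricSpace X] mX in
private theorem BlkJ_pol (F F' : X → ℂ) (z w : X × X) :
    F z.1 * conj (F' w.2) = ∑ k ∈ Finset.range 4,
      Complex.I ^ k * (BlkJ_G F F' k z * conj (BlkJ_G F F' k w)) := by
  have e2 : Complex.I ^ 2 = -1 := Complex.I_sq
  have e3 : Complex.I ^ 3 = -Complex.I := by rw [pow_succ, e2]; ring
  have c2 : conj (2 : ℂ) = 2 := by
    have := Complex.conj_ofReal (2 : ℝ)
    simpa using this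
  unfold BlkJ_G
  simp only [Finset.sum_range_succ, Finset.sum_range_zero, pow_zero, pow_one, e2, e3, map_div₀,
    map_add, map_mul, map_neg, map_one, Complex.conj_I, c2]
  linear_combination ((F z.1 * conj (F' w.2) - F' z.2 * conj (F w.1)) / 2) * e2

omit [CompactSpace X] [BorelSpace X] [Nonempty X] [MetricSpace X] in
private theorem BlkJ_fc {π : Measure (X × X)} [IsProbabilityMeasure π] {R : X × X → X × X}
    {F F' : X → ℂ} (hF : B1 F) (hF' : B1 F') {l : ℂ} (h : fc π R (fun z => F z.1) l = 0)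
    (h' : fc π R (fun z => F' z.2) l = 0) (k : ℕ) : fc π R (BlkJ_G F F' k) l = 0 := by
  unfold fc at h h' ⊢
  have hme : Measurable fun z => conj (eg π R l z) :=
    Complex.continuous_conj.measurable.comp (eg_meas l)
  have i1 : Integrable (fun z : X × X => F z.1 * conj (eg π R l z)) π := by
    refine Integrable.of_bound ((hF.meas.comp measurable_fst).mul hme).aestronglyMeasurable 1
      (Filter.Eventually.of_forall fun z => ?_)
    rw [norm_mul, Complex.norm_conj, eg_norm, mul_one]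
    exact hF.bdd _
  have i2 : Integrable (fun z : X × X => F' z.2 * conj (eg π R l z)) π := by
    refine Integrable.of_bound ((hF'.meas.comp measurable_snd).mul hme).aestronglyMeasurable 1
      (Filter.Eventually.of_forall fun z => ?_)
    rw [norm_mul, Complex.norm_conj, eg_norm, mul_one]
    exact hF'.bdd _
  have e : ∀ z, BlkJ_G F F' k z * conj (eg π R l z) = (1 / 2) * (F z.1 * conj (eg π R l z)) +
      (Complex.I ^ k / 2) * (F' z.2 * conj (eg π R l z)) := fun z => by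
    unfold BlkJ_G; ring
  simp_rw [e]
  rw [integral_add (i1.const_mul _) (i2.const_mul _), integral_const_mul, integral_const_mul, h, h']
  ring

omit [CompactSpace X] [BorelSpace X] [Nonempty X] [MetricSpace X] in
private theorem BlkJ_int {σ : Measure ((X × X) × (X × X))} [IsProbabilityMeasure σ]
    {F F' : X → ℂ} (hF : B1 F) (hF' : B1 F') :
    ‖∫ z, F z.1.1 * conj (F' z.2.2) ∂σ‖ ≤ ∑ k ∈ Finset.range 4,
      ‖∫ z, BlkJ_G F F' k z.1 * conj (BlkJ_G F F' k z.2) ∂σ‖ := by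
  have hi : ∀ k, Integrable (fun z : (X × X) × (X × X) =>
      BlkJ_G F F' k z.1 * conj (BlkJ_G F F' k z.2)) σ := fun k => by
    have hB := BlkJ_B1 hF hF' k
    refine Integrable.of_bound ((hB.meas.comp measurable_fst).mul
      (Complex.continuous_conj.measurable.comp (hB.meas.comp measurable_snd))).aestronglyMeasurable
      1 (Filter.Eventually.of_forall fun z => ?_)
    rw [norm_mul, Complex.norm_conj]
    exact mul_le_one₀ (hB.bdd _) (norm_nonneg _) (hB.bdd _)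
  have e : ∀ z : (X × X) × (X × X), F z.1.1 * conj (F' z.2.2) = ∑ k ∈ Finset.range 4,
      Complex.I ^ k * (BlkJ_G F F' k z.1 * conj (BlkJ_G F F' k z.2)) := fun z =>
    BlkJ_pol F F' z.1 z.2
  simp_rw [e]
  rw [integral_finsetSum _ fun k _ => (hi k).const_mul _]
  refine (norm_sum_le _ _).trans (le_of_eq (Finset.sum_congr rfl fun k _ => ?_))
  rw [integral_const_mul, norm_mul, norm_pow, Complex.norm_I, one_pow, one_mul]

/-- `π` an ergodic joining of `ν s` and `ν s'` for `T × T` (`exists_join`); labels: `atom_pos`, `label` for `ν s`, `ν s'` and (with `bdd_prod`) for `π` and the homeomorphism `T.prodCongr T`. `F₁ z = F z.1`, `F₂ z = F' z.2` on `X × X`, `G_k = (F₁ + i^k F₂)/2`, `k < 4`: `B1`, orthogonal to all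
eigenfunctions of `π` (`fc_fst`, `fc_snd`). `Pool.Agent.Sar.D4` for each `G_k` and `ε/4` gives `I'_k ⊂ EV π`, `pow_join` gives `I_k`; `I = ∪ I_k`. For `2^i > m m'`, `p₀, p` with `GG`: `good_join`, `good_erg`. `lift` turns `ρ p` (`p ∈ P`) into `σ p`, `jn_of_erg`: `Jn`; for `p ∈ gb` outside `P` take any ergodic joining
of `(π, R^p₀)`, `(π, R^p)` (`exists_join`, `good_erg`). Polarization: `∫ F₁(z) conj F₂(w) dσ = (1/4) ∑_k i^k ∫ (F₁ + i^k F₂)(z) conj((F₁ + i^k F₂)(w)) dσ = ∑_k i^k ∫ G_k(z) conj G_k(w) dσ`, and the left side is `∫ F(z₁) conj F'(w₂) dρ`. -/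
theorem blkJ (hLam : Pool.Agent.BGG.SWLam) (T : X ≃ₜ X) (hB : BddSeqEnt T)
    (hE : ∀ s, Ergodic T (ν s)) (s s' : ι) {F F' : X → ℂ} (hF : B1 F) (hF' : B1 F')
    (h0 : ∀ l ∈ EV (ν s) T, fc (ν s) T F l = 0) (h0' : ∀ l ∈ EV (ν s') T, fc (ν s') T F' l = 0)
    {ε : ℝ} (hε : 0 < ε) :
    ∃ I : Finset ℂ, (∀ l ∈ I, l ∈ GE ν T ∧ ¬ Tors l) ∧ ∀ᶠ i : ℕ in atTop,
      ∀ p₀ ∈ blk i, GG ν T I p₀ → ∀ P ⊆ (blk i).erase p₀, (∀ p ∈ P, GG ν T I p) →
      ∀ ρ : ℕ → Measure (X × X),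
        (∀ p ∈ P, EJ ((⇑T)^[p₀]) ((⇑T)^[p]) (ν s) (ν s') (ρ p)) →
        ∑ p ∈ P, ‖∫ z : X × X, F z.1 * conj (F' z.2) ∂(ρ p)‖ ≤ ε * pib i := by
  classical
  obtain ⟨π, hπ⟩ := exists_join (hE s) (hE s')
  have hπp := hπ.prob
  obtain ⟨a₁, ha₁, ha₁', hat₁⟩ := atom_pos (hE s) hB
  obtain ⟨m₁, ℓ₁, hL₁⟩ := label ha₁ ha₁' hat₁
  obtain ⟨a₂, ha₂, ha₂', hat₂⟩ := atom_pos (hE s') hB
  obtain ⟨m₂, ℓ₂, hL₂⟩ := label ha₂ ha₂' hat₂
  set R : (X × X) ≃ₜ (X × X) := T.prodCongr T with hR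
  have hRE : Ergodic R π := hπ.erg
  have hRB : BddSeqEnt R := bdd_prod T.continuous hB
  obtain ⟨a₀, ha₀, ha₀', hat₀⟩ := atom_pos hRE hRB
  obtain ⟨m₀, ℓ₀, hL₀⟩ := label ha₀ ha₀' hat₀
  set R' : (X × X) ≃ᵐ (X × X) := R.toMeasurableEquiv with hR'
  have hRc : (⇑R' : X × X → X × X) = Prod.map T T := rfl
  have hπ1 : EJ (⇑T.toMeasurableEquiv) (⇑T.toMeasurableEquiv) (ν s) (ν s') π := hπ
  have f1 : ∀ l ∈ EV π R', fc π R' (fun z => F z.1) l = 0 :=
    fc_fst (T := T.toMeasurableEquiv) (S := T.toMeasurableEquiv) (hE s) hπ1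
      ⟨hF.meas, 1, hF.bdd⟩ h0
  have f2 : ∀ l ∈ EV π R', fc π R' (fun z => F' z.2) l = 0 :=
    fc_snd (T := T.toMeasurableEquiv) (S := T.toMeasurableEquiv) (hE s') hπ1
      ⟨hF'.meas, 1, hF'.bdd⟩ h0'
  have hD := fun k : ℕ => D4 hLam (T := R') hRE hL₀ (BlkJ_B1 hF hF' k)
    (fun l hl => BlkJ_fc hF hF' (f1 l hl) (f2 l hl) k) (show 0 < ε / 4 by positivity)
  choose I' hI' hI'' using hD
  have hpj := fun k : ℕ => pow_join hE hL₁ hL₂ hπ (I' k) (hI' k)
  choose J hJ hJ' using hpj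
  refine ⟨(Finset.range 4).biUnion J, ?_, ?_⟩
  · intro l hl
    obtain ⟨k, _, hk⟩ := Finset.mem_biUnion.1 hl
    exact hJ k l hk
  have hev := (Filter.eventually_all_finset (Finset.range 4)).2 (fun k _ => hI'' k)
  filter_upwards [hev, eventually_ge_atTop (m₁ * m₂)] with i hi hiM p₀ hp₀ hG₀ P hP hPG ρ hρ
  have hM : m₁ * m₂ < 2 ^ i := lt_of_le_of_lt hiM Nat.lt_two_pow_self
  have hblk : ∀ p ∈ blk i, p.Prime ∧ m₁ * m₂ < p := fun p hp => by
    unfold blk at hp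
    rw [Finset.mem_filter, Finset.mem_Ico] at hp
    exact ⟨hp.2, lt_of_lt_of_le hM hp.1.1⟩
  have hgood : ∀ p ∈ blk i, zt p ∉ GE ν T → Good π R' p := fun p hp hz =>
    good_join hE hL₁ hL₂ hπ (hblk p hp).1 (hblk p hp).2 hz
  have hnp : ∀ p, GG ν T ((Finset.range 4).biUnion J) p → ∀ k ∈ Finset.range 4, ∀ l ∈ I' k,
      ¬ IsPow π R' p l := fun p hp k hk l hl =>
    hJ' k p (fun l' hl' => hp.2 l' (Finset.mem_biUnion.2 ⟨k, hk, hl'⟩)) l hl
  have hg₀ : Good π R' p₀ := hgood p₀ hp₀ hG₀.1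
  have hPb : ∀ p ∈ P, p ∈ blk i ∧ p ≠ p₀ := fun p hp => by
    have h := hP hp
    rw [Finset.mem_erase] at h
    exact ⟨h.2, h.1⟩
  have hPg : ∀ p ∈ P, Good π R' p := fun p hp => hgood p (hPb p hp).1 (hPG p hp).1
  have hPgb : P ⊆ gb π R' i p₀ := fun p hp => by
    unfold gb
    rw [Finset.mem_erase, Finset.mem_filter]
    exact ⟨(hPb p hp).2, (hPb p hp).1, hPg p hp⟩
  have hRm : MeasurePreserving R' π π := hRE.toMeasurePreserving
  have hσ : ∀ p : ℕ, ∃ σ : Measure ((X × X) × (X × X)), IsProbabilityMeasure σ ∧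
      (p ∈ gb π R' i p₀ → Jn π R' p₀ p σ) ∧
      (p ∈ P → ∫ z, F z.1.1 * conj (F' z.2.2) ∂σ = ∫ z, F z.1 * conj (F' z.2) ∂(ρ p)) := by
    intro p
    by_cases hp : p ∈ P
    · obtain ⟨σ, hσ, hσ'⟩ := lift (T := T.toMeasurableEquiv) hπ1 (p₀ := p₀) (p := p)
        (good_erg hRE hg₀) (good_erg hRE (hPg p hp)) (hρ p hp)
      refine ⟨σ, hσ.prob, fun _ => jn_of_erg (T := R') hRm hσ, fun _ => ?_⟩
      exact hσ' F (fun x => conj (F' x)) ⟨hF.meas, 1, hF.bdd⟩
        ⟨Complex.continuous_conj.measurable.comp hF'.meas, 1, fun x => by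
          rw [Complex.norm_conj]; exact hF'.bdd x⟩
    · by_cases hg : p ∈ gb π R' i p₀
      · have hgp : Good π R' p := by
          unfold gb at hg
          rw [Finset.mem_erase, Finset.mem_filter] at hg
          exact hg.2.2
        obtain ⟨σ, hσ⟩ := exists_join (good_erg hRE hg₀) (good_erg hRE hgp)
        exact ⟨σ, hσ.prob, fun _ => jn_of_erg (T := R') hRm hσ, fun h => absurd h hp⟩
      · exact ⟨Measure.dirac (Classical.arbitrary _), inferInstance, fun h => absurd h hg,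
          fun h => absurd h hp⟩
  choose σ hσp hσJ hσI using hσ
  have hk : ∀ k ∈ Finset.range 4, ∑ p ∈ P,
      ‖∫ z, BlkJ_G F F' k z.1 * conj (BlkJ_G F F' k z.2) ∂(σ p)‖ ≤ ε / 4 * pib i := fun k hk =>
    hi k hk p₀ hp₀ hg₀ (fun l hl => hnp p₀ hG₀ k hk l hl) P hPgb
      (fun p hp l hl => hnp p (hPG p hp) k hk l hl) σ hσJ
  calc ∑ p ∈ P, ‖∫ z : X × X, F z.1 * conj (F' z.2) ∂(ρ p)‖
      = ∑ p ∈ P, ‖∫ z, F z.1.1 * conj (F' z.2.2) ∂(σ p)‖ :=
        Finset.sum_congr rfl fun p hp => by rw [hσI p hp]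
    _ ≤ ∑ p ∈ P, ∑ k ∈ Finset.range 4,
        ‖∫ z, BlkJ_G F F' k z.1 * conj (BlkJ_G F F' k z.2) ∂(σ p)‖ :=
        Finset.sum_le_sum fun p _ => BlkJ_int hF hF'
    _ = ∑ k ∈ Finset.range 4, ∑ p ∈ P,
        ‖∫ z, BlkJ_G F F' k z.1 * conj (BlkJ_G F F' k z.2) ∂(σ p)‖ := Finset.sum_comm
    _ ≤ ∑ _k ∈ Finset.range 4, ε / 4 * pib i := Finset.sum_le_sum hk
    _ = ε * pib i := by
        rw [Finset.sum_const, Finset.card_range, nsmul_eq_mul]
        push_cast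
        ring

end Pool.Agent.Smj
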