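import Pool.Agent.Sar.Defs

/-!
Smj DEFS: joinings for several ergodic measures (MP_13664e_an, theorem SM).
-/

set_option autoImplicit false

namespace Pool.Agent.Smj

open MeasureTheory ProbabilityTheory Filter Topology Pool.Agent.Sar
open scoped ENNReal ComplexConjugate

/-- `ρ` is an ergodic joining of `(μ, S)` and `(μ', S')` -/
structure EJ {X Y : Type*} [MeasurableSpace X] [MeasurableSpace Y] (S : X → X) (S' : Y → Y)
    (μ : Measure X) (μ' : Measure Y) (ρ : Measure (X × Y)) : Prop where
  prob : IsProbabilityMeasure ρ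
  erg : Ergodic (Prod.map S S') ρ
  fst : ρ.map Prod.fst = μ
  snd : ρ.map Prod.snd = μ'

/-- the ergodic components of `ρ` for the map `S` -/
noncomputable def EC {Y : Type*} [MeasurableSpace Y] [StandardBorelSpace Y] [Nonempty Y]
    (ρ : Measure Y) [IsFiniteMeasure ρ] (S : Y → Y) (w : Y) : Measure Y :=
  condExpKernel ρ (MeasurableSpace.invariants S) w

/-- the group generated by the eigenvalues of all `ν s` -/
def GE {X ι : Type*} [MeasurableSpace X] (ν : ι → Measure X) (T : X → X) : Set ℂ :=
  (Submonoid.closure (⋃ s, EV (ν s) T) : Submonoid ℂ)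

/-- `e(1/p)` is not in the group and no element of `I` is a `p`-th power in the group -/
def GG {X ι : Type*} [MeasurableSpace X] (ν : ι → Measure X) (T : X → X) (I : Finset ℂ) (p : ℕ) : Prop :=
  zt p ∉ GE ν T ∧ ∀ l ∈ I, ¬ ∃ m ∈ GE ν T, m ^ p = l

/-- the structured part of `g`: short weighted ergodic averages -/
noncomputable def Str {X : Type*} [TopologicalSpace X] (T : X ≃ₜ X) (L : Finset ℂ) (H : ℕ)
    (g : C(X, ℂ)) : C(X, ℂ) where
  toFun x := ∑ l ∈ L, (H : ℂ)⁻¹ * ∑ h ∈ Finset.Ioc 0 H, (conj l) ^ h * g ((⇑T)^[h] x)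
  continuous_toFun := by
    refine continuous_finsetSum _ fun l _ => continuous_const.mul (continuous_finsetSum _ fun h _ =>
      continuous_const.mul (g.continuous.comp (T.continuous.iterate h)))

end Pool.Agent.Smj
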