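import Pool.Agent.Smj.ErgC
import Pool.Agent.Sar.E0
import Pool.Agent.Sar.E0b
import Pool.Agent.Sar.K4

/-!
Smj EMP2: empirical joinings of an arbitrary point.
-/

set_option autoImplicit false

namespace Pool.Agent.Smj

open MeasureTheory ProbabilityTheory Filter Topology Pool.Agent.Sar
open scoped ENNReal ComplexConjugate

variable {X : Type*} [MetricSpace X] [CompactSpace X] [mX : MeasurableSpace X] [BorelSpace X]
  {ι : Type*} {ν : ι → Measure X} [∀ s, IsProbabilityMeasure (ν s)]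

/-- `m = (1/p) ∑_{j<p} (T^j)_* κ` is `T`-invariant and `T`-ergodic (a `T`-invariant set has `κ`-measure 0 or 1), so `m = ν s`; `Pool.Agent.Sar.marg_unique` gives `κ = ν s`. -/
theorem perg (T : X ≃ₜ X) (hE : ∀ s, Ergodic T (ν s))
    (hfin : ∀ m : Measure X, IsProbabilityMeasure m → Ergodic T m → ∃ s, m = ν s) {p : ℕ}
    (hpp : p.Prime) (hp : ∀ s, Good (ν s) T p) (κ : Measure X) (hκ : IsProbabilityMeasure κ)
    (hκE : Ergodic ((⇑T)^[p]) κ) : ∃ s, κ = ν s := by
  have hne : Nonempty X := by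
    by_contra h
    rw [not_nonempty_iff] at h
    have h1 := hκ.measure_univ
    rw [Set.univ_eq_empty_iff.2 h] at h1
    simp at h1
  have hp0 : 0 < p := hpp.pos
  have hpE : (p : ℝ≥0∞) ≠ 0 := by exact_mod_cast hp0.ne'
  have hTm : ∀ j : ℕ, Measurable ((⇑T)^[j]) := fun j => (T.continuous.iterate j).measurable
  have hTm1 : Measurable (⇑T) := T.continuous.measurable
  have hpr : ∀ j : ℕ, IsProbabilityMeasure (κ.map ((⇑T)^[j])) := fun j =>
    Measure.isProbabilityMeasure_map (hTm j).aemeasurable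
  set m : Measure X := (p : ℝ≥0∞)⁻¹ • ∑ j ∈ Finset.range p, κ.map ((⇑T)^[j]) with hm
  have hm1 : IsProbabilityMeasure m := by
    constructor
    rw [hm, Measure.smul_apply, Measure.finsetSum_apply, smul_eq_mul]
    simp only [measure_univ, Finset.sum_const, Finset.card_range, nsmul_eq_mul, mul_one]
    exact ENNReal.inv_mul_cancel hpE (ENNReal.natCast_ne_top _)
  -- measure of invariant sets
  have hit : ∀ (B : Set X), (⇑T) ⁻¹' B = B → ∀ j : ℕ, ((⇑T)^[j]) ⁻¹' B = B := by
    intro B hB j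
    induction j with
    | zero => rfl
    | succ j ih => rw [Function.iterate_succ, Set.preimage_comp, ih, hB]
  have hmB : ∀ B : Set X, MeasurableSet B → (⇑T) ⁻¹' B = B → m B = κ B := by
    intro B hBm hB
    rw [hm, Measure.smul_apply, Measure.finsetSum_apply, smul_eq_mul]
    have h1 : ∀ j ∈ Finset.range p, (κ.map ((⇑T)^[j])) B = κ B := by
      intro j _
      rw [Measure.map_apply (hTm j) hBm, hit B hB j]
    rw [Finset.sum_congr rfl h1, Finset.sum_const, Finset.card_range, nsmul_eq_mul, ← mul_assoc,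
      ENNReal.inv_mul_cancel hpE (ENNReal.natCast_ne_top _), one_mul]
  have hinv : MeasurePreserving (⇑T) m m := by
    refine ⟨hTm1, ?_⟩
    ext B hBm
    rw [Measure.map_apply hTm1 hBm, hm, Measure.smul_apply, Measure.smul_apply,
      Measure.finsetSum_apply, Measure.finsetSum_apply]
    congr 1
    have h1 : ∀ j ∈ Finset.range p, (κ.map ((⇑T)^[j])) ((⇑T) ⁻¹' B) =
        (κ.map ((⇑T)^[j + 1])) B := by
      intro j _
      rw [Measure.map_apply (hTm j) (hTm1 hBm), Measure.map_apply (hTm (j + 1)) hBm,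
        Function.iterate_succ', Set.preimage_comp]
    rw [Finset.sum_congr rfl h1]
    have h2 := Finset.sum_range_succ' (fun j => (κ.map ((⇑T)^[j])) B) p
    have h3 := Finset.sum_range_succ (fun j => (κ.map ((⇑T)^[j])) B) p
    have h4 : (κ.map ((⇑T)^[p])) B = (κ.map ((⇑T)^[0])) B := by
      rw [hκE.toMeasurePreserving.map_eq]
      simp
    rw [h3, h4] at h2
    have h5 : (κ.map ((⇑T)^[0])) B ≠ ∞ := measure_ne_top _ _
    exact ((ENNReal.add_left_inj h5).1 h2).symm
  have hmE : Ergodic (⇑T) m := by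
    refine ⟨hinv, ⟨fun B hBm hB => ?_⟩⟩
    have h1 := hκE.aeconst_set hBm (hit B hB p)
    rw [eventuallyConst_set'] at h1 ⊢
    rcases h1 with h1 | h1
    · left
      rw [ae_eq_empty] at h1 ⊢
      rw [hmB B hBm hB, h1]
    · right
      rw [ae_eq_univ] at h1 ⊢
      have h2 : (⇑T) ⁻¹' Bᶜ = Bᶜ := by rw [Set.preimage_compl, hB]
      rw [hmB Bᶜ hBm.compl h2, h1]
  obtain ⟨s, hs⟩ := hfin m hm1 hmE
  refine ⟨s, marg_unique T (hE s) (hp s) hκE.toMeasurePreserving.map_eq fun g => ?_⟩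
  rw [← hs, hm, integral_smul_measure, integral_finsetSum_measure]
  · have h1 : ∀ j ∈ Finset.range p, ∫ y, g y ∂(κ.map ((⇑T)^[j])) = ∫ y, g ((⇑T)^[j] y) ∂κ := by
      intro j _
      exact integral_map (hTm j).aemeasurable g.continuous.aestronglyMeasurable
    rw [Finset.sum_congr rfl h1, ENNReal.toReal_inv, ENNReal.toReal_natCast, Complex.real_smul]
    push_cast
    rfl
  · intro j _
    exact (BoundedContinuousFunction.mkOfCompact g).integrable _

/-- `Pool.Agent.Sar.emp_measure` with an ultrafilter along which the left side tends to its limsup gives `ρ₀`, invariant under `T^p × T^p'` (shift of the average; test against continuous functions). `EC_exists` with `φ z = H z.1 * conj (H z.2)` and the property of being ergodic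
(`EC_erg`): its marginals are ergodic for `T^p` and `T^p'` (factors), so `perg`. -/
theorem emp2 (T : X ≃ₜ X) (hE : ∀ s, Ergodic T (ν s))
    (hfin : ∀ m : Measure X, IsProbabilityMeasure m → Ergodic T m → ∃ s, m = ν s) (x : X) {p p' : ℕ}
    (hpp : p.Prime) (hpp' : p'.Prime) (hp : ∀ s, Good (ν s) T p) (hp' : ∀ s, Good (ν s) T p') (H : C(X, ℂ)) :
    ∃ (s s' : ι) (ρ : Measure (X × X)), EJ ((⇑T)^[p]) ((⇑T)^[p']) (ν s) (ν s') ρ ∧
      ∀ ε : ℝ, 0 < ε → ∀ᶠ M : ℕ in atTop,
        ‖(M : ℂ)⁻¹ * ∑ m ∈ Finset.Icc 1 M,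
          H ((⇑T)^[p * m] x) * conj (H ((⇑T)^[p' * m] x))‖ ≤
        ‖∫ z : X × X, H z.1 * conj (H z.2) ∂ρ‖ + ε := by
  have hne : Nonempty X := ⟨x⟩
  set z : ℕ → X × X := fun n => ((⇑T)^[p * n] x, (⇑T)^[p' * n] x) with hz
  set g : C(X × X, ℂ) := ⟨fun z => H z.1 * conj (H z.2),
    (H.continuous.comp continuous_fst).mul
      (Complex.continuous_conj.comp (H.continuous.comp continuous_snd))⟩ with hg
  have hgb : ∀ w, ‖g w‖ ≤ ‖g‖ := fun w => g.norm_coe_le_norm w
  set a : ℕ → ℝ := fun M => ‖(M : ℂ)⁻¹ * ∑ m ∈ Finset.Icc 1 M, g (z m)‖ with ha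
  have hsum : ∀ (f : C(X × X, ℂ)) (M : ℕ), ‖∑ m ∈ Finset.Icc 1 M, f (z m)‖ ≤ M * ‖f‖ := by
    intro f M
    refine (norm_sum_le _ _).trans ?_
    refine (Finset.sum_le_sum fun m _ => f.norm_coe_le_norm (z m)).trans ?_
    rw [Finset.sum_const, Nat.card_Icc, nsmul_eq_mul, Nat.add_sub_cancel]
  have hab : ∀ M, a M ≤ ‖g‖ := by
    intro M
    rw [ha]
    simp only
    rw [norm_mul, norm_inv, Complex.norm_natCast]
    rcases Nat.eq_zero_or_pos M with rfl | hM
    · simp
    · have hM' : (0 : ℝ) < M := by exact_mod_cast hM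
      rw [inv_mul_le_iff₀ hM']
      exact hsum g M
  have ha0 : ∀ M, 0 ≤ a M := fun M => norm_nonneg _
  have hbu : IsBoundedUnder (· ≤ ·) atTop a :=
    isBoundedUnder_of ⟨‖g‖, hab⟩
  have hbl : IsBoundedUnder (· ≥ ·) atTop a :=
    isBoundedUnder_of ⟨0, ha0⟩
  set L : ℝ := limsup a atTop with hL
  have hclus : MapClusterPt L atTop a := by
    rw [mapClusterPt_iff_frequently]
    intro s hs
    obtain ⟨δ, hδ, hs'⟩ := Metric.mem_nhds_iff.1 hs
    have h1 : ∃ᶠ M in atTop, L - δ < a M :=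
      frequently_lt_of_lt_limsup hbl.isCobounded_flip (by rw [← hL]; linarith)
    have h2 : ∀ᶠ M in atTop, a M < L + δ :=
      eventually_lt_of_limsup_lt (by rw [← hL]; linarith) hbu
    refine (h1.and_eventually h2).mono fun M hM => hs' ?_
    rw [Metric.mem_ball, Real.dist_eq, abs_lt]
    constructor <;> linarith [hM.1, hM.2]
  rw [mapClusterPt_iff_ultrafilter] at hclus
  obtain ⟨𝒰, h𝒰, hlim⟩ := hclus
  obtain ⟨ρ₀, hρ₀, hemp⟩ := emp_measure T x p p' 𝒰 h𝒰
  have hnorm : ‖∫ w, g w ∂ρ₀‖ = L := by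
    have h1 := (hemp g).norm
    exact tendsto_nhds_unique h1 hlim
  -- invariance
  set S : X × X → X × X := Prod.map ((⇑T)^[p]) ((⇑T)^[p']) with hS
  have hSc : Continuous S := (T.continuous.iterate p).prodMap (T.continuous.iterate p')
  have hSm : Measurable S := hSc.measurable
  have hSz : ∀ n, S (z n) = z (n + 1) := by
    intro n
    simp only [hS, hz, Prod.map_apply, Nat.mul_add, mul_one]
    rw [add_comm, Function.iterate_add_apply, add_comm (p' * n), Function.iterate_add_apply]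
  have hNt : Tendsto (fun N : ℕ => (N : ℂ)⁻¹) (𝒰 : Filter ℕ) (𝓝 0) := by
    have h1 : Tendsto (fun N : ℕ => (N : ℂ)⁻¹) atTop (𝓝 0) :=
      tendsto_inv_atTop_nhds_zero_nat (𝕜 := ℂ)
    exact h1.mono_left h𝒰
  have hint : ∀ f : C(X × X, ℂ), ∫ w, f (S w) ∂ρ₀ = ∫ w, f w ∂ρ₀ := by
    intro f
    have h1 := hemp ⟨fun w => f (S w), f.continuous.comp hSc⟩
    have h2 := hemp f
    simp only [ContinuousMap.coe_mk] at h1
    have h3 : Tendsto (fun N : ℕ => (N : ℂ)⁻¹ * (f (z (N + 1)) - f (z 1))) (𝒰 : Filter ℕ)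
        (𝓝 0) := by
      refine tendsto_zero_iff_norm_tendsto_zero.2 ?_
      have h4 := (tendsto_zero_iff_norm_tendsto_zero.1 hNt).mul_const (‖f‖ + ‖f‖)
      rw [zero_mul] at h4
      refine squeeze_zero (fun N => norm_nonneg _) (fun N => ?_) h4
      rw [norm_mul]
      refine mul_le_mul_of_nonneg_left ?_ (norm_nonneg _)
      exact (norm_sub_le _ _).trans (add_le_add (f.norm_coe_le_norm _) (f.norm_coe_le_norm _))
    have h5 := h2.add h3
    rw [add_zero] at h5
    refine tendsto_nhds_unique h1 (h5.congr fun N => ?_)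
    rw [← mul_add]
    congr 1
    have h6 : ∀ n ∈ Finset.Icc 1 N, f (S ((⇑T)^[p * n] x, (⇑T)^[p' * n] x)) = f (z (n + 1)) :=
      fun n _ => by rw [← hSz n]
    rw [Finset.sum_congr rfl h6]
    clear h1 h2 h3 h5 h6
    induction N with
    | zero => simp
    | succ N ih =>
      rw [Finset.sum_Icc_succ_top (by omega), Finset.sum_Icc_succ_top (by omega), ← ih]
      show _ + f (z (N + 1)) + _ = _
      ring
  have hmp : MeasurePreserving S ρ₀ ρ₀ := by
    refine ⟨hSm, ?_⟩
    have : IsProbabilityMeasure (ρ₀.map S) := Measure.isProbabilityMeasure_map hSm.aemeasurable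
    refine ext_of_forall_integral_eq_of_IsFiniteMeasure fun f => ?_
    rw [integral_map hSm.aemeasurable f.continuous.aestronglyMeasurable]
    have h2 := hint ⟨fun x => ((f x : ℝ) : ℂ), Complex.continuous_ofReal.comp f.continuous⟩
    simp only [ContinuousMap.coe_mk] at h2
    rw [integral_complex_ofReal, integral_complex_ofReal] at h2
    exact_mod_cast h2
  -- an ergodic component
  have hgBM : BM (fun w => g w) := ⟨g.continuous.measurable, ‖g‖, hgb⟩
  obtain ⟨w, hwE, hw⟩ := EC_exists (ρ := ρ₀) (S := S) hSm hgBM (EC_erg hmp)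
  set ρ : Measure (X × X) := EC ρ₀ S w with hρ
  have hρ1 : IsProbabilityMeasure ρ := by rw [hρ]; infer_instance
  have hf1 : IsProbabilityMeasure (ρ.map Prod.fst) :=
    Measure.isProbabilityMeasure_map measurable_fst.aemeasurable
  have hf2 : IsProbabilityMeasure (ρ.map Prod.snd) :=
    Measure.isProbabilityMeasure_map measurable_snd.aemeasurable
  have hfac : ∀ (f : X × X → X) (hf : Measurable f) (S' : X → X), Measurable S' →
      f ∘ S = S' ∘ f → Ergodic S' (ρ.map f) := by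
    intro f hf S' hS' hc
    refine ⟨⟨hS', ?_⟩, ?_⟩
    · rw [Measure.map_map hS' hf, ← hc, ← Measure.map_map hf hSm, hwE.toMeasurePreserving.map_eq]
    · exact (MeasurePreserving.mk hf rfl).preErgodic_of_preErgodic_semiconj hwE.toPreErgodic
        (fun y => congrFun hc y)
  obtain ⟨s, hs⟩ := perg T hE hfin hpp hp (ρ.map Prod.fst) hf1
    (hfac _ measurable_fst _ (T.continuous.iterate p).measurable rfl)
  obtain ⟨s', hs'⟩ := perg T hE hfin hpp' hp' (ρ.map Prod.snd) hf2
    (hfac _ measurable_snd _ (T.continuous.iterate p').measurable rfl)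
  refine ⟨s, s', ρ, ⟨hρ1, hwE, hs, hs'⟩, fun ε hε => ?_⟩
  have h1 : ∀ᶠ M in atTop, a M < L + ε :=
    eventually_lt_of_limsup_lt (by rw [← hL]; linarith) hbu
  filter_upwards [h1] with M hM
  have h2 : L ≤ ‖∫ z : X × X, H z.1 * conj (H z.2) ∂ρ‖ := by
    rw [← hnorm]
    exact hw
  have h3 : ‖(M : ℂ)⁻¹ * ∑ m ∈ Finset.Icc 1 M,
          H ((⇑T)^[p * m] x) * conj (H ((⇑T)^[p' * m] x))‖ = a M := rfl
  rw [h3]
  linarith

end Pool.Agent.Smj
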