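import Pool.Agent.Smj.Defs
import Pool.Agent.Sar.K2c
import Pool.Agent.Sar.K3

/-!
Smj ERGC: ergodic decomposition.
-/

set_option autoImplicit false

namespace Pool.Agent.Smj

open MeasureTheory ProbabilityTheory Filter Topology Pool.Agent.Sar
open scoped ENNReal ComplexConjugate

section met

variable {Y : Type*} [MeasurableSpace Y] {ρ : Measure Y} [IsProbabilityMeasure ρ] {S : Y → Y}

/-- ergodic averages -/
private noncomputable def ergA (S : Y → Y) (v : Y → ℂ) (N : ℕ) (z : Y) : ℂ :=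
  (N : ℂ)⁻¹ * ∑ n ∈ Finset.range N, v (S^[n] z)

private theorem erg_meas (hS : Measurable S) {v : Y → ℂ} (hv : BM v) (N : ℕ) :
    Measurable (ergA S v N) := by
  unfold ergA
  exact (Finset.measurable_sum _ fun n _ => hv.meas.comp (hS.iterate n)).const_mul _

private theorem erg_bdd {v : Y → ℂ} {C : ℝ} (hC : ∀ z, ‖v z‖ ≤ C) (hC0 : 0 ≤ C) (N : ℕ) (z : Y) :
    ‖ergA S v N z‖ ≤ C := by
  unfold ergA
  rw [norm_mul, norm_inv, Complex.norm_natCast]
  have h1 : ‖∑ n ∈ Finset.range N, v (S^[n] z)‖ ≤ N * C := by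
    refine (norm_sum_le _ _).trans ?_
    calc ∑ n ∈ Finset.range N, ‖v (S^[n] z)‖ ≤ ∑ _n ∈ Finset.range N, C :=
          Finset.sum_le_sum fun n _ => hC _
      _ = N * C := by rw [Finset.sum_const, Finset.card_range, nsmul_eq_mul]
  rcases Nat.eq_zero_or_pos N with h0 | h0
  · subst h0; simpa using hC0
  · have hN : (0 : ℝ) < N := by exact_mod_cast h0
    rw [inv_mul_le_iff₀ hN]
    exact h1

/-- the averages at `S z` and at `z` differ by `2C/N` -/
private theorem erg_shift {v : Y → ℂ} {C : ℝ} (hC : ∀ z, ‖v z‖ ≤ C) (N : ℕ) (z : Y) :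
    ‖ergA S v N (S z) - ergA S v N z‖ ≤ 2 * C / N := by
  unfold ergA
  rw [← mul_sub, norm_mul, norm_inv, Complex.norm_natCast]
  have h1 : ∑ n ∈ Finset.range N, v (S^[n] (S z)) - ∑ n ∈ Finset.range N, v (S^[n] z) =
      v (S^[N] z) - v z := by
    have h2 : ∀ n, v (S^[n] (S z)) = v (S^[n + 1] z) := fun n => by
      rw [Function.iterate_succ_apply]
    simp only [h2]
    have h3 := Finset.sum_range_succ (fun n => v (S^[n] z)) N
    have h4 := Finset.sum_range_succ' (fun n => v (S^[n] z)) N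
    rw [h3] at h4
    simp only [Function.iterate_zero, id_eq] at h4
    linear_combination -h4
  rw [h1, div_eq_inv_mul]
  refine mul_le_mul_of_nonneg_left ?_ (by positivity)
  refine (norm_sub_le _ _).trans ?_
  linarith [hC (S^[N] z), hC z]

/-- the ergodic theorem along a subsequence, with a strictly invariant limit -/
private theorem erg_met (hS : MeasurePreserving S ρ ρ) {v : Y → ℂ} (hv : BM v) :
    ∃ ns : ℕ → ℕ, StrictMono ns ∧ ∃ g : Y → ℂ, BM g ∧ (∀ z, g (S z) = g z) ∧
      ∀ᵐ z ∂ρ, Tendsto (fun k => ergA S v (ns k) z) atTop (𝓝 (g z)) := by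
  classical
  obtain ⟨C, hC⟩ := hv.bdd
  have hne : Nonempty Y := ρ.nonempty_of_neZero
  have hC0 : 0 ≤ C := (norm_nonneg _).trans (hC (Classical.arbitrary Y))
  have hvL : MemLp v 2 ρ := K3_memLp hv.meas hv.bdd
  have hvn : ∀ n, MemLp (fun x => v (S^[n] x)) 2 ρ := fun n =>
    hvL.comp_measurePreserving (hS.iterate n)
  set U : Lp ℂ 2 ρ →ₗᵢ[ℂ] Lp ℂ 2 ρ := Lp.compMeasurePreservingₗᵢ ℂ S hS with hU
  have hUn : ∀ n, U^[n] (hvL.toLp v) = (hvn n).toLp (fun x => v (S^[n] x)) := fun n =>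
    K3_iter hS hvL n (hvn n)
  obtain ⟨W, hW⟩ : ∃ W : Lp ℂ 2 ρ →L[ℂ] Lp ℂ 2 ρ, ∀ f, W f = U f :=
    ⟨U.toContinuousLinearMap, fun f => rfl⟩
  have hW1 : ‖W‖ ≤ 1 := by
    refine W.opNorm_le_bound zero_le_one fun f => ?_
    rw [hW, U.norm_map, one_mul]
  have hWn : ∀ n f, W^[n] f = U^[n] f := by
    intro n
    induction n with
    | zero => intro f; rfl
    | succ n ih => intro f; rw [Function.iterate_succ_apply', ih, hW, Function.iterate_succ_apply']
  set x0 : Lp ℂ 2 ρ := hvL.toLp v with hx0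
  have hconv := W.tendsto_birkhoffAverage_orthogonalProjection hW1 x0
  obtain ⟨g0, hg0⟩ : ∃ g0 : Lp ℂ 2 ρ,
      Tendsto (fun N => birkhoffAverage ℂ W _root_.id N x0) atTop (𝓝 g0) := ⟨_, hconv⟩
  have havg : ∀ N, ((birkhoffAverage ℂ W _root_.id N x0 : Lp ℂ 2 ρ) : Y → ℂ) =ᵐ[ρ] ergA S v N := by
    intro N
    have h1 : birkhoffAverage ℂ W _root_.id N x0 =
        (N : ℂ)⁻¹ • ∑ n ∈ Finset.range N, (hvn n).toLp (fun x => v (S^[n] x)) := by
      unfold birkhoffAverage birkhoffSum
      congr 1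
      refine Finset.sum_congr rfl fun n _ => ?_
      rw [← hUn n, ← hWn n]
      rfl
    rw [h1]
    have h2 := Lp.coeFn_smul ((N : ℂ)⁻¹) (∑ n ∈ Finset.range N, (hvn n).toLp (fun x => v (S^[n] x)))
    have h3 : (∑ n ∈ Finset.range N, (hvn n).toLp (fun x => v (S^[n] x)) : Lp ℂ 2 ρ) =ᵐ[ρ]
        fun x => ∑ n ∈ Finset.range N, v (S^[n] x) := by
      have h4 : ∀ M : ℕ, ((∑ n ∈ Finset.range M, (hvn n).toLp (fun x => v (S^[n] x)) : Lp ℂ 2 ρ) :
          Y → ℂ) =ᵐ[ρ] fun x => ∑ n ∈ Finset.range M, v (S^[n] x) := by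
        intro M
        induction M with
        | zero =>
          simp only [Finset.range_zero, Finset.sum_empty]
          exact Lp.coeFn_zero _ _ _
        | succ M ih =>
          simp only [Finset.sum_range_succ]
          filter_upwards [Lp.coeFn_add (∑ n ∈ Finset.range M, (hvn n).toLp (fun x => v (S^[n] x)))
            ((hvn M).toLp (fun x => v (S^[M] x))), ih, (hvn M).coeFn_toLp] with x e1 e2 e3
          rw [e1, Pi.add_apply, e2, e3]
      exact h4 N
    filter_upwards [h2, h3] with x e1 e2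
    rw [e1, Pi.smul_apply, e2]
    rfl
  have hmeas := tendstoInMeasure_of_tendsto_Lp hg0
  obtain ⟨ns, hns, hlim⟩ := hmeas.exists_seq_tendsto_ae
  have hlim' : ∀ᵐ z ∂ρ, ∃ c, Tendsto (fun k => ergA S v (ns k) z) atTop (𝓝 c) := by
    filter_upwards [hlim, ae_all_iff.2 havg] with z hz hz2
    refine ⟨(g0 : Y → ℂ) z, ?_⟩
    simp only [hz2] at hz
    exact hz
  set a : ℕ → Y → ℂ := fun k => ergA S v (ns k) with ha
  have ham : ∀ k, Measurable (a k) := fun k => erg_meas hS.measurable hv _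
  set D : Set Y := {z | ∃ c, Tendsto (fun k => a k z) atTop (𝓝 c)} with hD
  have hDm : MeasurableSet D := MeasureTheory.measurableSet_exists_tendsto ham
  -- invariance of the limits
  have hshift : ∀ z c, Tendsto (fun k => a k (S z)) atTop (𝓝 c) ↔
      Tendsto (fun k => a k z) atTop (𝓝 c) := by
    intro z c
    have h0 : Tendsto (fun k => a k (S z) - a k z) atTop (𝓝 0) := by
      refine squeeze_zero_norm (fun k => erg_shift hC (ns k) z) ?_
      have h1 : Tendsto (fun k => ((ns k : ℕ) : ℝ)) atTop atTop :=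
        tendsto_natCast_atTop_atTop.comp hns.tendsto_atTop
      exact Tendsto.div_atTop tendsto_const_nhds h1
    constructor
    · intro h
      have := h.sub h0
      simpa using this
    · intro h
      have := h.add h0
      simpa using this
  have hDS : ∀ z, S z ∈ D ↔ z ∈ D := fun z => by
    simp only [hD, Set.mem_setOf_eq, hshift]
  set g : Y → ℂ := fun z => if h : z ∈ D then h.choose else 0 with hg
  have hgt : ∀ z, z ∈ D → Tendsto (fun k => a k z) atTop (𝓝 (g z)) := fun z hz => by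
    rw [hg]
    simp only [dif_pos hz]
    exact hz.choose_spec
  have hg0' : ∀ z, z ∉ D → g z = 0 := fun z hz => by
    rw [hg]; simp only [dif_neg hz]
  have hgm : Measurable g := by
    have h1 : ∀ k, Measurable (D.indicator (a k)) := fun k => (ham k).indicator hDm
    refine measurable_of_tendsto_metrizable h1 ?_
    rw [tendsto_pi_nhds]
    intro z
    by_cases hz : z ∈ D
    · simp only [Set.indicator_of_mem hz]
      exact hgt z hz
    · simp only [Set.indicator_of_notMem hz, hg0' z hz]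
      exact tendsto_const_nhds
  refine ⟨ns, hns, g, ⟨hgm, C, fun z => ?_⟩, fun z => ?_, ?_⟩
  · by_cases hz : z ∈ D
    · exact le_of_tendsto (hgt z hz).norm (Eventually.of_forall fun k => erg_bdd hC hC0 _ _)
    · rw [hg0' z hz, norm_zero]; exact hC0
  · by_cases hz : z ∈ D
    · have h1 := hgt (S z) ((hDS z).2 hz)
      rw [hshift] at h1
      exact tendsto_nhds_unique h1 (hgt z hz)
    · rw [hg0' z hz, hg0' (S z) (fun h => hz ((hDS z).1 h))]
  · filter_upwards [hlim'] with z hz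
    exact hgt z hz

/-- integration of the averages against invariant functions -/
private theorem erg_lim {κ : Measure Y} [IsProbabilityMeasure κ] (hS : MeasurePreserving S κ κ)
    {v g E : Y → ℂ} (hv : BM v) (hE : BM E) (hi : ∀ z, E (S z) = E z)
    {ns : ℕ → ℕ} (hns : StrictMono ns)
    (hg : ∀ᵐ z ∂κ, Tendsto (fun k => ergA S v (ns k) z) atTop (𝓝 (g z))) :
    ∫ z, v z * E z ∂κ = ∫ z, g z * E z ∂κ := by
  have hne : Nonempty Y := κ.nonempty_of_neZero
  obtain ⟨C, hC⟩ := hv.bdd
  obtain ⟨D, hD⟩ := hE.bdd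
  have hC0 : 0 ≤ C := (norm_nonneg _).trans (hC (Classical.arbitrary Y))
  have hin : ∀ n z, E (S^[n] z) = E z := by
    intro n
    induction n with
    | zero => intro z; rfl
    | succ n ih => intro z; rw [Function.iterate_succ_apply, ih, hi]
  have h1 : ∀ n, ∫ z, v (S^[n] z) * E z ∂κ = ∫ z, v z * E z ∂κ := fun n => by
    have h2 : ∀ z, v (S^[n] z) * E z = (fun y => v y * E y) (S^[n] z) := fun z => by
      simp only [hin]
    simp only [h2]
    have h3 := integral_map (μ := κ) (φ := S^[n]) (hS.iterate n).measurable.aemeasurable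
      (f := fun y => v y * E y) (K2b_mul hv hE).meas.aestronglyMeasurable
    rw [(hS.iterate n).map_eq] at h3
    exact h3.symm
  have h2 : ∀ N, 1 ≤ N → ∫ z, ergA S v N z * E z ∂κ = ∫ z, v z * E z ∂κ := by
    intro N hN
    have hN0 : (N : ℂ) ≠ 0 := by exact_mod_cast (by omega : N ≠ 0)
    unfold ergA
    have h3 : ∀ z, (N : ℂ)⁻¹ * (∑ n ∈ Finset.range N, v (S^[n] z)) * E z =
        (N : ℂ)⁻¹ * ∑ n ∈ Finset.range N, v (S^[n] z) * E z := fun z => by
      rw [mul_assoc, Finset.sum_mul]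
    simp only [h3]
    rw [integral_const_mul, integral_finsetSum _ (fun n _ => ?_)]
    · simp only [h1]
      rw [Finset.sum_const, Finset.card_range, nsmul_eq_mul, ← mul_assoc, inv_mul_cancel₀ hN0,
        one_mul]
    · have hb : BM (fun z => v (S^[n] z)) := ⟨hv.meas.comp (hS.measurable.iterate n), C,
        fun z => hC _⟩
      exact K2b_int (K2b_mul hb hE)
  have h3 : Tendsto (fun k => ∫ z, ergA S v (ns k) z * E z ∂κ) atTop (𝓝 (∫ z, g z * E z ∂κ)) := by
    refine tendsto_integral_of_dominated_convergence (fun _ => C * D) ?_ (integrable_const _) ?_ ?_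
    · intro k
      exact ((erg_meas hS.measurable hv _).mul hE.meas).aestronglyMeasurable
    · intro k
      refine Eventually.of_forall fun z => ?_
      rw [norm_mul]
      exact mul_le_mul (erg_bdd hC hC0 _ _) (hD z) (norm_nonneg _) hC0
    · filter_upwards [hg] with z hz
      exact hz.mul_const _
  have h4 : Tendsto (fun k => ∫ z, ergA S v (ns k) z * E z ∂κ) atTop (𝓝 (∫ z, v z * E z ∂κ)) := by
    refine tendsto_const_nhds.congr' ?_
    filter_upwards [eventually_ge_atTop 1] with k hk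
    exact (h2 (ns k) (hk.trans hns.le_apply)).symm
  exact tendsto_nhds_unique h4 h3

end met

variable {Y : Type*} [MeasurableSpace Y] [StandardBorelSpace Y] [Nonempty Y]
  {ρ : Measure Y} [IsProbabilityMeasure ρ] {S : Y → Y}

instance (w : Y) : IsProbabilityMeasure (EC ρ S w) := by
  unfold EC
  infer_instance

private theorem erg_le (S : Y → Y) : MeasurableSpace.invariants S ≤
    (inferInstance : MeasurableSpace Y) :=
  MeasurableSpace.invariants_le _

private theorem erg_ce {φ : Y → ℂ} (hφ : BM φ) :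
    ρ[φ | MeasurableSpace.invariants S] =ᵐ[ρ] fun w => ∫ z, φ z ∂(EC ρ S w) :=
  condExp_ae_eq_integral_condExpKernel (erg_le S) (K2b_int hφ)

/-- integration of the disintegration (compare `Pool.Agent.Ef.Om_int`) -/
theorem EC_int (hS : Measurable S) {φ : Y → ℂ} (hφ : BM φ) :
    ∫ w, ∫ z, φ z ∂(EC ρ S w) ∂ρ = ∫ z, φ z ∂ρ := by
  rw [← integral_congr_ae (erg_ce (ρ := ρ) (S := S) hφ), integral_condExp (erg_le S)]

private theorem erg_meas_int {φ : Y → ℂ} (hφ : BM φ) :
    Measurable[MeasurableSpace.invariants S] fun w => ∫ z, φ z ∂(EC ρ S w) :=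
  (hφ.meas.stronglyMeasurable.integral_condExpKernel (μ := ρ)
      (m := MeasurableSpace.invariants S)).measurable

private theorem erg_int_BM {φ : Y → ℂ} (hφ : BM φ) : BM fun w => ∫ z, φ z ∂(EC ρ S w) := by
  obtain ⟨C, hC⟩ := hφ.bdd
  refine ⟨(erg_meas_int hφ).mono (erg_le S) le_rfl, C, fun w => ?_⟩
  have h := norm_integral_le_of_norm_le_const (μ := EC ρ S w) (f := φ) (C := C) (ae_of_all _ hC)
  simpa using h

/-- a component with at least the average: `‖∫ φ dρ‖ ≤ ∫ ‖∫ φ d(EC w)‖ dρ(w)`, so if `P` holds for almost all `w` some `w` with `P w` has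
`‖∫ φ dρ‖ ≤ ‖∫ φ d(EC w)‖`. -/
theorem EC_exists (hS : Measurable S) {φ : Y → ℂ} (hφ : BM φ) {P : Y → Prop} (hP : ∀ᵐ w ∂ρ, P w) :
    ∃ w, P w ∧ ‖∫ z, φ z ∂ρ‖ ≤ ‖∫ z, φ z ∂(EC ρ S w)‖ := by
  have hB := erg_int_BM (ρ := ρ) (S := S) hφ
  obtain ⟨w, hw, hle⟩ := exists_notMem_null_integral_le (μ := ρ)
    (f := fun w => ‖∫ z, φ z ∂(EC ρ S w)‖) (K2b_int hB).norm (N := {w | ¬ P w}) hP
  refine ⟨w, not_not.1 hw, ?_⟩
  refine le_trans ?_ hle
  rw [← EC_int (ρ := ρ) hS hφ]
  exact norm_integral_le_integral_norm _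

private theorem erg_im {E : Y → ℂ} (hE : Measurable E) (hi : ∀ z, E (S z) = E z) :
    Measurable[MeasurableSpace.invariants S] E := by
  rw [MeasurableSpace.measurable_invariants_dom]
  refine ⟨hE, fun s _ => ?_⟩
  ext z
  simp only [Set.mem_preimage, Function.comp_apply, hi]

/-- pulling out an exactly invariant function -/
private theorem erg_mul {φ E : Y → ℂ} (hφ : BM φ) (hE : BM E) (hi : ∀ z, E (S z) = E z) :
    ∫ w, (∫ z, φ z ∂(EC ρ S w)) * E w ∂ρ = ∫ z, φ z * E z ∂ρ := by
  have hm := erg_im (S := S) hE.meas hi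
  have h1 : ρ[fun x => φ x * E x | MeasurableSpace.invariants S]
      =ᵐ[ρ] fun x => (ρ[φ | MeasurableSpace.invariants S]) x * E x :=
    condExp_bilin_of_stronglyMeasurable_right (ContinuousLinearMap.mul ℝ ℂ)
      hm.stronglyMeasurable (K2b_int (K2b_mul hφ hE)) (K2b_int hφ)
  have h2 : (fun x => (ρ[φ | MeasurableSpace.invariants S]) x * E x)
      =ᵐ[ρ] fun w => (∫ z, φ z ∂(EC ρ S w)) * E w := by
    filter_upwards [erg_ce (ρ := ρ) (S := S) hφ] with x hx
    rw [hx]
  rw [← integral_congr_ae (h1.trans h2), integral_condExp (erg_le S)]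

private theorem erg_zero {φ : Y → ℂ} (hφ : BM φ)
    (h : ∀ E : Y → ℂ, BM E → (∀ z, E (S z) = E z) → ∫ z, φ z * E z ∂ρ = 0) :
    ∀ᵐ w ∂ρ, ∫ z, φ z ∂(EC ρ S w) = 0 := by
  set u : Y → ℂ := fun w => ∫ z, φ z ∂(EC ρ S w) with hu
  have hm : Measurable[MeasurableSpace.invariants S] u := erg_meas_int hφ
  have huB : BM u := erg_int_BM hφ
  have hinv : ∀ z, u (S z) = u z := fun z =>
    congrFun (MeasurableSpace.comp_eq_of_measurable_invariants hm) z
  have hcB : BM (fun z => conj (u z)) := K2b_conj huB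
  have h1 := erg_mul (ρ := ρ) (S := S) hφ hcB (fun z => by simp only [hinv])
  rw [h _ hcB (fun z => by simp only [hinv])] at h1
  exact K2b_zero huB h1

private theorem erg_eq {φ ψ : Y → ℂ} (hφ : BM φ) (hψ : BM ψ)
    (h : ∀ E : Y → ℂ, BM E → (∀ z, E (S z) = E z) →
      ∫ z, φ z * E z ∂ρ = ∫ z, ψ z * E z ∂ρ) :
    ∀ᵐ w ∂ρ, ∫ z, φ z ∂(EC ρ S w) = ∫ z, ψ z ∂(EC ρ S w) := by
  have h1 := erg_zero (ρ := ρ) (S := S) (K2b_sub hφ hψ) (fun E hE hi => by
    have h2 : ∀ z, (φ z - ψ z) * E z = φ z * E z - ψ z * E z := fun z => by ring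
    simp only [h2]
    rw [integral_sub (K2b_int (K2b_mul hφ hE)) (K2b_int (K2b_mul hψ hE)), h E hE hi, sub_self])
  filter_upwards [h1] with w hw
  rw [integral_sub (K2b_int hφ) (K2b_int hψ)] at hw
  exact sub_eq_zero.mp hw

private theorem erg_ind {κ : Measure Y} {B : Set Y} (hB : MeasurableSet B) :
    ∫ z, K2c_i B z ∂κ = ((κ.real B : ℝ) : ℂ) := by
  unfold K2c_i
  rw [integral_indicator_const _ hB]
  simp

/-- almost every component is invariant -/
private theorem erg_inv (hS : MeasurePreserving S ρ ρ) :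
    ∀ᵐ w ∂ρ, (EC ρ S w).map S = EC ρ S w := by
  have h1 : ∀ q : ℚ, ∀ᵐ w ∂ρ,
      ((EC ρ S w).map S).real (K2c_B Y q) = (EC ρ S w).real (K2c_B Y q) := by
    intro q
    have hB := K2c_meas (X := Y) q
    have hφ := K2c_i_BM hB
    have hφS := K2c_i_BM (hS.measurable hB)
    have h2 := erg_eq (ρ := ρ) (S := S) hφS hφ (fun E hE hi => by
      have h3 : ∀ z, K2c_i (S ⁻¹' K2c_B Y q) z * E z =
          (fun z => K2c_i (K2c_B Y q) z * E z) (S z) := fun z => by
        simp only [hi]
        rfl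
      simp only [h3]
      have h4 := integral_map (μ := ρ) (φ := S) hS.measurable.aemeasurable
        (f := fun z => K2c_i (K2c_B Y q) z * E z)
        (K2b_mul hφ hE).meas.aestronglyMeasurable
      rw [hS.map_eq] at h4
      exact h4.symm)
    filter_upwards [h2] with w hw
    rw [erg_ind (hS.measurable hB), erg_ind hB] at hw
    have h5 := Complex.ofReal_injective hw
    rw [← h5, measureReal_def, measureReal_def, Measure.map_apply hS.measurable hB]
  filter_upwards [ae_all_iff.mpr h1] with w hw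
  have hp : IsProbabilityMeasure ((EC ρ S w).map S) :=
    Measure.isProbabilityMeasure_map hS.measurable.aemeasurable
  exact K2c_ext hw

/-- null sets -/
private theorem erg_null {P : Y → Prop} (h : ∀ᵐ z ∂ρ, P z) :
    ∀ᵐ w ∂ρ, ∀ᵐ z ∂(EC ρ S w), P z := by
  obtain ⟨N, hN, hNm, hN0⟩ : ∃ N : Set Y, {z | ¬ P z} ⊆ N ∧ MeasurableSet N ∧ ρ N = 0 :=
    exists_measurable_superset_of_null h
  have h1 := erg_zero (ρ := ρ) (S := S) (K2c_i_BM hNm) (fun E hE hi => by
    have h2 : ∀ᵐ z ∂ρ, K2c_i N z * E z = 0 := by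
      have h3 : ∀ᵐ z ∂ρ, z ∉ N := measure_eq_zero_iff_ae_notMem.1 hN0
      filter_upwards [h3] with z hz
      unfold K2c_i
      rw [Set.indicator_of_notMem hz, zero_mul]
    rw [integral_congr_ae h2]
    simp)
  filter_upwards [h1] with w hw
  rw [erg_ind hNm] at hw
  have h5 : (EC ρ S w).real N = 0 := by exact_mod_cast hw
  have h6 : EC ρ S w N = 0 := by
    rw [measureReal_def, ENNReal.toReal_eq_zero_iff] at h5
    exact h5.resolve_right (measure_ne_top _ _)
  exact measure_mono_null hN h6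

/-- invariant functions are constant on the components -/
private theorem erg_const {u : Y → ℂ} (hu : BM u) (hi : ∀ z, u (S z) = u z) :
    ∀ᵐ w ∂ρ, ∀ᵐ z ∂(EC ρ S w), u z = u w := by
  have hself : ∀ {f : Y → ℂ}, BM f → (∀ z, f (S z) = f z) →
      ∀ᵐ w ∂ρ, ∫ z, f z ∂(EC ρ S w) = f w := by
    intro f hf hfi
    have h1 := condExp_of_stronglyMeasurable (μ := ρ) (erg_le S)
      (erg_im (S := S) hf.meas hfi).stronglyMeasurable (K2b_int hf)
    filter_upwards [erg_ce (ρ := ρ) (S := S) hf] with w hw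
    rw [← hw, h1]
  have hcB := K2b_conj hu
  have h2B := K2b_mul hu hcB
  filter_upwards [hself hu hi, hself h2B (fun z => by simp only [hi])] with w e1 e2
  set κ := EC ρ S w with hκ
  have e3 : ∫ s, conj (u s) ∂κ = conj (u w) := by rw [integral_conj, e1]
  have hdB : BM (fun s => u s - u w) := K2b_sub hu ⟨measurable_const, ‖u w‖, fun _ => le_rfl⟩
  have e4 : ∫ s, (u s - u w) * conj (u s - u w) ∂κ = 0 := by
    have h5 : ∀ s, (u s - u w) * conj (u s - u w) =
        (u s * conj (u s) - u s * conj (u w)) - (u w * conj (u s) - u w * conj (u w)) := by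
      intro s
      rw [map_sub]
      ring
    simp only [h5]
    have i1 : Integrable (fun s => u s * conj (u s)) κ := K2b_int h2B
    have i2 : Integrable (fun s => u s * conj (u w)) κ := (K2b_int hu).mul_const _
    have i3 : Integrable (fun s => u w * conj (u s)) κ := (K2b_int hcB).const_mul _
    have i4 : Integrable (fun _ : Y => u w * conj (u w)) κ := integrable_const _
    have i5 : Integrable (fun s => u s * conj (u s) - u s * conj (u w)) κ := i1.sub i2
    have i6 : Integrable (fun s => u w * conj (u s) - u w * conj (u w)) κ := i3.sub i4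
    rw [integral_sub i5 i6, integral_sub i1 i2, integral_sub i3 i4, integral_mul_const,
      integral_const_mul, e1, e2, e3]
    simp
  have h6 := K2b_zero hdB e4
  filter_upwards [h6] with s hs
  exact sub_eq_zero.1 hs

/-- Almost all components are ergodic. (1) a.e. component is `S`-invariant (compare `Pool.Agent.Ef.Om_inv`; countable generating algebra). (2) For `A` in a countable algebra generating the Borel sets, `A_N = (1/N) ∑_{n<N} 1_A ∘ S^n → E(1_A | I)` in `L²(ρ)`
(mean ergodic theorem), so along a subsequence `∫ |A_{N_k} - E(1_A|I)|² d(EC w) → 0` for a.e. `w` (diagonal subsequence for all `A`), and `E(1_A|I)(z) = (EC z)(A) = (EC w)(A)` for `EC w`-a.e. `z`, a.e. `w` (invariant functions are constant on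
the fibres, compare `Pool.Agent.Sar.kap_fib`). (3) For such `w` and an `S`-invariant set `B` choose `A` with `(EC w)(A Δ B) ≤ ε`: `‖1_B - (EC w)(A)‖_{L²(EC w)} ≤ lim ‖(1/N)∑ (1_B - 1_A)∘S^n‖ ≤ √ε`, so `1_B` is constant a.e. -/
theorem EC_erg (hS : MeasurePreserving S ρ ρ) : ∀ᵐ w ∂ρ, Ergodic S (EC ρ S w) := by
  have hmet := fun q : ℚ => erg_met hS (K2c_i_BM (K2c_meas (X := Y) q))
  choose ns hns g hgB hgi hgt using hmet
  have h1 : ∀ᵐ w ∂ρ, ∀ q : ℚ, ∀ᵐ z ∂(EC ρ S w),
      Tendsto (fun k => ergA S (K2c_i (K2c_B Y q)) (ns q k) z) atTop (𝓝 (g q z)) :=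
    ae_all_iff.2 fun q => erg_null (hgt q)
  have h2 : ∀ᵐ w ∂ρ, ∀ q : ℚ, ∀ᵐ z ∂(EC ρ S w), g q z = g q w :=
    ae_all_iff.2 fun q => erg_const (hgB q) (hgi q)
  filter_upwards [h1, h2, erg_inv hS] with w hw1 hw2 hw3
  set κ := EC ρ S w with hκ
  have hSκ : MeasurePreserving S κ κ := ⟨hS.measurable, hw3⟩
  refine ⟨hSκ, ⟨fun {B} hB hBi => ?_⟩⟩
  -- `κ (A ∩ B) = g w * κ B`
  have hBB := K2c_i_BM hB
  have hBi' : ∀ z, K2c_i B (S z) = K2c_i B z := fun z => by
    have : K2c_i B (S z) = K2c_i (S ⁻¹' B) z := rfl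
    rw [this, hBi]
  have key : ∀ (q : ℚ) (E : Y → ℂ), BM E → (∀ z, E (S z) = E z) →
      ∫ z, K2c_i (K2c_B Y q) z * E z ∂κ = g q w * ∫ z, E z ∂κ := by
    intro q E hE hi
    rw [erg_lim hSκ (K2c_i_BM (K2c_meas (X := Y) q)) hE hi (hns q) (hw1 q)]
    rw [← integral_const_mul]
    refine integral_congr_ae ?_
    filter_upwards [hw2 q] with z hz
    rw [hz]
  have hone : BM (fun _ : Y => (1 : ℂ)) := ⟨measurable_const, 1, fun _ => by simp⟩
  have hprod : ∀ q : ℚ, κ.real (K2c_B Y q ∩ B) = κ.real (K2c_B Y q) * κ.real B := by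
    intro q
    have e1 := key q (K2c_i B) hBB hBi'
    have e2 := key q (fun _ => 1) hone (fun _ => rfl)
    have e3 : ∀ z, K2c_i (K2c_B Y q) z * K2c_i B z = K2c_i (K2c_B Y q ∩ B) z := fun z => by
      unfold K2c_i
      by_cases h1 : z ∈ K2c_B Y q <;> by_cases h2 : z ∈ B <;> simp [h1, h2, Set.indicator]
    simp only [e3] at e1
    rw [erg_ind ((K2c_meas q).inter hB), erg_ind hB] at e1
    simp only [mul_one] at e2
    rw [erg_ind (K2c_meas q)] at e2
    have e4 : ∫ _z : Y, (1 : ℂ) ∂κ = 1 := by simp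
    rw [e4, mul_one] at e2
    rw [← e2] at e1
    exact_mod_cast e1
  by_cases h0 : κ B = 0
  · refine Filter.eventuallyConst_set'.2 (Or.inl ?_)
    exact (ae_eq_empty.2 h0)
  · have hpc : IsProbabilityMeasure (κ[|B]) := cond_isProbabilityMeasure h0
    have hr0 : κ.real B ≠ 0 := by
      rw [measureReal_def, Ne, ENNReal.toReal_eq_zero_iff, not_or]
      exact ⟨h0, measure_ne_top _ _⟩
    have heq : κ[|B] = κ := by
      refine K2c_ext fun q => ?_
      rw [measureReal_def, cond_apply hB, ENNReal.toReal_mul, ENNReal.toReal_inv,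
        ← measureReal_def, ← measureReal_def, Set.inter_comm, hprod q]
      field_simp
    have hcompl : κ Bᶜ = 0 := by
      rw [← heq, cond_apply hB, Set.inter_compl_self, measure_empty, mul_zero]
    refine Filter.eventuallyConst_set'.2 (Or.inr ?_)
    exact ae_eq_univ.2 hcompl

/-- Marginals of the components: if the factor is ergodic they do not change. For a bounded invariant `E ≥ 0` the measure `f_*(E ρ)` is `S'`-invariant and `≤ C f_*ρ`, its density is invariant, hence constant: `∫ u(f z) E(z) dρ = (∫ E dρ) ∫ u d(f_*ρ)`. So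
`∫ u∘f d(EC w) = ∫ u d(f_*ρ)` for a.e. `w`, for countably many `u` (a generating pi-system). -/
theorem EC_marg {Z : Type*} [MeasurableSpace Z] [StandardBorelSpace Z] [Nonempty Z] {S' : Z → Z}
    {f : Y → Z} (hS : MeasurePreserving S ρ ρ) (hf : Measurable f) (hc : ∀ y, f (S y) = S' (f y))
    (hE : Ergodic S' (ρ.map f)) : ∀ᵐ w ∂ρ, (EC ρ S w).map f = ρ.map f := by
  have hpf : IsProbabilityMeasure (ρ.map f) := Measure.isProbabilityMeasure_map hf.aemeasurable
  have hcn : ∀ n y, f (S^[n] y) = S'^[n] (f y) := by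
    intro n
    induction n with
    | zero => intro y; rfl
    | succ n ih => intro y; rw [Function.iterate_succ_apply, ih, hc, Function.iterate_succ_apply]
  have h1 : ∀ q : ℚ, ∀ᵐ w ∂ρ,
      ((EC ρ S w).map f).real (K2c_B Z q) = (ρ.map f).real (K2c_B Z q) := by
    intro q
    have hB := K2c_meas (X := Z) q
    have hφ := K2c_i_BM hB
    have hφf : BM (fun y => K2c_i (K2c_B Z q) (f y)) := K2c_i_BM (hf hB)
    obtain ⟨ns, hns, g, hgB, hgi, hgt⟩ := erg_met hE.toMeasurePreserving hφ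
    obtain ⟨c, hcg⟩ : ∃ c : ℂ, g =ᵐ[ρ.map f] fun _ => c :=
      hE.quasiErgodic.ae_eq_const_of_ae_eq_comp₀ hgB.meas.nullMeasurable (ae_of_all _ hgi)
    have hA : ∀ N y, ergA S (fun y => K2c_i (K2c_B Z q) (f y)) N y =
        ergA S' (K2c_i (K2c_B Z q)) N (f y) := fun N y => by
      unfold ergA
      simp only [hcn]
    have hconv : ∀ᵐ y ∂ρ, Tendsto
        (fun k => ergA S (fun y => K2c_i (K2c_B Z q) (f y)) (ns k) y) atTop (𝓝 c) := by
      have h2 : ∀ᵐ z ∂(ρ.map f), Tendsto (fun k => ergA S' (K2c_i (K2c_B Z q)) (ns k) z)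
          atTop (𝓝 c) := by
        filter_upwards [hgt, hcg] with z hz1 hz2
        rw [← hz2]
        exact hz1
      have h3 := ae_of_ae_map hf.aemeasurable h2
      filter_upwards [h3] with y hy
      simp only [hA]
      exact hy
    have hfac : ∀ E : Y → ℂ, BM E → (∀ z, E (S z) = E z) →
        ∫ z, K2c_i (K2c_B Z q) (f z) * E z ∂ρ = c * ∫ z, E z ∂ρ := by
      intro E hE' hi
      rw [erg_lim hS hφf hE' hi hns (g := fun _ => c) hconv, integral_const_mul]
    have hone : BM (fun _ : Y => (1 : ℂ)) := ⟨measurable_const, 1, fun _ => by simp⟩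
    have hc1 : c = (((ρ.map f).real (K2c_B Z q) : ℝ) : ℂ) := by
      have h2 := hfac (fun _ => 1) hone (fun _ => rfl)
      simp only [mul_one, integral_const, probReal_univ, one_smul] at h2
      rw [← h2]
      have h3 := erg_ind (κ := ρ) (hf hB)
      have h4 : ∫ z, K2c_i (K2c_B Z q) (f z) ∂ρ = ∫ z, K2c_i (f ⁻¹' K2c_B Z q) z ∂ρ := rfl
      rw [h4, h3, measureReal_def, measureReal_def, Measure.map_apply hf hB]
    have hcst : BM (fun _ : Y => c) := ⟨measurable_const, _, fun _ => le_rfl⟩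
    have h2 := erg_eq (ρ := ρ) (S := S) hφf hcst (fun E hE' hi => by
      rw [hfac E hE' hi, integral_const_mul])
    filter_upwards [h2] with w hw
    have h4 : ∫ z, K2c_i (K2c_B Z q) (f z) ∂(EC ρ S w) =
        ∫ z, K2c_i (f ⁻¹' K2c_B Z q) z ∂(EC ρ S w) := rfl
    rw [h4, erg_ind (hf hB)] at hw
    simp only [integral_const, probReal_univ, one_smul] at hw
    rw [hc1] at hw
    have h5 := Complex.ofReal_injective hw
    rw [← h5, measureReal_def, measureReal_def, Measure.map_apply hf hB]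
  filter_upwards [ae_all_iff.mpr h1] with w hw
  have hpr : IsProbabilityMeasure ((EC ρ S w).map f) :=
    Measure.isProbabilityMeasure_map hf.aemeasurable
  exact K2c_ext hw

end Pool.Agent.Smj
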