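import Pool.Agent.Smj.ErgC

/-!
Smj EXJ: existence of ergodic joinings.
-/

set_option autoImplicit false

namespace Pool.Agent.Smj

open MeasureTheory ProbabilityTheory Filter Topology Pool.Agent.Sar
open scoped ENNReal ComplexConjugate

/-- a component of the product measure (`EC_erg`, `EC_marg` for both projections) -/
theorem exists_join {X Y : Type*} [MeasurableSpace X] [StandardBorelSpace X] [Nonempty X]
    [MeasurableSpace Y] [StandardBorelSpace Y] [Nonempty Y] {μ : Measure X} {μ' : Measure Y}
    [IsProbabilityMeasure μ] [IsProbabilityMeasure μ'] {S : X → X} {S' : Y → Y}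
    (h : Ergodic S μ) (h' : Ergodic S' μ') : ∃ ρ : Measure (X × Y), EJ S S' μ μ' ρ := by
  have hfst : (μ.prod μ').map Prod.fst = μ := by
    rw [Measure.map_fst_prod, measure_univ, one_smul]
  have hsnd : (μ.prod μ').map Prod.snd = μ' := by
    rw [Measure.map_snd_prod, measure_univ, one_smul]
  have hmp : MeasurePreserving (Prod.map S S') (μ.prod μ') (μ.prod μ') :=
    h.toMeasurePreserving.prod h'.toMeasurePreserving
  have h1 := EC_erg hmp
  have h2 := EC_marg (ρ := μ.prod μ') (S' := S) (f := Prod.fst) hmp measurable_fst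
    (fun _ => rfl) (by rw [hfst]; exact h)
  have h3 := EC_marg (ρ := μ.prod μ') (S' := S') (f := Prod.snd) hmp measurable_snd
    (fun _ => rfl) (by rw [hsnd]; exact h')
  obtain ⟨w, hw1, hw2, hw3⟩ := (h1.and (h2.and h3)).exists
  exact ⟨EC (μ.prod μ') (Prod.map S S') w, inferInstance, hw1, hw2.trans hfst, hw3.trans hsnd⟩

end Pool.Agent.Smj
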