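import Pool.Agent.Smj.VN
import Pool.Agent.Sar.K2b

/-!
Smj STRL: the structured part approximates the projection to the Kronecker factor for all measures at once.
-/

set_option autoImplicit false

namespace Pool.Agent.Smj

open MeasureTheory ProbabilityTheory Filter Topology Pool.Agent.Sar
open scoped ENNReal ComplexConjugate

section aux

variable {X : Type*} [mX : MeasurableSpace X]

private theorem StrL_sq_int {κ : Measure X} [IsFiniteMeasure κ] {v : X → ℂ} (hv : BM v) :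
    Integrable (fun x => ‖v x‖ ^ 2) κ := by
  obtain ⟨C, hC⟩ := hv.bdd
  refine Integrable.of_bound (hv.meas.norm.pow_const 2).aestronglyMeasurable (C ^ 2)
    (ae_of_all _ fun x => ?_)
  rw [norm_pow, norm_norm]
  exact pow_le_pow_left₀ (norm_nonneg _) (hC x) 2

private theorem StrL_sum {ι' : Type*} (s : Finset ι') {v : ι' → X → ℂ} (hv : ∀ i ∈ s, BM (v i)) :
    BM (fun x => ∑ i ∈ s, v i x) := by
  classical
  induction s using Finset.induction_on with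
  | empty => simpa using (⟨measurable_const, 0, fun x => by simp⟩ : BM (fun _ : X => (0 : ℂ)))
  | insert a s ha ih =>
    obtain ⟨h1, C, hC⟩ := hv a (Finset.mem_insert_self a s)
    obtain ⟨h2, D, hD⟩ := ih fun i hi => hv i (Finset.mem_insert_of_mem hi)
    simp only [Finset.sum_insert ha]
    exact ⟨h1.add h2, C + D, fun x => (norm_add_le _ _).trans (add_le_add (hC x) (hD x))⟩

private theorem StrL_const (c : ℂ) : BM (fun _ : X => c) := ⟨measurable_const, ‖c‖, fun _ => le_rfl⟩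

private theorem StrL_comp {v : X → ℂ} (hv : BM v) {S : X → X} (hS : Measurable S) :
    BM (fun x => v (S x)) := ⟨hv.meas.comp hS, hv.bdd.imp fun _ h _ => h _⟩

private theorem StrL_card {ι' : Type*} (s : Finset ι') (z : ι' → ℂ) :
    ‖∑ i ∈ s, z i‖ ^ 2 ≤ (s.card : ℝ) * ∑ i ∈ s, ‖z i‖ ^ 2 := by
  refine (pow_le_pow_left₀ (norm_nonneg _) (norm_sum_le s z) 2).trans ?_
  exact sq_sum_le_card_mul_sum_sq

private theorem StrL_two (a b : ℂ) : ‖a - b‖ ^ 2 ≤ 2 * ‖a‖ ^ 2 + 2 * ‖b‖ ^ 2 := by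
  have h1 := norm_sub_le a b
  have h2 := norm_nonneg (a - b)
  nlinarith [sq_nonneg (‖a‖ - ‖b‖), norm_nonneg a, norm_nonneg b]

end aux

variable {X : Type*} [MetricSpace X] [CompactSpace X] [mX : MeasurableSpace X] [BorelSpace X]
  [Nonempty X] {ι : Type*} {ν : ι → Measure X} [∀ s, IsProbabilityMeasure (ν s)]

omit [Nonempty X] in
private theorem StrL_BM (g : C(X, ℂ)) : BM (fun x => g x) :=
  ⟨g.continuous.measurable, ‖g‖, fun x => g.norm_coe_le_norm x⟩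

/-- `Kr_dense` for `cex (ν s) T g` gives finite `L_s ⊂ EV (ν s)`; `L = ∪ L_s`. `Str T L H g → ∑_{l ∈ L ∩ EV(ν s)} fc g l · eg l` in `L²(ν s)` as `H → ∞` (`vn`), and `fc (cex g) l = fc g l` (`fc_cex`). -/
theorem str_l2 [Finite ι] (T : X ≃ₜ X) (hE : ∀ s, Ergodic T (ν s)) (g : C(X, ℂ)) {ε : ℝ}
    (hε : 0 < ε) : ∃ L : Finset ℂ, (∀ l ∈ L, ‖l‖ = 1) ∧ ∀ᶠ H : ℕ in atTop, ∀ s,
      ∫ x, ‖Str T L H g x - cex (ν s) T g x‖ ^ 2 ∂(ν s) ≤ ε := by
  classical
  let _ : Fintype ι := Fintype.ofFinite ι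
  have hg : BM (⇑g) := StrL_BM g
  have hgc : ∀ s, BM (cex (ν s) T g) := fun s => cex_BM hg
  have hK : ∀ s, ∃ L : Finset ℂ, (↑L ⊆ EV (ν s) T) ∧ ∀ L' : Finset ℂ, L ⊆ L' →
      (↑L' ⊆ EV (ν s) T) → ∫ x, ‖cex (ν s) T g x -
        ∑ l ∈ L', fc (ν s) T (cex (ν s) T g) l * eg (ν s) T l x‖ ^ 2 ∂(ν s) ≤ ε / 4 :=
    fun s => Kr_dense (hE s) (cex_Kr hg) (hgc s).bdd (by positivity)
  choose Ls hLs hLs' using hK
  obtain ⟨L, hLdef⟩ : ∃ L : Finset ℂ, L = Finset.univ.biUnion Ls := ⟨_, rfl⟩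
  have hL1 : ∀ l ∈ L, ‖l‖ = 1 := by
    intro l hl
    rw [hLdef, Finset.mem_biUnion] at hl
    obtain ⟨s, -, hs⟩ := hl
    exact EV_norm (hE s).toMeasurePreserving (hLs s (by exact_mod_cast hs))
  refine ⟨L, hL1, ?_⟩
  rw [Filter.eventually_all]
  intro s
  -- the limit
  obtain ⟨a, ha⟩ : ∃ a : ℕ → ℂ → X → ℂ, ∀ H l x, a H l x =
      (H : ℂ)⁻¹ * ∑ h ∈ Finset.Ioc 0 H, (conj l) ^ h * g ((⇑T)^[h] x) := ⟨_, fun _ _ _ => rfl⟩
  obtain ⟨b, hb⟩ : ∃ b : ℂ → X → ℂ, ∀ l x, b l x =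
      if l ∈ EV (ν s) T then fc (ν s) T g l * eg (ν s) T l x else 0 := ⟨_, fun _ _ => rfl⟩
  have haB : ∀ H l, BM (a H l) := by
    intro H l
    have h1 : BM (fun x => ∑ h ∈ Finset.Ioc 0 H, (conj l) ^ h * g ((⇑T)^[h] x)) :=
      StrL_sum _ fun h _ => K2b_mul (StrL_const _)
        (StrL_comp hg (T.continuous.measurable.iterate h))
    have h2 := K2b_mul (StrL_const (H : ℂ)⁻¹) h1
    have h3 : a H l = fun x => (H : ℂ)⁻¹ * ∑ h ∈ Finset.Ioc 0 H, (conj l) ^ h * g ((⇑T)^[h] x) :=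
      funext fun x => ha H l x
    rw [h3]
    exact h2
  have hbB : ∀ l, BM (b l) := by
    intro l
    have h3 : b l = fun x => if l ∈ EV (ν s) T then fc (ν s) T g l * eg (ν s) T l x else 0 :=
      funext fun x => hb l x
    rw [h3]
    by_cases h : l ∈ EV (ν s) T
    · simp only [if_pos h]
      exact K2b_mul (StrL_const _) (K2b_eg_BM l)
    · simp only [if_neg h]
      exact StrL_const 0
  have hlim : Tendsto (fun H : ℕ => (L.card : ℝ) * ∑ l ∈ L, ∫ x, ‖a H l x - b l x‖ ^ 2 ∂(ν s))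
      atTop (𝓝 0) := by
    have h0 : ((L.card : ℝ) * ∑ l ∈ L, (0 : ℝ)) = 0 := by simp
    rw [← h0]
    refine Tendsto.const_mul _ (tendsto_finsetSum _ fun l hl => ?_)
    have h1 := vn (hE s) hg (hL1 l hl)
    simp only [ha, hb]
    exact h1
  obtain ⟨L', hL'def⟩ : ∃ L' : Finset ℂ, L' = L.filter (fun l => l ∈ EV (ν s) T) := ⟨_, rfl⟩
  have hL's : (↑L' : Set ℂ) ⊆ EV (ν s) T := by
    intro l hl
    have hl' : l ∈ L' := by exact_mod_cast hl
    rw [hL'def, Finset.mem_filter] at hl'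
    exact hl'.2
  have hLL' : Ls s ⊆ L' := by
    intro l hl
    rw [hL'def, Finset.mem_filter, hLdef, Finset.mem_biUnion]
    exact ⟨⟨s, Finset.mem_univ s, hl⟩, hLs s (by exact_mod_cast hl)⟩
  have hd := hLs' s L' hLL' hL's
  obtain ⟨d, hdd⟩ : ∃ d : X → ℂ, ∀ x, d x = cex (ν s) T g x -
      ∑ l ∈ L', fc (ν s) T (cex (ν s) T g) l * eg (ν s) T l x := ⟨_, fun _ => rfl⟩
  have hdB : BM d := by
    have h3 : d = fun x => cex (ν s) T g x -
      ∑ l ∈ L', fc (ν s) T (cex (ν s) T g) l * eg (ν s) T l x := funext hdd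
    rw [h3]
    exact K2b_sub (hgc s) (StrL_sum _ fun l _ => K2b_mul (StrL_const _) (K2b_eg_BM l))
  simp only [← hdd] at hd
  have hsum : ∀ x, ∑ l ∈ L, b l x = cex (ν s) T g x - d x := by
    intro x
    rw [hdd, sub_sub_cancel, hL'def, Finset.sum_filter]
    refine Finset.sum_congr rfl fun l _ => ?_
    rw [hb]
    by_cases h : l ∈ EV (ν s) T
    · rw [if_pos h, if_pos h, fc_cex (hE s).toMeasurePreserving hg h]
    · rw [if_neg h, if_neg h]
  filter_upwards [hlim.eventually (gt_mem_nhds (show (0 : ℝ) < ε / 4 by positivity))] with H hH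
  have hpt : ∀ x, ‖Str T L H g x - cex (ν s) T g x‖ ^ 2 ≤
      2 * ((L.card : ℝ) * ∑ l ∈ L, ‖a H l x - b l x‖ ^ 2) + 2 * ‖d x‖ ^ 2 := by
    intro x
    have h1 : Str T L H g x - cex (ν s) T g x = (∑ l ∈ L, (a H l x - b l x)) - d x := by
      have h2 : Str T L H g x = ∑ l ∈ L, a H l x := by
        simp only [ha]
        rfl
      rw [h2, Finset.sum_sub_distrib, hsum]
      ring
    rw [h1]
    refine (StrL_two _ _).trans (add_le_add (mul_le_mul_of_nonneg_left (StrL_card _ _) zero_le_two)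
      le_rfl)
  have hi1 : ∀ l ∈ L, Integrable (fun x => ‖a H l x - b l x‖ ^ 2) (ν s) := fun l _ =>
    StrL_sq_int (K2b_sub (haB H l) (hbB l))
  have hi2 : Integrable (fun x => ∑ l ∈ L, ‖a H l x - b l x‖ ^ 2) (ν s) :=
    integrable_finsetSum _ hi1
  have hi3 := StrL_sq_int (κ := ν s) hdB
  have hi4 : Integrable (fun x => ‖Str T L H g x - cex (ν s) T g x‖ ^ 2) (ν s) :=
    StrL_sq_int (K2b_sub (StrL_BM (Str T L H g)) (hgc s))
  have hi5 : Integrable (fun x => 2 * ((L.card : ℝ) * ∑ l ∈ L, ‖a H l x - b l x‖ ^ 2)) (ν s) :=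
    (hi2.const_mul _).const_mul _
  calc ∫ x, ‖Str T L H g x - cex (ν s) T g x‖ ^ 2 ∂(ν s)
      ≤ ∫ x, (2 * ((L.card : ℝ) * ∑ l ∈ L, ‖a H l x - b l x‖ ^ 2) + 2 * ‖d x‖ ^ 2) ∂(ν s) :=
        integral_mono hi4 (hi5.add (hi3.const_mul 2)) hpt
    _ = 2 * ((L.card : ℝ) * ∑ l ∈ L, ∫ x, ‖a H l x - b l x‖ ^ 2 ∂(ν s)) +
          2 * ∫ x, ‖d x‖ ^ 2 ∂(ν s) := by
        rw [integral_add hi5 (hi3.const_mul 2), integral_const_mul, integral_const_mul,
          integral_const_mul, integral_finsetSum _ hi1]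
    _ ≤ ε := by linarith

end Pool.Agent.Smj
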