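import Pool.Agent.Smj.Defs
import Pool.Agent.Mrd.Mu
import Pool.Agent.Mrd.Irr

/-!
Smj STRM: Moebius does not correlate with the structured part.
-/

set_option autoImplicit false

namespace Pool.Agent.Smj

open MeasureTheory ProbabilityTheory Filter Topology Pool.Agent.Sar
open scoped ENNReal ComplexConjugate

/-- shifting a sum by `j - 1` costs at most `2 j B` -/
private theorem StrM_shift (φ : ℕ → ℂ) (B : ℝ) (hφ : ∀ n, ‖φ n‖ ≤ B) (N j : ℕ) (hj : 1 ≤ j) :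
    ‖∑ n ∈ Finset.Icc 1 N, φ n - ∑ m ∈ Finset.range N, φ (m + j)‖ ≤ 2 * j * B := by
  have hB : 0 ≤ B := (norm_nonneg _).trans (hφ 0)
  have h1 : ∑ m ∈ Finset.range N, φ (m + j) = ∑ n ∈ Finset.Ico j (N + j), φ n := by
    rw [Finset.sum_Ico_eq_sum_range, Nat.add_sub_cancel]
    exact Finset.sum_congr rfl fun m _ => by rw [add_comm]
  have h2 : ∑ n ∈ Finset.Icc 1 N, φ n = ∑ n ∈ Finset.Ico 1 (N + 1), φ n := by
    refine Finset.sum_congr ?_ fun _ _ => rfl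
    ext n
    rw [Finset.mem_Icc, Finset.mem_Ico]
    omega
  have h3 := Finset.sum_Ico_consecutive φ (show 1 ≤ N + 1 by omega) (show N + 1 ≤ N + j by omega)
  have h4 := Finset.sum_Ico_consecutive φ hj (show j ≤ N + j by omega)
  have h5 : ∑ n ∈ Finset.Icc 1 N, φ n - ∑ m ∈ Finset.range N, φ (m + j) =
      ∑ n ∈ Finset.Ico 1 j, φ n - ∑ n ∈ Finset.Ico (N + 1) (N + j), φ n := by
    rw [h1, h2, sub_eq_sub_iff_add_eq_add, h3]
    exact h4.symm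
  have h6 : ‖∑ n ∈ Finset.Ico 1 j, φ n‖ ≤ j * B := by
    refine (norm_sum_le _ _).trans ((Finset.sum_le_sum fun n _ => hφ n).trans ?_)
    rw [Finset.sum_const, Nat.card_Ico, nsmul_eq_mul]
    refine mul_le_mul_of_nonneg_right ?_ hB
    exact_mod_cast Nat.sub_le j 1
  have h7 : ‖∑ n ∈ Finset.Ico (N + 1) (N + j), φ n‖ ≤ j * B := by
    refine (norm_sum_le _ _).trans ((Finset.sum_le_sum fun n _ => hφ n).trans ?_)
    rw [Finset.sum_const, Nat.card_Ico, nsmul_eq_mul]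
    refine mul_le_mul_of_nonneg_right ?_ hB
    exact_mod_cast (show N + j - (N + 1) ≤ j by omega)
  rw [h5]
  refine (norm_sub_le _ _).trans ?_
  linarith

/-- the pointwise inequality -/
private theorem StrM_pt (u : ℕ → ℂ) (μ : ℕ → ℂ) (G : ℝ) (hu : ∀ n, ‖u n‖ ≤ G)
    (hμ : ∀ n, ‖μ n‖ ≤ 1) (l : ℂ) (hl : ‖l‖ = 1) (H N : ℕ) :
    ‖∑ n ∈ Finset.Icc 1 N, (∑ h ∈ Finset.Ioc 0 H, (conj l) ^ h * u (n + h)) * μ n‖ ≤
      G * (∑ m ∈ Finset.range N, ‖∑ n ∈ Finset.Ioc m (m + H), l ^ n * μ n‖) + 2 * H ^ 2 * G := by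
  have hG : 0 ≤ G := (norm_nonneg _).trans (hu 0)
  have hll : conj l * l = 1 := by
    rw [mul_comm, Complex.mul_conj, Complex.normSq_eq_norm_sq, hl]
    norm_num
  have hcl : ‖conj l‖ = 1 := by rw [Complex.norm_conj, hl]
  -- the two expressions
  have hA : ∑ n ∈ Finset.Icc 1 N, (∑ h ∈ Finset.Ioc 0 H, (conj l) ^ h * u (n + h)) * μ n =
      ∑ h ∈ Finset.Ioc 0 H, ∑ n ∈ Finset.Icc 1 N, (conj l) ^ h * u (n + h) * μ n := by
    rw [Finset.sum_comm]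
    exact Finset.sum_congr rfl fun n _ => by rw [Finset.sum_mul]
  have hB : ∑ m ∈ Finset.range N, (conj l) ^ (m + H + 1) * u (m + H + 1) *
      (∑ n ∈ Finset.Ioc m (m + H), l ^ n * μ n) =
      ∑ h ∈ Finset.Ioc 0 H, ∑ m ∈ Finset.range N,
        (conj l) ^ h * u (m + (H + 1 - h) + h) * μ (m + (H + 1 - h)) := by
    rw [Finset.sum_comm]
    refine Finset.sum_congr rfl fun m _ => ?_
    have h1 : ∑ n ∈ Finset.Ioc m (m + H), l ^ n * μ n =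
        ∑ h ∈ Finset.Ioc 0 H, l ^ (m + (H + 1 - h)) * μ (m + (H + 1 - h)) := by
      refine (Finset.sum_bij' (fun n _ => m + H + 1 - n) (fun h _ => m + (H + 1 - h)) ?_ ?_ ?_ ?_ ?_)
      · intro n hn
        rw [Finset.mem_Ioc] at hn ⊢
        omega
      · intro h hh
        rw [Finset.mem_Ioc] at hh ⊢
        omega
      · intro n hn
        rw [Finset.mem_Ioc] at hn
        show m + (H + 1 - (m + H + 1 - n)) = n
        omega
      · intro h hh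
        rw [Finset.mem_Ioc] at hh
        show m + H + 1 - (m + (H + 1 - h)) = h
        omega
      · intro n hn
        rw [Finset.mem_Ioc] at hn
        have : m + (H + 1 - (m + H + 1 - n)) = n := by omega
        rw [this]
    rw [h1, Finset.mul_sum]
    refine Finset.sum_congr rfl fun h hh => ?_
    rw [Finset.mem_Ioc] at hh
    have h2 : m + (H + 1 - h) + h = m + H + 1 := by omega
    rw [h2]
    have h3 : (conj l) ^ (m + H + 1) = (conj l) ^ h * (conj l) ^ (m + (H + 1 - h)) := by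
      rw [← pow_add]
      congr 1
      omega
    have h4 : (conj l) ^ (m + (H + 1 - h)) * l ^ (m + (H + 1 - h)) = 1 := by
      rw [← mul_pow, hll, one_pow]
    rw [h3]
    calc (conj l) ^ h * (conj l) ^ (m + (H + 1 - h)) * u (m + H + 1) *
          (l ^ (m + (H + 1 - h)) * μ (m + (H + 1 - h))) =
          ((conj l) ^ (m + (H + 1 - h)) * l ^ (m + (H + 1 - h))) *
          ((conj l) ^ h * u (m + H + 1) * μ (m + (H + 1 - h))) := by ring
      _ = _ := by rw [h4, one_mul]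
  have hdiff : ‖∑ n ∈ Finset.Icc 1 N, (∑ h ∈ Finset.Ioc 0 H, (conj l) ^ h * u (n + h)) * μ n -
      ∑ m ∈ Finset.range N, (conj l) ^ (m + H + 1) * u (m + H + 1) *
      (∑ n ∈ Finset.Ioc m (m + H), l ^ n * μ n)‖ ≤ 2 * H ^ 2 * G := by
    rw [hA, hB, ← Finset.sum_sub_distrib]
    refine (norm_sum_le _ _).trans ?_
    have h1 : ∀ h ∈ Finset.Ioc 0 H, ‖∑ n ∈ Finset.Icc 1 N, (conj l) ^ h * u (n + h) * μ n -
        ∑ m ∈ Finset.range N, (conj l) ^ h * u (m + (H + 1 - h) + h) * μ (m + (H + 1 - h))‖ ≤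
        2 * H * G := by
      intro h hh
      rw [Finset.mem_Ioc] at hh
      have h2 := StrM_shift (fun n => (conj l) ^ h * u (n + h) * μ n) G (fun n => by
        rw [norm_mul, norm_mul, norm_pow, hcl, one_pow, one_mul]
        calc ‖u (n + h)‖ * ‖μ n‖ ≤ G * 1 := mul_le_mul (hu _) (hμ _) (norm_nonneg _) hG
          _ = G := mul_one G) N (H + 1 - h) (by omega)
      refine h2.trans ?_
      have h3 : ((H + 1 - h : ℕ) : ℝ) ≤ H := by exact_mod_cast (show H + 1 - h ≤ H by omega)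
      have h4 := mul_le_mul_of_nonneg_right h3 hG
      linarith
    refine (Finset.sum_le_sum h1).trans ?_
    rw [Finset.sum_const, Nat.card_Ioc, nsmul_eq_mul, Nat.sub_zero]
    refine le_of_eq ?_
    ring
  have hmain : ‖∑ m ∈ Finset.range N, (conj l) ^ (m + H + 1) * u (m + H + 1) *
      (∑ n ∈ Finset.Ioc m (m + H), l ^ n * μ n)‖ ≤
      G * (∑ m ∈ Finset.range N, ‖∑ n ∈ Finset.Ioc m (m + H), l ^ n * μ n‖) := by
    refine (norm_sum_le _ _).trans ?_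
    rw [Finset.mul_sum]
    refine Finset.sum_le_sum fun m _ => ?_
    rw [norm_mul, norm_mul, norm_pow, hcl, one_pow, one_mul]
    exact mul_le_mul_of_nonneg_right (hu _) (norm_nonneg _)
  have htri := norm_add_le
    (∑ n ∈ Finset.Icc 1 N, (∑ h ∈ Finset.Ioc 0 H, (conj l) ^ h * u (n + h)) * μ n -
      ∑ m ∈ Finset.range N, (conj l) ^ (m + H + 1) * u (m + H + 1) *
      (∑ n ∈ Finset.Ioc m (m + H), l ^ n * μ n))
    (∑ m ∈ Finset.range N, (conj l) ^ (m + H + 1) * u (m + H + 1) *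
      (∑ n ∈ Finset.Ioc m (m + H), l ^ n * μ n))
  rw [sub_add_cancel] at htri
  linarith

private theorem StrM_moeb (n : ℕ) : ‖((ArithmeticFunction.moebius n : ℤ) : ℂ)‖ ≤ 1 := by
  rw [Complex.norm_intCast]
  exact_mod_cast ArithmeticFunction.abs_moebius_le_one

/-- the two short interval theorems together -/
private theorem StrM_short (l : ℂ) (hl : ‖l‖ = 1) (ε : ℝ) (hε : 0 < ε) :
    ∃ H₀ : ℕ, ∀ H : ℕ, H₀ ≤ H → ∃ N₀ : ℕ, ∀ N : ℕ, N₀ ≤ N →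
      ∑ m ∈ Finset.range N, ‖∑ n ∈ Finset.Ioc m (m + H), l ^ n *
        ((ArithmeticFunction.moebius n : ℤ) : ℂ)‖ ≤ ε * N * H := by
  by_cases h : ∃ q : ℕ, 1 ≤ q ∧ l ^ q = 1
  · obtain ⟨q, hq, hlq⟩ := h
    exact Pool.Agent.Mrd.mr_mu l q hq hlq ε hε
  · push Not at h
    exact Pool.Agent.Mrd.irr l hl h ε hε

private theorem StrM_one {X : Type*} [TopologicalSpace X] [CompactSpace X] (T : X ≃ₜ X) (l : ℂ)
    (hl : ‖l‖ = 1) (g : C(X, ℂ)) {ε : ℝ} (hε : 0 < ε) : ∀ᶠ H : ℕ in atTop, ∀ x : X,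
      ∀ᶠ N : ℕ in atTop, ‖(N : ℂ)⁻¹ * ∑ n ∈ Finset.Icc 1 N,
        ((H : ℂ)⁻¹ * ∑ h ∈ Finset.Ioc 0 H, (conj l) ^ h * g ((⇑T)^[h] ((⇑T)^[n] x))) *
          ((ArithmeticFunction.moebius n : ℤ) : ℂ)‖ ≤ ε := by
  have hG : 0 ≤ ‖g‖ := norm_nonneg g
  obtain ⟨H₀, hH₀⟩ := StrM_short l hl (ε / (2 * (‖g‖ + 1))) (by positivity)
  filter_upwards [eventually_ge_atTop (max H₀ 1)] with H hH x
  have hH0 : H₀ ≤ H := (le_max_left _ _).trans hH
  have hH1 : 1 ≤ H := (le_max_right _ _).trans hH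
  obtain ⟨N₀, hN₀⟩ := hH₀ H hH0
  have hHp : (0 : ℝ) < H := by exact_mod_cast hH1
  filter_upwards [eventually_ge_atTop (max (max N₀ 1) ⌈4 * (H : ℝ) * ‖g‖ / ε⌉₊)] with N hN
  have hN0 : N₀ ≤ N := (le_max_left _ _).trans ((le_max_left _ _).trans hN)
  have hN1 : 1 ≤ N := (le_max_right _ _).trans ((le_max_left _ _).trans hN)
  have hN2 : 4 * (H : ℝ) * ‖g‖ / ε ≤ N :=
    (Nat.le_ceil _).trans (by exact_mod_cast (le_max_right _ _).trans hN)
  have hNp : (0 : ℝ) < N := by exact_mod_cast hN1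
  have h1 := hN₀ N hN0
  have h2 := StrM_pt (fun k => g ((⇑T)^[k] x))
    (fun n => ((ArithmeticFunction.moebius n : ℤ) : ℂ)) ‖g‖ (fun n => g.norm_coe_le_norm _)
    StrM_moeb l hl H N
  have h3 : ∑ n ∈ Finset.Icc 1 N,
        ((H : ℂ)⁻¹ * ∑ h ∈ Finset.Ioc 0 H, (conj l) ^ h * g ((⇑T)^[h] ((⇑T)^[n] x))) *
          ((ArithmeticFunction.moebius n : ℤ) : ℂ) =
      (H : ℂ)⁻¹ * ∑ n ∈ Finset.Icc 1 N, (∑ h ∈ Finset.Ioc 0 H, (conj l) ^ h *
        g ((⇑T)^[n + h] x)) * ((ArithmeticFunction.moebius n : ℤ) : ℂ) := by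
    rw [Finset.mul_sum]
    refine Finset.sum_congr rfl fun n _ => ?_
    have h4 : ∑ h ∈ Finset.Ioc 0 H, (conj l) ^ h * g ((⇑T)^[h] ((⇑T)^[n] x)) =
        ∑ h ∈ Finset.Ioc 0 H, (conj l) ^ h * g ((⇑T)^[n + h] x) := by
      refine Finset.sum_congr rfl fun h _ => ?_
      rw [← Function.iterate_add_apply, add_comm h n]
    rw [h4]
    ring
  rw [h3, norm_mul, norm_mul, norm_inv, norm_inv, Complex.norm_natCast, Complex.norm_natCast]
  have h5 : ‖g‖ * (∑ m ∈ Finset.range N, ‖∑ n ∈ Finset.Ioc m (m + H), l ^ n *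
      ((ArithmeticFunction.moebius n : ℤ) : ℂ)‖) ≤ ε / 2 * N * H := by
    have h6 := mul_le_mul_of_nonneg_left h1 hG
    refine h6.trans ?_
    have h7 : ‖g‖ * (ε / (2 * (‖g‖ + 1))) ≤ ε / 2 := by
      rw [← mul_div_assoc, div_le_iff₀ (by positivity)]
      nlinarith
    have h8 : 0 ≤ (N : ℝ) * H := by positivity
    have h9 := mul_le_mul_of_nonneg_right h7 h8
    linarith
  have h6 : 2 * (H : ℝ) ^ 2 * ‖g‖ ≤ ε / 2 * N * H := by
    rw [div_le_iff₀ hε] at hN2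
    nlinarith
  have h7 := h2.trans (add_le_add h5 h6)
  rw [← mul_assoc, ← mul_inv]
  rw [inv_mul_le_iff₀ (by positivity)]
  refine h7.trans (le_of_eq ?_)
  ring

/-- `(1/N) ∑_{n≤N} μ(n) (1/H) ∑_{h=1}^H conj(l)^h g(T^{n+h}x) = (1/(NH)) ∑_k g(T^k x) conj(l)^k ∑_{n ∈ [k-H, k) ∩ [1,N]} μ(n) l^n` (`|l| = 1`, `conj(l)^h = conj(l)^k l^n` for `k = n + h`), so it is `≤ ‖g‖ ((1/(NH)) ∑_{m < N} |∑_{n ∈ Ioc m (m+H)} l^n μ(n)| + 2H/N)`;
`Pool.Agent.Mrd.mr_mu` if `l^q = 1` for some `q ≥ 1`, else `Pool.Agent.Mrd.irr`; sum over `l ∈ L`. -/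
theorem str_mu {X : Type*} [TopologicalSpace X] [CompactSpace X] (T : X ≃ₜ X) (L : Finset ℂ)
    (hL : ∀ l ∈ L, ‖l‖ = 1) (g : C(X, ℂ)) {ε : ℝ} (hε : 0 < ε) : ∀ᶠ H : ℕ in atTop, ∀ x : X,
      ∀ᶠ N : ℕ in atTop, ‖(N : ℂ)⁻¹ * ∑ n ∈ Finset.Icc 1 N,
        Str T L H g ((⇑T)^[n] x) * ((ArithmeticFunction.moebius n : ℤ) : ℂ)‖ ≤ ε := by
  have h1 : ∀ᶠ H : ℕ in atTop, ∀ l ∈ L, ∀ x : X,
      ∀ᶠ N : ℕ in atTop, ‖(N : ℂ)⁻¹ * ∑ n ∈ Finset.Icc 1 N,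
        ((H : ℂ)⁻¹ * ∑ h ∈ Finset.Ioc 0 H, (conj l) ^ h * g ((⇑T)^[h] ((⇑T)^[n] x))) *
          ((ArithmeticFunction.moebius n : ℤ) : ℂ)‖ ≤ ε / (L.card + 1) :=
    (Filter.eventually_all_finset L).2 fun l hl => StrM_one T l (hL l hl) g (by positivity)
  filter_upwards [h1] with H hH x
  have h2 : ∀ᶠ N : ℕ in atTop, ∀ l ∈ L, ‖(N : ℂ)⁻¹ * ∑ n ∈ Finset.Icc 1 N,
        ((H : ℂ)⁻¹ * ∑ h ∈ Finset.Ioc 0 H, (conj l) ^ h * g ((⇑T)^[h] ((⇑T)^[n] x))) *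
          ((ArithmeticFunction.moebius n : ℤ) : ℂ)‖ ≤ ε / (L.card + 1) :=
    (Filter.eventually_all_finset L).2 fun l hl => hH l hl x
  filter_upwards [h2] with N hN
  have h3 : (N : ℂ)⁻¹ * ∑ n ∈ Finset.Icc 1 N,
        Str T L H g ((⇑T)^[n] x) * ((ArithmeticFunction.moebius n : ℤ) : ℂ) =
      ∑ l ∈ L, (N : ℂ)⁻¹ * ∑ n ∈ Finset.Icc 1 N,
        ((H : ℂ)⁻¹ * ∑ h ∈ Finset.Ioc 0 H, (conj l) ^ h * g ((⇑T)^[h] ((⇑T)^[n] x))) *
          ((ArithmeticFunction.moebius n : ℤ) : ℂ) := by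
    rw [← Finset.mul_sum, Finset.sum_comm]
    congr 1
    refine Finset.sum_congr rfl fun n _ => ?_
    rw [← Finset.sum_mul]
    rfl
  rw [h3]
  refine (norm_sum_le _ _).trans ((Finset.sum_le_sum hN).trans ?_)
  rw [Finset.sum_const, nsmul_eq_mul, ← mul_div_assoc, div_le_iff₀ (by positivity)]
  nlinarith

end Pool.Agent.Smj
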