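import Pool.Agent.Smj.BlkJ
import Pool.Agent.Smj.Emp2
import Pool.Agent.Smj.StrL
import Pool.Agent.Smj.StrM
import Pool.Agent.Sar.B1
import Pool.Agent.Sar.D5

/-!
Smj FIN: theorem SM.
-/

set_option autoImplicit false

namespace Pool.Agent.Smj

open MeasureTheory ProbabilityTheory Filter Topology Pool.Agent.Sar
open scoped ENNReal ComplexConjugate

section aux

variable {X : Type*} [mX : MeasurableSpace X]

private theorem cmp_sq_int {κ : Measure X} [IsFiniteMeasure κ] {v : X → ℂ} (hv : BM v) :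
    Integrable (fun x => ‖v x‖ ^ 2) κ := by
  obtain ⟨C, hC⟩ := hv.bdd
  refine Integrable.of_bound (hv.meas.norm.pow_const 2).aestronglyMeasurable (C ^ 2)
    (ae_of_all _ fun x => ?_)
  rw [norm_pow, norm_norm]
  exact pow_le_pow_left₀ (norm_nonneg _) (hC x) 2

private theorem cmp_pt {a b a' b' : ℂ} {δ : ℝ} (hδ : 0 < δ) (ha' : ‖a'‖ ≤ 2) (hb' : ‖b'‖ ≤ 2) :
    ‖a * conj b - a' * conj b'‖ ≤
      (‖a - a'‖ ^ 2 + ‖b - b'‖ ^ 2) * (1 / 2 + 1 / δ) + 2 * δ := by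
  have h1 : a * conj b - a' * conj b' =
      (a - a') * conj (b - b') + ((a - a') * conj b' + a' * conj (b - b')) := by
    simp only [map_sub]
    ring
  have h2 : ‖a * conj b - a' * conj b'‖ ≤ ‖a - a'‖ * ‖b - b'‖ + (‖a - a'‖ * 2 + 2 * ‖b - b'‖) := by
    rw [h1]
    refine (norm_add_le _ _).trans (add_le_add ?_ ((norm_add_le _ _).trans (add_le_add ?_ ?_)))
    · rw [norm_mul, RCLike.norm_conj]
    · rw [norm_mul, RCLike.norm_conj]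
      exact mul_le_mul_of_nonneg_left hb' (norm_nonneg _)
    · rw [norm_mul, RCLike.norm_conj]
      exact mul_le_mul_of_nonneg_right ha' (norm_nonneg _)
  have h3 : ∀ u : ℝ, 2 * u ≤ u ^ 2 * (1 / δ) + δ := by
    intro u
    have h4 : u ^ 2 * (1 / δ) + δ - 2 * u = (u - δ) ^ 2 / δ := by
      field_simp
      ring
    have h5 : 0 ≤ (u - δ) ^ 2 / δ := by positivity
    linarith
  have h6 := h3 ‖a - a'‖
  have h7 := h3 ‖b - b'‖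
  have h8 : ‖a - a'‖ * ‖b - b'‖ ≤ (‖a - a'‖ ^ 2 + ‖b - b'‖ ^ 2) * (1 / 2) := by
    nlinarith [sq_nonneg (‖a - a'‖ - ‖b - b'‖)]
  have h9 : (‖a - a'‖ ^ 2 + ‖b - b'‖ ^ 2) * (1 / 2 + 1 / δ) =
      (‖a - a'‖ ^ 2 + ‖b - b'‖ ^ 2) * (1 / 2) + ‖a - a'‖ ^ 2 * (1 / δ) +
        ‖b - b'‖ ^ 2 * (1 / δ) := by ring
  rw [h9]
  linarith

end aux

variable {X : Type*} [MetricSpace X] [CompactSpace X] [mX : MeasurableSpace X] [BorelSpace X]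
  {ι : Type*} {ν : ι → Measure X} [∀ s, IsProbabilityMeasure (ν s)]

/-- `c = g - Str T L H g`, `F_s = g - cex (ν s) T g`. For an ergodic joining `ρ` of `(ν s, T^p)`, `(ν s', T^p')`: `|∫ c⊗conj c dρ| ≤ |∫ F_s ⊗ conj F_s' dρ| + 6δ` if `‖c - F_s‖_{L²(ν s)}, ‖c - F_s'‖ ≤ δ ≤ 1` (`‖g‖ ≤ 1`, `‖F‖ ≤ 2`). -/
theorem cmp (T : X ≃ₜ X) (hE : ∀ s, Ergodic T (ν s)) (s s' : ι) {g c : C(X, ℂ)} (hg : ∀ x, ‖g x‖ ≤ 1)
    {δ : ℝ} (hδ : 0 < δ) (hδ1 : δ ≤ 1) [Nonempty X]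
    (h : ∫ x, ‖c x - (g x - cex (ν s) T g x)‖ ^ 2 ∂(ν s) ≤ δ ^ 2)
    (h' : ∫ x, ‖c x - (g x - cex (ν s') T g x)‖ ^ 2 ∂(ν s') ≤ δ ^ 2) {p p' : ℕ}
    {ρ : Measure (X × X)} (hρ : EJ ((⇑T)^[p]) ((⇑T)^[p']) (ν s) (ν s') ρ) :
    ‖∫ z : X × X, c z.1 * conj (c z.2) ∂ρ‖ ≤
      ‖∫ z : X × X, (g z.1 - cex (ν s) T g z.1) * conj (g z.2 - cex (ν s') T g z.2) ∂ρ‖ + 6 * δ := by
  have _ := hρ.prob
  have hgB : BM (⇑g) := ⟨g.continuous.measurable, ‖g‖, fun x => g.norm_coe_le_norm x⟩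
  have hcB : BM (⇑c) := ⟨c.continuous.measurable, ‖c‖, fun x => c.norm_coe_le_norm x⟩
  have hFs : ∀ r : ι, ∃ F : X → ℂ, (∀ x, g x - cex (ν r) T g x = F x) ∧ BM F ∧ ∀ x, ‖F x‖ ≤ 2 := by
    intro r
    refine ⟨fun x => g x - cex (ν r) T g x, fun _ => rfl, K2b_sub hgB (cex_BM hgB), fun x => ?_⟩
    have h1 := norm_sub_le (g x) (cex (ν r) T g x)
    have h2 := K2b_norm (ν := ν r) (T := T) hg x
    have h3 := hg x
    linarith
  obtain ⟨F, hF, hFB, hF2⟩ := hFs s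
  obtain ⟨F', hF', hFB', hF2'⟩ := hFs s'
  simp only [hF] at h
  simp only [hF'] at h'
  simp only [hF, hF']
  have hm1 : Measurable (fun z : X × X => z.1) := measurable_fst
  have hm2 : Measurable (fun z : X × X => z.2) := measurable_snd
  have hcomp1 : ∀ {v : X → ℂ}, BM v → BM (fun z : X × X => v z.1) := fun hv =>
    ⟨hv.meas.comp hm1, hv.bdd.imp fun _ h _ => h _⟩
  have hcomp2 : ∀ {v : X → ℂ}, BM v → BM (fun z : X × X => v z.2) := fun hv =>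
    ⟨hv.meas.comp hm2, hv.bdd.imp fun _ h _ => h _⟩
  have hi1 : Integrable (fun z : X × X => c z.1 * conj (c z.2)) ρ :=
    K2b_int (K2b_mul (hcomp1 hcB) (K2b_conj (hcomp2 hcB)))
  have hi2 : Integrable (fun z : X × X => F z.1 * conj (F' z.2)) ρ :=
    K2b_int (K2b_mul (hcomp1 hFB) (K2b_conj (hcomp2 hFB')))
  have hAi : Integrable (fun z : X × X => ‖c z.1 - F z.1‖ ^ 2) ρ :=
    cmp_sq_int (K2b_sub (hcomp1 hcB) (hcomp1 hFB))
  have hBi : Integrable (fun z : X × X => ‖c z.2 - F' z.2‖ ^ 2) ρ :=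
    cmp_sq_int (K2b_sub (hcomp2 hcB) (hcomp2 hFB'))
  have hA : ∫ z : X × X, ‖c z.1 - F z.1‖ ^ 2 ∂ρ ≤ δ ^ 2 := by
    have h1 : ∫ x, ‖c x - F x‖ ^ 2 ∂(ρ.map Prod.fst) = ∫ z : X × X, ‖c z.1 - F z.1‖ ^ 2 ∂ρ :=
      integral_map measurable_fst.aemeasurable
        ((hcB.meas.sub hFB.meas).norm.pow_const 2).aestronglyMeasurable
    rw [← h1, hρ.fst]
    exact h
  have hB : ∫ z : X × X, ‖c z.2 - F' z.2‖ ^ 2 ∂ρ ≤ δ ^ 2 := by
    have h1 : ∫ x, ‖c x - F' x‖ ^ 2 ∂(ρ.map Prod.snd) = ∫ z : X × X, ‖c z.2 - F' z.2‖ ^ 2 ∂ρ :=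
      integral_map measurable_snd.aemeasurable
        ((hcB.meas.sub hFB'.meas).norm.pow_const 2).aestronglyMeasurable
    rw [← h1, hρ.snd]
    exact h'
  have hAB : Integrable (fun z : X × X => ‖c z.1 - F z.1‖ ^ 2 + ‖c z.2 - F' z.2‖ ^ 2) ρ :=
    hAi.add hBi
  have hABm : Integrable (fun z : X × X => (‖c z.1 - F z.1‖ ^ 2 + ‖c z.2 - F' z.2‖ ^ 2) *
      (1 / 2 + 1 / δ)) ρ := hAB.mul_const _
  have hbd : Integrable (fun z : X × X => (‖c z.1 - F z.1‖ ^ 2 + ‖c z.2 - F' z.2‖ ^ 2) *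
      (1 / 2 + 1 / δ) + 2 * δ) ρ := hABm.add (integrable_const _)
  have hdiff : ‖∫ z : X × X, c z.1 * conj (c z.2) ∂ρ - ∫ z : X × X, F z.1 * conj (F' z.2) ∂ρ‖ ≤
      6 * δ := by
    rw [← integral_sub hi1 hi2]
    refine (norm_integral_le_of_norm_le hbd (ae_of_all _ fun z =>
      cmp_pt hδ (hF2 z.1) (hF2' z.2))).trans ?_
    rw [integral_add hABm (integrable_const _), integral_mul_const,
      integral_add hAi hBi, integral_const]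
    simp only [probReal_univ, smul_eq_mul, one_mul]
    have h1 : (∫ z : X × X, ‖c z.1 - F z.1‖ ^ 2 ∂ρ + ∫ z : X × X, ‖c z.2 - F' z.2‖ ^ 2 ∂ρ) *
        (1 / 2 + 1 / δ) ≤ (δ ^ 2 + δ ^ 2) * (1 / 2 + 1 / δ) :=
      mul_le_mul_of_nonneg_right (add_le_add hA hB) (by positivity)
    have h2 : (δ ^ 2 + δ ^ 2) * (1 / 2 + 1 / δ) = δ ^ 2 + 2 * δ := by
      field_simp
      ring
    have h3 : δ ^ 2 ≤ δ := by nlinarith
    linarith
  have h9 := norm_add_le (∫ z : X × X, F z.1 * conj (F' z.2) ∂ρ)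
    (∫ z : X × X, c z.1 * conj (c z.2) ∂ρ - ∫ z : X × X, F z.1 * conj (F' z.2) ∂ρ)
  rw [add_sub_cancel] at h9
  linarith

end Pool.Agent.Smj
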