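import Pool.Agent.Smj.Defs
import Pool.Agent.Sar.P1

/-!
Smj P1T: `Sar.P1` for two different systems.
-/

set_option autoImplicit false
set_option linter.unusedSectionVars false

namespace Pool.Agent.Smj

open MeasureTheory ProbabilityTheory Filter Topology Pool.Agent.Sar
open scoped ENNReal ComplexConjugate

section aux1

variable {X : Type*} [mX : MeasurableSpace X] [StandardBorelSpace X] [Nonempty X]
  {ν : Measure X} [IsProbabilityMeasure ν] {T : X → X}

omit [StandardBorelSpace X] [Nonempty X] in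
private theorem P1t_int {Ω : Type*} [MeasurableSpace Ω] {D : Measure Ω} [IsProbabilityMeasure D]
    {F : Ω → ℂ} (hF : Measurable F) {C : ℝ} (hC : ∀ z, ‖F z‖ ≤ C) : Integrable F D :=
  Integrable.of_bound hF.aestronglyMeasurable C (Eventually.of_forall hC)

private theorem P1t_ind {Ω : Type*} {m : MeasurableSpace Ω} {s : Set Ω} (hs : MeasurableSet[m] s) :
    Measurable[m] (s.indicator fun _ => (1 : ℂ)) :=
  (measurable_const : Measurable[m] fun _ : Ω => (1 : ℂ)).indicator hs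

private theorem P1t_cst {Ω : Type*} {m : MeasurableSpace Ω} :
    Measurable[m] (fun _ : Ω => (1 : ℂ)) := measurable_const

omit [StandardBorelSpace X] [Nonempty X] in
/-- orthogonality to the eigenfunctions extends to all bounded functions measurable with respect to `Kr` -/
private theorem P1t_dense1 (hE : Ergodic T ν) {Ω : Type*} [MeasurableSpace Ω] {D : Measure Ω}
    [IsProbabilityMeasure D] {π : Ω → X} (hπ : Measurable π) (hD : D.map π = ν) {G : Ω → ℂ}
    (hG : Measurable G) {C : ℝ} (hC : ∀ z, ‖G z‖ ≤ C)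
    (h : ∀ l ∈ EV ν T, ∫ z, G z * eg ν T l (π z) ∂D = 0) {v : X → ℂ}
    (hv : Measurable[Kr ν T] v) (hb : ∃ B : ℝ, ∀ x, ‖v x‖ ≤ B) :
    ∫ z, G z * v (π z) ∂D = 0 := by
  have hvm : Measurable v := hv.mono Kr_le le_rfl
  obtain ⟨B, hB⟩ := hb
  have hC0 : 0 ≤ C := (norm_nonneg _).trans (hC (Classical.choice D.nonempty_of_neZero))
  rw [← norm_le_zero_iff]
  refine le_of_forall_pos_le_add fun η hη => ?_
  rw [zero_add]
  set δ : ℝ := η / (C + 1) with hδ
  have hδ0 : 0 < δ := by positivity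
  obtain ⟨L, hL, hL'⟩ := Kr_dense hE hv ⟨B, hB⟩ (ε := δ ^ 2) (by positivity)
  have h1 := hL' L (Finset.Subset.refl _) hL
  set w : X → ℂ := fun x => ∑ l ∈ L, fc ν T v l * eg ν T l x with hw
  have hwm : Measurable w := Finset.measurable_sum _ fun l _ => (eg_meas l).const_mul _
  have hwb : ∀ x, ‖w x‖ ≤ ∑ l ∈ L, ‖fc ν T v l‖ := fun x => by
    refine (norm_sum_le _ _).trans (Finset.sum_le_sum fun l _ => ?_)
    rw [norm_mul, eg_norm, mul_one]
  have hub : ∀ x, ‖v x - w x‖ ≤ B + ∑ l ∈ L, ‖fc ν T v l‖ := fun x =>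
    (norm_sub_le _ _).trans (add_le_add (hB x) (hwb x))
  have hum : Measurable fun x => v x - w x := hvm.sub hwm
  -- integral against `w` vanishes
  have h2 : ∫ z, G z * w (π z) ∂D = 0 := by
    have e : ∀ z, G z * w (π z) = ∑ l ∈ L, fc ν T v l * (G z * eg ν T l (π z)) := by
      intro z
      simp only [hw, Finset.mul_sum]
      exact Finset.sum_congr rfl fun l _ => by ring
    simp_rw [e]
    rw [integral_finsetSum]
    · refine Finset.sum_eq_zero fun l hl => ?_
      rw [integral_const_mul, h l (hL hl), mul_zero]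
    · intro l _
      refine (P1t_int (C := C) (hG.mul ((eg_meas l).comp hπ)) fun z => ?_).const_mul _
      show ‖G z * eg ν T l (π z)‖ ≤ C
      rw [norm_mul, eg_norm, mul_one]
      exact hC z
  have h3 : ∫ z, G z * v (π z) ∂D = ∫ z, G z * (v (π z) - w (π z)) ∂D := by
    have e : ∀ z, G z * (v (π z) - w (π z)) = G z * v (π z) - G z * w (π z) := fun z => by ring
    simp_rw [e]
    rw [integral_sub, h2, sub_zero]
    · refine P1t_int (C := C * B) (hG.mul (hvm.comp hπ)) fun z => ?_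
      rw [norm_mul]
      exact mul_le_mul (hC z) (hB _) (norm_nonneg _) hC0
    · refine P1t_int (C := C * ∑ l ∈ L, ‖fc ν T v l‖) (hG.mul (hwm.comp hπ)) fun z => ?_
      rw [norm_mul]
      exact mul_le_mul (hC z) (hwb _) (norm_nonneg _) hC0
  -- the error
  have hi1 : Integrable (fun x => ‖v x - w x‖) ν := (P1t_int hum hub).norm
  have hi2 : Integrable (fun x => ‖v x - w x‖ ^ 2) ν := by
    refine Integrable.of_bound (hum.norm.pow_const 2).aestronglyMeasurable
      ((B + ∑ l ∈ L, ‖fc ν T v l‖) ^ 2) (Eventually.of_forall fun x => ?_)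
    rw [Real.norm_of_nonneg (by positivity)]
    exact pow_le_pow_left₀ (norm_nonneg _) (hub x) 2
  have h4 : ∫ x, ‖v x - w x‖ ∂ν ≤ δ := by
    have h5 : ∫ x, ‖v x - w x‖ ∂ν ≤ ∫ x, (δ / 2 + ‖v x - w x‖ ^ 2 / (2 * δ)) ∂ν := by
      refine integral_mono hi1 ((integrable_const _).add (hi2.div_const _)) fun x => ?_
      have h6 : 0 ≤ (‖v x - w x‖ - δ) ^ 2 := sq_nonneg _
      show ‖v x - w x‖ ≤ δ / 2 + ‖v x - w x‖ ^ 2 / (2 * δ)
      rw [div_add_div _ _ (by norm_num) (by positivity), le_div_iff₀ (by positivity)]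
      nlinarith
    refine h5.trans ?_
    rw [integral_add (integrable_const _) (hi2.div_const _), integral_const, integral_div]
    simp only [probReal_univ, smul_eq_mul, one_mul]
    have h7 : (∫ x, ‖v x - w x‖ ^ 2 ∂ν) / (2 * δ) ≤ δ ^ 2 / (2 * δ) :=
      div_le_div_of_nonneg_right h1 (by positivity)
    have h8 : δ ^ 2 / (2 * δ) = δ / 2 := by field_simp
    linarith
  have h9 : ∫ z, ‖v (π z) - w (π z)‖ ∂D = ∫ x, ‖v x - w x‖ ∂ν := by
    rw [← hD, integral_map hπ.aemeasurable hum.norm.aestronglyMeasurable]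
  rw [h3]
  calc ‖∫ z, G z * (v (π z) - w (π z)) ∂D‖ ≤ ∫ z, ‖G z * (v (π z) - w (π z))‖ ∂D :=
        norm_integral_le_integral_norm _
    _ ≤ ∫ z, C * ‖v (π z) - w (π z)‖ ∂D := by
        refine integral_mono_of_nonneg (Eventually.of_forall fun z => norm_nonneg _) ?_
          (Eventually.of_forall fun z => ?_)
        · exact ((P1t_int (hum.comp hπ) fun z => hub (π z)).norm).const_mul C
        · show ‖G z * (v (π z) - w (π z))‖ ≤ C * ‖v (π z) - w (π z)‖
          rw [norm_mul]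
          exact mul_le_mul_of_nonneg_right (hC z) (norm_nonneg _)
    _ = C * ∫ x, ‖v x - w x‖ ∂ν := by rw [integral_const_mul, h9]
    _ ≤ C * δ := mul_le_mul_of_nonneg_left h4 hC0
    _ ≤ η := by
        rw [hδ, mul_div_assoc', div_le_iff₀ (by positivity)]
        nlinarith

/-- a bounded function with vanishing integrals over the sets of a smaller sigma-algebra integrates to zero
against the bounded functions measurable with respect to it -/
private theorem P1t_simple {Ω : Type*} {m m0 : MeasurableSpace Ω} (hm : m ≤ m0)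
    {D : @Measure Ω m0} [hP : @IsProbabilityMeasure Ω m0 D] {φ : Ω → ℂ} (hφ : Measurable[m0] φ) {C : ℝ}
    (hC : ∀ z, ‖φ z‖ ≤ C) (h2 : ∀ A : Set Ω, MeasurableSet[m] A → ∫ z in A, φ z ∂D = 0)
    {ψ : Ω → ℂ} (hψ : Measurable[m] ψ) {B : ℝ} (hB : ∀ z, ‖ψ z‖ ≤ B) :
    ∫ z, φ z * ψ z ∂D = 0 := by
  classical
  have hC0 : 0 ≤ C := (norm_nonneg _).trans (hC (Classical.choice D.nonempty_of_neZero))
  -- simple functions
  have h3 : ∀ f : @SimpleFunc Ω m ℂ, ∫ z, φ z * f z ∂D = 0 := by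
    intro f
    induction f using SimpleFunc.induction with
    | const c hs =>
      rename_i s
      have k := h2 s hs
      rw [← integral_indicator (hm _ hs)] at k
      have e : ∀ z, φ z * (@SimpleFunc.piecewise Ω ℂ m s hs
          (@SimpleFunc.const Ω ℂ m c) (@SimpleFunc.const Ω ℂ m 0)) z = c * s.indicator φ z := by
        intro z
        rw [@SimpleFunc.coe_piecewise Ω ℂ m]
        by_cases hz : z ∈ s
        · rw [Set.piecewise_eq_of_mem _ _ _ hz, Set.indicator_of_mem hz]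
          simp [mul_comm]
        · rw [Set.piecewise_eq_of_notMem _ _ _ hz, Set.indicator_of_notMem hz]
          simp
      simp_rw [e]
      rw [integral_const_mul, k, mul_zero]
    | add _ hf hg =>
      rename_i f g _
      have hfm : Measurable[m0] (f : Ω → ℂ) := (@SimpleFunc.measurable Ω ℂ m _ f).mono hm le_rfl
      have hgm : Measurable[m0] (g : Ω → ℂ) := (@SimpleFunc.measurable Ω ℂ m _ g).mono hm le_rfl
      have e : ∀ z, φ z * (f + g) z = φ z * f z + φ z * g z := fun z => by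
        show φ z * (f z + g z) = _
        ring
      obtain ⟨Bf, hBf⟩ := @SimpleFunc.exists_forall_norm_le Ω ℂ m _ f
      obtain ⟨Bg, hBg⟩ := @SimpleFunc.exists_forall_norm_le Ω ℂ m _ g
      have i1 : Integrable (fun z => φ z * f z) D := by
        refine P1t_int (C := C * Bf) (hφ.mul hfm) fun z => ?_
        show ‖φ z * f z‖ ≤ _
        rw [norm_mul]
        exact mul_le_mul (hC z) (hBf _) (norm_nonneg _) hC0
      have i2 : Integrable (fun z => φ z * g z) D := by
        refine P1t_int (C := C * Bg) (hφ.mul hgm) fun z => ?_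
        show ‖φ z * g z‖ ≤ _
        rw [norm_mul]
        exact mul_le_mul (hC z) (hBg _) (norm_nonneg _) hC0
      simp_rw [e]
      rw [integral_add i1 i2, hf, hg, add_zero]
  -- limit
  have hψs : StronglyMeasurable[m] ψ := hψ.stronglyMeasurable
  have hB0 : 0 ≤ B := (norm_nonneg _).trans (hB (Classical.choice D.nonempty_of_neZero))
  have hlim : Tendsto (fun n => ∫ z, φ z * (hψs.approxBounded B n) z ∂D) atTop
      (𝓝 (∫ z, φ z * ψ z ∂D)) := by
    refine tendsto_integral_of_dominated_convergence (fun _ => C * B) ?_ (integrable_const _) ?_ ?_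
    · intro n
      exact (hφ.mul ((@SimpleFunc.measurable Ω ℂ m _ (hψs.approxBounded B n)).mono
        hm le_rfl)).aestronglyMeasurable
    · intro n
      refine Eventually.of_forall fun z => ?_
      rw [norm_mul]
      exact mul_le_mul (hC z) (hψs.norm_approxBounded_le hB0 n z) (norm_nonneg _) hC0
    · refine Eventually.of_forall fun z => ?_
      exact (hψs.tendsto_approxBounded_of_norm_le (hB z)).const_mul _
  have hz : (fun n => ∫ z, φ z * (hψs.approxBounded B n) z ∂D) = fun _ => 0 :=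
    funext fun n => h3 _
  rw [hz] at hlim
  exact (tendsto_nhds_unique hlim tendsto_const_nhds)

end aux1

section aux2

variable {X Y : Type*} [mX : MeasurableSpace X] [StandardBorelSpace X] [Nonempty X]
  [mY : MeasurableSpace Y] [StandardBorelSpace Y] [Nonempty Y] {ν : Measure X} {μ : Measure Y}
  [IsProbabilityMeasure ν] [IsProbabilityMeasure μ] {T : X → X} {S : Y → Y}

/-- orthogonality to products of eigenfunctions extends to all functions measurable with respect to
`Kr ⊗ Kr` -/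
private theorem P1t_dense (hE : Ergodic T ν) (hE' : Ergodic S μ) {D : Measure (X × Y)}
    [IsProbabilityMeasure D] (hD1 : D.map Prod.fst = ν) (hD2 : D.map Prod.snd = μ) {φ : X × Y → ℂ} (hφ : Measurable φ) (hb : ∃ C : ℝ, ∀ z, ‖φ z‖ ≤ C)
    (h : ∀ l₁ ∈ EV ν T, ∀ l₂ ∈ EV μ S, ∫ z, φ z * (eg ν T l₁ z.1 * eg μ S l₂ z.2) ∂D = 0)
    {ψ : X × Y → ℂ} (hψ : Measurable[(Kr ν T).prod (Kr μ S)] ψ) (hψb : ∃ C : ℝ, ∀ z, ‖ψ z‖ ≤ C) :
    ∫ z, φ z * ψ z ∂D = 0 := by
  obtain ⟨C, hC⟩ := hb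
  have hC0 : 0 ≤ C := (norm_nonneg _).trans (hC (Classical.choice D.nonempty_of_neZero))
  -- products of bounded `Kr`-measurable functions
  have h1 : ∀ (v : X → ℂ) (w : Y → ℂ), Measurable[Kr ν T] v → Measurable[Kr μ S] w →
      (∃ B : ℝ, ∀ x, ‖v x‖ ≤ B) → (∃ B : ℝ, ∀ x, ‖w x‖ ≤ B) →
      ∫ z, φ z * (v z.1 * w z.2) ∂D = 0 := by
    intro v w hv hw hvb hwb
    have hwm : Measurable w := hw.mono Kr_le le_rfl
    obtain ⟨B, hB⟩ := hwb
    have k1 : ∀ l₁ ∈ EV ν T, ∫ z, (φ z * w z.2) * eg ν T l₁ z.1 ∂D = 0 := by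
      intro l₁ hl₁
      have k2 := P1t_dense1 hE' (D := D) measurable_snd hD2 (G := fun z => φ z * eg ν T l₁ z.1)
        (hφ.mul ((eg_meas l₁).comp measurable_fst)) (C := C)
        (fun z => by rw [norm_mul, eg_norm, mul_one]; exact hC z)
        (fun l₂ hl₂ => by
          rw [← h l₁ hl₁ l₂ hl₂]
          exact integral_congr_ae (Eventually.of_forall fun z => by
            show φ z * eg ν T l₁ z.1 * eg μ S l₂ z.2 = φ z * (eg ν T l₁ z.1 * eg μ S l₂ z.2)
            ring)) hw ⟨B, hB⟩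
      rw [← k2]
      exact integral_congr_ae (Eventually.of_forall fun z => by
        show φ z * w z.2 * eg ν T l₁ z.1 = φ z * eg ν T l₁ z.1 * w z.2
        ring)
    have k3 := P1t_dense1 hE (D := D) measurable_fst hD1 (G := fun z => φ z * w z.2)
      (hφ.mul (hwm.comp measurable_snd)) (C := C * B)
      (fun z => by
        rw [norm_mul]
        exact mul_le_mul (hC z) (hB _) (norm_nonneg _) hC0) k1 hv hvb
    rw [← k3]
    exact integral_congr_ae (Eventually.of_forall fun z => by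
      show φ z * (v z.1 * w z.2) = φ z * w z.2 * v z.1
      ring)
  have hle : (Kr ν T).prod (Kr μ S) ≤ mX.prod mY :=
    sup_le_sup (MeasurableSpace.comap_mono Kr_le) (MeasurableSpace.comap_mono Kr_le)
  have hφi : Integrable φ D := P1t_int hφ hC
  -- sets
  have h2 : ∀ A : Set (X × Y), MeasurableSet[(Kr ν T).prod (Kr μ S)] A →
      ∫ z in A, φ z ∂D = 0 := by
    intro A hA
    have hgen := (@generateFrom_prod X Y (Kr ν T) (Kr μ S)).symm
    have hpi := @isPiSystem_prod X Y (Kr ν T) (Kr μ S)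
    refine @MeasurableSpace.induction_on_inter (X × Y) _
      (fun A _ => ∫ z in A, φ z ∂D = 0) _ hgen hpi ?_ ?_ ?_ ?_ A hA
    · simp
    · rintro _ ⟨s, hs, t, ht, rfl⟩
      have hs' : MeasurableSet s := Kr_le _ hs
      have ht' : MeasurableSet t := Kr_le _ ht
      have k := h1 (s.indicator fun _ => 1) (t.indicator fun _ => 1)
        (P1t_ind hs)
        (P1t_ind ht)
        ⟨1, fun x => by
          by_cases hx : x ∈ s
          · rw [Set.indicator_of_mem hx]; simp
          · rw [Set.indicator_of_notMem hx]; simp⟩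
        ⟨1, fun x => by
          by_cases hx : x ∈ t
          · rw [Set.indicator_of_mem hx]; simp
          · rw [Set.indicator_of_notMem hx]; simp⟩
      rw [← integral_indicator (hs'.prod ht'), ← k]
      refine integral_congr_ae (Eventually.of_forall fun z => ?_)
      show (s ×ˢ t).indicator φ z = φ z * (s.indicator (fun _ => 1) z.1 * t.indicator (fun _ => 1) z.2)
      by_cases h3 : z.1 ∈ s
      · by_cases h4 : z.2 ∈ t
        · rw [Set.indicator_of_mem (Set.mk_mem_prod h3 h4 : (z.1, z.2) ∈ s ×ˢ t),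
            Set.indicator_of_mem h3, Set.indicator_of_mem h4, mul_one, mul_one]
        · rw [Set.indicator_of_notMem (fun hh => h4 hh.2), Set.indicator_of_notMem h4, mul_zero,
            mul_zero]
      · rw [Set.indicator_of_notMem (fun hh => h3 hh.1), Set.indicator_of_notMem h3, zero_mul,
          mul_zero]
    · intro t ht hIt
      have k := integral_add_compl (hle _ ht) hφi
      have k0 : ∫ z, φ z ∂D = 0 := by
        have := h1 (fun _ => 1) (fun _ => 1) P1t_cst P1t_cst ⟨1, fun x => by simp⟩ ⟨1, fun x => by simp⟩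
        simpa using this
      rw [hIt, k0, zero_add] at k
      exact k
    · intro f hd hm hf
      rw [integral_iUnion (fun i => hle _ (hm i)) hd hφi.integrableOn]
      simp [hf]
  obtain ⟨B, hB⟩ := hψb
  exact P1t_simple hle hφ hC h2 hψ hB

private theorem P1t_kmeas {Y Z Y' Z' : Type*} [MeasurableSpace Y] [MeasurableSpace Z]
    [MeasurableSpace Y'] [MeasurableSpace Z'] (κ : Kernel Y Z) [IsMarkovKernel κ] (κ' : Kernel Y' Z')
    [IsMarkovKernel κ'] {ψ : Z × Z' → ℂ} (hψ : Measurable ψ) {A : Set Z} {B : Set Z'}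
    (hA : MeasurableSet A) (hB : MeasurableSet B) :
    Measurable (fun z : Y × Y' => (∫ w in A ×ˢ B, ψ w ∂((κ z.1).prod (κ' z.2))) /
      ((((κ z.1 A) * (κ' z.2 B)).toReal : ℝ) : ℂ)) := by
  have h1 : Measurable (fun z : Y × Y' => ∫ w, (A ×ˢ B).indicator ψ w ∂((κ ∥ₖ κ') z)) := by
    have h2 : StronglyMeasurable ((A ×ˢ B).indicator ψ) :=
      (hψ.indicator (hA.prod hB)).stronglyMeasurable
    exact (h2.integral_kernel (κ := κ ∥ₖ κ')).measurable
  have h3 : ∀ z : Y × Y', ∫ w in A ×ˢ B, ψ w ∂((κ z.1).prod (κ' z.2)) =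
      ∫ w, (A ×ˢ B).indicator ψ w ∂((κ ∥ₖ κ') z) := by
    intro z
    rw [integral_indicator (hA.prod hB), Kernel.parallelComp_apply]
  simp only [h3]
  refine h1.div (Complex.measurable_ofReal.comp (Measurable.ennreal_toReal ?_))
  exact ((Kernel.measurable_coe κ hA).comp measurable_fst).mul
    ((Kernel.measurable_coe κ' hB).comp measurable_snd)

private theorem P1t_atom {Z : Type*} [MeasurableSpace Z] [MeasurableSingletonClass Z]
    {μ : Measure Z} {A : Set Z} {x : Z} (hx : x ∈ A) (h : μ {s | s ∈ A ∧ s ≠ x} = 0) :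
    μ.restrict A = μ {x} • Measure.dirac x := by
  rw [← Measure.restrict_singleton]
  refine Measure.restrict_congr_set ?_
  rw [ae_eq_set]
  constructor
  · refine measure_mono_null ?_ h
    intro s hs
    exact ⟨hs.1, hs.2⟩
  · have : ({x} : Set Z) \ A = ∅ := by
      ext s
      simp only [Set.mem_sdiff, Set.mem_singleton_iff, Set.mem_empty_iff_false, iff_false, not_and,
        not_not]
      rintro rfl
      exact hx
    rw [this]; simp

private theorem P1t_val {Z Z' : Type*} [MeasurableSpace Z] [MeasurableSingletonClass Z]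
    [MeasurableSpace Z'] [MeasurableSingletonClass Z'] {μ : Measure Z} {μ' : Measure Z'}
    [IsProbabilityMeasure μ] [IsProbabilityMeasure μ'] {A : Set Z} {B : Set Z'} {x : Z} {y : Z'}
    (hx : x ∈ A) (h : μ {s | s ∈ A ∧ s ≠ x} = 0) (hy : y ∈ B)
    (h' : μ' {s | s ∈ B ∧ s ≠ y} = 0) (h0 : μ {x} ≠ 0) (h0' : μ' {y} ≠ 0) (ψ : Z × Z' → ℂ) :
    (∫ w in A ×ˢ B, ψ w ∂(μ.prod μ')) / ((((μ A) * (μ' B)).toReal : ℝ) : ℂ) = ψ (x, y) := by
  have e1 := P1t_atom hx h
  have e2 := P1t_atom hy h'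
  have m1 : μ A = μ {x} := by
    have := congrArg (fun m => m Set.univ) e1
    simpa using this
  have m2 : μ' B = μ' {y} := by
    have := congrArg (fun m => m Set.univ) e2
    simpa using this
  rw [← Measure.prod_restrict, e1, e2, m1, m2, Measure.prod_smul_left, Measure.prod_smul_right,
    Measure.dirac_prod_dirac, smul_smul, integral_smul_measure, integral_dirac]
  rw [Complex.real_smul]
  refine mul_div_cancel_left₀ _ ?_
  rw [Complex.ofReal_ne_zero, ENNReal.toReal_ne_zero]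
  exact ⟨mul_ne_zero h0 h0', ENNReal.mul_ne_top (measure_ne_top _ _) (measure_ne_top _ _)⟩

/-- on almost every fibre a function takes at most `m²` values, given by `Kr ⊗ Kr`-measurable
functions -/
private theorem P1t_values {m m' : ℕ} {a a' : ℝ} {ℓ : X → Fin m} {ℓ' : Y → Fin m'}
    (hL : Lab ν T m a ℓ) (hL' : Lab μ S m' a' ℓ') {D : Measure (X × Y)} [IsProbabilityMeasure D]
    (hD1 : D.map Prod.fst = ν) (hD2 : D.map Prod.snd = μ) {φ : X × Y → ℂ} (hφ : Measurable φ) :
    ∃ F : Fin m × Fin m' → X × Y → ℂ,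
      (∀ t, Measurable[(Kr ν T).prod (Kr μ S)] (F t)) ∧
      ∀ᵐ z ∂D, φ z = F (ℓ z.1, ℓ' z.2) z := by
  have hS : ∀ i, MeasurableSet {s | ℓ s = i} := fun i => hL.meas (measurableSet_singleton i)
  have hS' : ∀ i, MeasurableSet {s | ℓ' s = i} := fun i => hL'.meas (measurableSet_singleton i)
  refine ⟨fun t z => (∫ w in {s | ℓ s = t.1} ×ˢ {s | ℓ' s = t.2}, φ w
    ∂((condExpKernel ν (Kr ν T) z.1).prod (condExpKernel μ (Kr μ S) z.2))) /
      ((((condExpKernel ν (Kr ν T) z.1 {s | ℓ s = t.1}) *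
        (condExpKernel μ (Kr μ S) z.2 {s | ℓ' s = t.2})).toReal : ℝ) : ℂ), ?_, ?_⟩
  · intro t
    exact @P1t_kmeas X X Y Y (Kr ν T) mX (Kr μ S) mY (condExpKernel ν (Kr ν T)) _ (condExpKernel μ (Kr μ S)) _ φ hφ _ _ (hS t.1) (hS' t.2)
  · have hgood : ∀ᵐ x ∂ν, condExpKernel ν (Kr ν T) x {s | s ∈ {s | ℓ s = ℓ x} ∧ s ≠ x} = 0 ∧
        condExpKernel ν (Kr ν T) x {x} ≠ 0 := by
      filter_upwards [hL.inj, hL.atom] with x h1 h2
      refine ⟨h1, fun h3 => ?_⟩
      rw [h3] at h2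
      have h4 : ENNReal.ofReal a ≤ 0 := h2
      have := ENNReal.ofReal_pos.mpr hL.pos
      exact absurd (lt_of_lt_of_le this h4) (lt_irrefl _)
    have hgood' : ∀ᵐ x ∂μ, condExpKernel μ (Kr μ S) x {s | s ∈ {s | ℓ' s = ℓ' x} ∧ s ≠ x} = 0 ∧
        condExpKernel μ (Kr μ S) x {x} ≠ 0 := by
      filter_upwards [hL'.inj, hL'.atom] with x h1 h2
      refine ⟨h1, fun h3 => ?_⟩
      rw [h3] at h2
      have h4 : ENNReal.ofReal a' ≤ 0 := h2
      have := ENNReal.ofReal_pos.mpr hL'.pos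
      exact absurd (lt_of_lt_of_le this h4) (lt_irrefl _)
    have g1 : ∀ᵐ z ∂D, condExpKernel ν (Kr ν T) z.1 {s | s ∈ {s | ℓ s = ℓ z.1} ∧ s ≠ z.1} = 0 ∧
        condExpKernel ν (Kr ν T) z.1 {z.1} ≠ 0 :=
      ae_of_ae_map measurable_fst.aemeasurable (by rw [hD1]; exact hgood)
    have g2 : ∀ᵐ z ∂D, condExpKernel μ (Kr μ S) z.2 {s | s ∈ {s | ℓ' s = ℓ' z.2} ∧ s ≠ z.2} = 0 ∧
        condExpKernel μ (Kr μ S) z.2 {z.2} ≠ 0 :=
      ae_of_ae_map measurable_snd.aemeasurable (by rw [hD2]; exact hgood')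
    filter_upwards [g1, g2] with z h1 h2
    exact (P1t_val (μ := condExpKernel ν (Kr ν T) z.1) (μ' := condExpKernel μ (Kr μ S) z.2)
      (A := {s | ℓ s = ℓ z.1}) (B := {s | ℓ' s = ℓ' z.2}) rfl h1.1 rfl h2.1 h1.2 h2.2 φ).symm

private theorem P1t_main (hT : Ergodic T ν) (hT' : Ergodic S μ) {m m' : ℕ} {a a' : ℝ} {ℓ : X → Fin m}
    {ℓ' : Y → Fin m'} (hL : Lab ν T m a ℓ) (hL' : Lab μ S m' a' ℓ') {D : Measure (X × Y)}
    [IsProbabilityMeasure D] (q1 : D.map Prod.fst = ν) (q2 : D.map Prod.snd = μ) {φ : X × Y → ℂ}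
    (hφ : Measurable φ) (hb : ∃ C : ℝ, ∀ z, ‖φ z‖ ≤ C)
    (h : ∀ n : ℕ, 1 ≤ n → n ≤ m * m' → ∀ l₁ ∈ EV ν T, ∀ l₂ ∈ EV μ S,
      ∫ z, φ z ^ n * (eg ν T l₁ z.1 * eg μ S l₂ z.2) ∂D = 0) :
    ∀ᵐ z ∂D, φ z = 0 := by
  classical
  obtain ⟨F, hF, hval⟩ := P1t_values hL hL' q1 q2 hφ
  obtain ⟨C, hC⟩ := hb
  let G : Fin m × Fin m' → X × Y → ℂ := fun t z => (F t z)⁻¹
  have hG : ∀ t, Measurable[(Kr ν T).prod (Kr μ S)] (G t) := fun t => (hF t).inv
  have hle : (Kr ν T).prod (Kr μ S) ≤ mX.prod mY :=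
    sup_le_sup (MeasurableSpace.comap_mono (Kr_le (ν := ν) (T := T)))
      (MeasurableSpace.comap_mono (Kr_le (ν := μ) (T := S)))
  have hψ : ∀ B R, Measurable[(Kr ν T).prod (Kr μ S)] (P1_psi G B R) := fun B R =>
    @P1_psi_meas _ _ _ _ ((Kr ν T).prod (Kr μ S)) G hG B R
  have hψ' : ∀ B R, Measurable (P1_psi G B R) := fun B R => (hψ B R).mono hle le_rfl
  have hzero : ∀ B : ℝ, 1 ≤ B → ∀ R : Finset (Fin m × Fin m'), R ≠ ∅ →
      ∫ z, φ z ^ R.card * P1_psi G B R z ∂D = 0 := by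
    intro B hB R hS
    have h1 : 1 ≤ R.card := Finset.card_pos.2 (Finset.nonempty_iff_ne_empty.2 hS)
    have h2 : R.card ≤ m * m' := by
      refine (Finset.card_le_univ R).trans (le_of_eq ?_)
      rw [Fintype.card_prod, Fintype.card_fin, Fintype.card_fin]
    refine P1t_dense hT hT' q1 q2 (hφ.pow_const _) ⟨|C| ^ R.card, fun z => ?_⟩ (h R.card h1 h2)
      (hψ B R) ⟨B ^ R.card, fun z => P1_psi_bdd G hB R z⟩
    rw [norm_pow]
    exact pow_le_pow_left₀ (norm_nonneg _) ((hC z).trans (le_abs_self C)) _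
  have hint : ∀ B : ℝ, 1 ≤ B → ∀ R : Finset (Fin m × Fin m'),
      Integrable (fun z => φ z ^ R.card * P1_psi G B R z) D := by
    intro B hB R
    refine Integrable.of_bound ((hφ.pow_const _).mul (hψ' B R)).aestronglyMeasurable
      (|C| ^ R.card * B ^ R.card) (Eventually.of_forall fun z => ?_)
    rw [norm_mul, norm_pow]
    exact mul_le_mul (pow_le_pow_left₀ (norm_nonneg _) ((hC z).trans (le_abs_self C)) _)
      (P1_psi_bdd G hB R z) (norm_nonneg _) (by positivity)
  have key : ∀ B : ℝ, 1 ≤ B → D ({z | ∀ t, ‖G t z‖ ≤ B} ∩ {z | φ z ≠ 0}) = 0 := by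
    intro B hB
    have hEm : MeasurableSet ({z | ∀ t, ‖G t z‖ ≤ B} ∩ {z | φ z ≠ 0}) := by
      refine MeasurableSet.inter ?_ (hφ (measurableSet_singleton 0)).compl
      have h1 : {z : X × Y | ∀ t, ‖G t z‖ ≤ B} = ⋂ t, {z | ‖G t z‖ ≤ B} := by
        ext z
        simp
      rw [h1]
      exact MeasurableSet.iInter fun t =>
        measurableSet_le ((hG t).mono hle le_rfl).norm measurable_const
    have h1 : ∫ z, P1_psi G B ∅ z * (1 - ∏ t, (1 - φ z * G t z)) ∂D = 0 := by
      have h2 : (fun z => P1_psi G B ∅ z * (1 - ∏ t, (1 - φ z * G t z))) = fun z =>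
          -∑ R ∈ (Finset.univ : Finset (Fin m × Fin m')).powerset.erase ∅,
            (-1) ^ R.card * (φ z ^ R.card * P1_psi G B R z) := by
        funext z
        exact P1_expand G B (φ z) z
      rw [h2, integral_neg, integral_finsetSum _ fun R _ => (hint B hB R).const_mul _]
      rw [neg_eq_zero]
      refine Finset.sum_eq_zero fun R hS => ?_
      rw [integral_const_mul, hzero B hB R (Finset.ne_of_mem_erase hS), mul_zero]
    have h2 : ∫ z, P1_psi G B ∅ z * (1 - ∏ t, (1 - φ z * G t z)) ∂D =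
        ∫ z, ({z | ∀ t, ‖G t z‖ ≤ B} ∩ {z | φ z ≠ 0}).indicator (fun _ => (1 : ℂ)) z ∂D := by
      refine integral_congr_ae ?_
      filter_upwards [hval] with z hz
      by_cases hB' : ∀ t, ‖G t z‖ ≤ B
      · by_cases hφz : φ z = 0
        · rw [Set.indicator_of_notMem (fun hm => hm.2 hφz), hφz]
          simp
        · rw [Set.indicator_of_mem (show z ∈ {z | ∀ t, ‖G t z‖ ≤ B} ∩ {z | φ z ≠ 0} from
            ⟨hB', hφz⟩)]
          have h3 : ∏ t, (1 - φ z * G t z) = 0 := by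
            refine Finset.prod_eq_zero (Finset.mem_univ (ℓ z.1, ℓ' z.2)) ?_
            show 1 - φ z * (F (ℓ z.1, ℓ' z.2) z)⁻¹ = 0
            rw [← hz, mul_inv_cancel₀ hφz, sub_self]
          rw [h3]
          unfold P1_psi
          rw [if_pos hB', Finset.prod_empty]
          norm_num
      · rw [Set.indicator_of_notMem (fun hm => hB' hm.1)]
        unfold P1_psi
        rw [if_neg hB', zero_mul, zero_mul]
    rw [h1, integral_indicator_const _ hEm] at h2
    have h3 : D.real ({z | ∀ t, ‖G t z‖ ≤ B} ∩ {z | φ z ≠ 0}) = 0 := by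
      have h4 := h2.symm
      rw [smul_eq_zero] at h4
      rcases h4 with h4 | h4
      · exact h4
      · exact absurd h4 one_ne_zero
    rw [Measure.real, ENNReal.toReal_eq_zero_iff] at h3
    exact h3.resolve_right (measure_ne_top _ _)
  have hall : ∀ᵐ z ∂D, ∀ n : ℕ, ¬ ((∀ t, ‖G t z‖ ≤ (n : ℝ) + 1) ∧ φ z ≠ 0) := by
    rw [ae_all_iff]
    intro n
    have h1 := key ((n : ℝ) + 1) (by have : (0 : ℝ) ≤ n := Nat.cast_nonneg n; linarith)
    rw [ae_iff]
    refine le_antisymm ((measure_mono ?_).trans (le_of_eq h1)) bot_le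
    intro z hz
    exact not_not.1 hz
  filter_upwards [hall] with z hz
  by_contra hφz
  obtain ⟨n, hn⟩ := exists_nat_ge (∑ t, ‖G t z‖)
  refine hz n ⟨fun t => ?_, hφz⟩
  have h1 : ‖G t z‖ ≤ ∑ t, ‖G t z‖ :=
    Finset.single_le_sum (f := fun t => ‖G t z‖) (fun _ _ => norm_nonneg _) (Finset.mem_univ t)
  linarith

end aux2

variable {X Y : Type*} [MeasurableSpace X] [StandardBorelSpace X] [Nonempty X]
  [MeasurableSpace Y] [StandardBorelSpace Y] [Nonempty Y] {ν : Measure X} {μ : Measure Y}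
  [IsProbabilityMeasure ν] [IsProbabilityMeasure μ] {T : X → X} {S : Y → Y}

/-- The proof of `Pool.Agent.Sar.P1` (files `Sar/P1a`, `Sar/P1b`, `Sar/P1`) with two different marginals: density of `eg l₁ ⊗ eg l₂` in the bounded `Kr ν T ⊗ Kr μ S`-measurable functions, the values of `φ` on the labels `(ℓ z.1, ℓ' z.2)`, expansion of
`1 - ∏_t (1 - φ φ_t⁻¹)`. -/
theorem P1t (hT : Ergodic T ν) (hS : Ergodic S μ) {m m' : ℕ} {a a' : ℝ} {ℓ : X → Fin m}
    {ℓ' : Y → Fin m'} (hL : Lab ν T m a ℓ) (hL' : Lab μ S m' a' ℓ') {D : Measure (X × Y)}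
    [IsProbabilityMeasure D] (h1 : D.map Prod.fst = ν) (h2 : D.map Prod.snd = μ) {φ : X × Y → ℂ}
    (hφ : Measurable φ) (hb : ∃ C : ℝ, ∀ z, ‖φ z‖ ≤ C)
    (h : ∀ n : ℕ, 1 ≤ n → n ≤ m * m' → ∀ l₁ ∈ EV ν T, ∀ l₂ ∈ EV μ S,
      ∫ z, φ z ^ n * (eg ν T l₁ z.1 * eg μ S l₂ z.2) ∂D = 0) :
    ∀ᵐ z ∂D, φ z = 0 :=
  P1t_main hT hS hL hL' h1 h2 hφ hb h

end Pool.Agent.Smj
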