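import Pool.Agent.Smj.Fin

/-!
Smj SM: Moebius disjointness for all points of a homeomorphism of bounded sequence entropy with
finitely many ergodic measures (the number theoretic input `SWLam` is proved in `Pool.Agent.SWz`).
-/

set_option autoImplicit false

namespace Pool.Agent.Smj

open MeasureTheory ProbabilityTheory Filter Topology Pool.Agent.Sar
open scoped ENNReal ComplexConjugate

variable {X : Type*} [MetricSpace X] [CompactSpace X] [mX : MeasurableSpace X] [BorelSpace X]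
  {ι : Type*} {ν : ι → Measure X} [∀ s, IsProbabilityMeasure (ν s)]

/-- half of the part of `g` orthogonal to the eigenfunctions -/
private noncomputable def FS [Nonempty X] (ν : Measure X) [IsProbabilityMeasure ν] (T : X → X)
    (g : X → ℂ) (x : X) : ℂ := (g x - cex ν T g x) / 2

omit [CompactSpace X] in
private theorem FS_B1 [CompactSpace X] [Nonempty X] (μ : Measure X) [IsProbabilityMeasure μ]
    (T : X → X) {g : X → ℂ} (hg : B1 g) : B1 (FS μ T g) := by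
  have h := cex_B1 (ν := μ) (T := T) hg
  refine ⟨(hg.meas.sub h.meas).div_const 2, fun x => ?_⟩
  unfold FS
  rw [norm_div, RCLike.norm_ofNat, div_le_one (by norm_num)]
  calc ‖g x - cex μ T g x‖ ≤ ‖g x‖ + ‖cex μ T g x‖ := norm_sub_le _ _
    _ ≤ 1 + 1 := add_le_add (hg.bdd x) (h.bdd x)
    _ = 2 := by norm_num

omit [CompactSpace X] in
private theorem FS_fc [CompactSpace X] [Nonempty X] (μ : Measure X) [IsProbabilityMeasure μ]
    {T : X → X} (hT : MeasurePreserving T μ μ) {g : X → ℂ} (hg : B1 g) {l : ℂ}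
    (hl : l ∈ EV μ T) : fc μ T (FS μ T g) l = 0 := by
  have hgB : BM g := ⟨hg.meas, 1, hg.bdd⟩
  have h1 := fc_cex hT hgB hl
  have h2 := cex_BM (ν := μ) (T := T) hgB
  have he : BM (fun x => conj (eg μ T l x)) := K2b_conj (K2b_eg_BM l)
  have e : fc μ T (FS μ T g) l = (fc μ T g l - fc μ T (cex μ T g) l) / 2 := by
    unfold fc
    rw [← integral_sub (K2b_int (K2b_mul hgB he)) (K2b_int (K2b_mul h2 he)), ← integral_div]
    refine integral_congr_ae (ae_of_all _ fun x => ?_)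
    simp only [FS]
    ring
  rw [e, h1, sub_self, zero_div]

/-- the sum of a nonnegative function over the types -/
private theorem sum_types {ι' : Type*} [Fintype ι'] [DecidableEq ι'] (S : Finset ℕ)
    (ty : ℕ → ι') (f : ℕ → ℝ) {A : ℝ}
    (h : ∀ t : ι', ∑ p ∈ S.filter (fun p => ty p = t), f p ≤ A) :
    ∑ p ∈ S, f p ≤ Fintype.card ι' * A := by
  rw [← Finset.sum_fiberwise S ty f]
  calc ∑ t : ι', ∑ p ∈ S.filter (fun p => ty p = t), f p ≤ ∑ _t : ι', A :=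
        Finset.sum_le_sum fun t _ => h t
    _ = Fintype.card ι' * A := by
        rw [Finset.sum_const, Finset.card_univ, nsmul_eq_mul]

open Classical in
/-- The estimate for one continuous function `g` with `‖g‖ ≤ 1` and one `ε`. -/
theorem SM1 (hLam : Pool.Agent.BGG.SWLam) [Finite ι] (T : X ≃ₜ X) (hB : BddSeqEnt T)
    (hE : ∀ s, Ergodic T (ν s))
    (hfin : ∀ m : Measure X, IsProbabilityMeasure m → Ergodic T m → ∃ s, m = ν s)
    (hG : ∃ η : ℝ, 0 < η ∧ ∀ I : Finset ℂ, (∀ l ∈ I, l ∈ GE ν T ∧ ¬ Tors l) →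
      ∃ᶠ x : ℕ in atTop, η * Real.log (Real.log x) ≤
        ∑ p ∈ (Finset.range x).filter (fun p => p.Prime ∧ GG ν T I p), (1 : ℝ) / p)
    (x : X) {g : C(X, ℂ)} (hg : ∀ y, ‖g y‖ ≤ 1) {ε : ℝ} (hε : 0 < ε) :
    ∀ᶠ N : ℕ in atTop, ‖(N : ℂ)⁻¹ * ∑ n ∈ Finset.Icc 1 N,
      g ((⇑T)^[n] x) * ((ArithmeticFunction.moebius n : ℤ) : ℂ)‖ ≤ ε := by
  have : Nonempty X := ⟨x⟩
  have : Fintype ι := Fintype.ofFinite ι
  obtain ⟨η, hη, hG⟩ := hG
  obtain ⟨K, hK, hkbsz⟩ := kbsz hLam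
  -- the parameters
  obtain ⟨κ, hκ, hκ'⟩ : ∃ κ : ℝ, 0 < κ ∧ K * Real.sqrt κ / (η / 2) ≤ ε / 4 := by
    refine ⟨(ε * (η / 2) / (4 * K)) ^ 2, by positivity, ?_⟩
    rw [Real.sqrt_sq (by positivity)]
    apply le_of_eq
    field_simp
  obtain ⟨δ, hδ, hδ1, hδκ⟩ : ∃ δ : ℝ, 0 < δ ∧ δ ≤ 1 ∧ 6 * δ ≤ κ / 2 :=
    ⟨min 1 (κ / 12), lt_min one_pos (by positivity), min_le_left _ _, by
      have := min_le_right 1 (κ / 12); linarith⟩
  obtain ⟨M, hM⟩ : ∃ M : ℝ, M = (Fintype.card (ι × ι) : ℝ) := ⟨_, rfl⟩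
  have hM0 : 0 ≤ M := by rw [hM]; positivity
  obtain ⟨ε₁, hε₁, hε₁κ⟩ : ∃ ε₁ : ℝ, 0 < ε₁ ∧ M * (4 * ε₁) ≤ κ / 2 := by
    refine ⟨κ / (8 * (M + 1)), by positivity, ?_⟩
    rw [show M * (4 * (κ / (8 * (M + 1)))) = κ / 2 * (M / (M + 1)) by field_simp; ring]
    exact mul_le_of_le_one_right (by positivity) (by rw [div_le_one (by positivity)]; linarith)
  have hg1 : B1 (fun y => g y) := ⟨g.continuous.measurable, hg⟩
  -- the block estimate for all pairs
  have hblk : ∀ t : ι × ι, ∃ I : Finset ℂ, (∀ l ∈ I, l ∈ GE ν T ∧ ¬ Tors l) ∧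
      ∀ᶠ i : ℕ in atTop, ∀ p₀ ∈ blk i, GG ν T I p₀ → ∀ P ⊆ (blk i).erase p₀,
        (∀ p ∈ P, GG ν T I p) → ∀ ρ : ℕ → Measure (X × X),
        (∀ p ∈ P, EJ ((⇑T)^[p₀]) ((⇑T)^[p]) (ν t.1) (ν t.2) (ρ p)) →
        ∑ p ∈ P, ‖∫ z : X × X, FS (ν t.1) T g z.1 * conj (FS (ν t.2) T g z.2) ∂(ρ p)‖ ≤
          ε₁ * pib i := fun t =>
    blkJ hLam T hB hE t.1 t.2 (FS_B1 (ν t.1) T hg1) (FS_B1 (ν t.2) T hg1)
      (fun l hl => FS_fc (ν t.1) (hE t.1).toMeasurePreserving hg1 hl)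
      (fun l hl => FS_fc (ν t.2) (hE t.2).toMeasurePreserving hg1 hl) hε₁
  choose It hIt hblk using hblk
  obtain ⟨I, hI⟩ : ∃ I : Finset ℂ, I = Finset.univ.biUnion It := ⟨_, rfl⟩
  have hI0 : ∀ l ∈ I, l ∈ GE ν T ∧ ¬ Tors l := by
    intro l hl
    rw [hI, Finset.mem_biUnion] at hl
    obtain ⟨t, _, ht⟩ := hl
    exact hIt t l ht
  have hGt : ∀ t p, GG ν T I p → GG ν T (It t) p := by
    intro t p hp
    refine ⟨hp.1, fun l hl => hp.2 l ?_⟩
    rw [hI, Finset.mem_biUnion]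
    exact ⟨t, Finset.mem_univ t, hl⟩
  have hGood : ∀ p, p.Prime → GG ν T I p → ∀ s, Good (ν s) T p := by
    intro p hp h s
    refine ⟨hp, fun hz => h.1 ?_⟩
    exact Submonoid.subset_closure (Set.mem_iUnion.2 ⟨s, hz⟩)
  -- the structured part
  obtain ⟨L, hL, hLH⟩ := str_l2 (ν := ν) T hE g (ε := δ ^ 2) (by positivity)
  obtain ⟨H, hH1, hH2⟩ := (hLH.and (str_mu T L hL g (ε := ε / 4) (by positivity))).exists
  obtain ⟨c, hc⟩ : ∃ c : C(X, ℂ), c = g - Str T L H g := ⟨_, rfl⟩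
  have hcx : ∀ y, c y = g y - Str T L H g y := fun y => by rw [hc, ContinuousMap.sub_apply]
  have hcL : ∀ s, ∫ y, ‖c y - (g y - cex (ν s) T g y)‖ ^ 2 ∂(ν s) ≤ δ ^ 2 := by
    intro s
    refine le_of_eq_of_le (integral_congr_ae (ae_of_all _ fun y => ?_)) (hH1 s)
    simp only
    rw [hcx, ← norm_neg]
    congr 2
    ring
  -- the joinings
  have hkey : ∀ p p' : ℕ, p.Prime ∧ p'.Prime ∧ GG ν T I p ∧ GG ν T I p' →
      ∃ (t : ι × ι) (ρ : Measure (X × X)), EJ ((⇑T)^[p]) ((⇑T)^[p']) (ν t.1) (ν t.2) ρ ∧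
      ∀ ε : ℝ, 0 < ε → ∀ᶠ M : ℕ in atTop,
        ‖(M : ℂ)⁻¹ * ∑ m ∈ Finset.Icc 1 M,
          c ((⇑T)^[p * m] x) * conj (c ((⇑T)^[p' * m] x))‖ ≤
        ‖∫ z : X × X, c z.1 * conj (c z.2) ∂ρ‖ + ε := by
    rintro p p' ⟨h1, h2, h3, h4⟩
    obtain ⟨s, s', ρ, h5, h6⟩ := emp2 T hE hfin x h1 h2 (hGood p h1 h3) (hGood p' h2 h4) c
    exact ⟨(s, s'), ρ, h5, h6⟩
  have hfreq0 := hG I hI0
  -- there is a type
  have hne : Nonempty (ι × ι) := by
    have h1 : ∀ᶠ y : ℕ in atTop, 0 < Real.log (Real.log y) := by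
      have h2 : Tendsto (fun y : ℕ => Real.log (Real.log y)) atTop atTop :=
        Real.tendsto_log_atTop.comp (Real.tendsto_log_atTop.comp tendsto_natCast_atTop_atTop)
      exact h2.eventually_gt_atTop 0
    obtain ⟨y, hy1, hy2⟩ := (hfreq0.and_eventually h1).exists
    have h3 : 0 < ∑ p ∈ (Finset.range y).filter (fun p => p.Prime ∧ GG ν T I p), (1 : ℝ) / p :=
      lt_of_lt_of_le (by positivity) hy1
    obtain ⟨p, hp, _⟩ := Finset.exists_ne_zero_of_sum_ne_zero h3.ne'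
    obtain ⟨_, hp1, hp2⟩ := Finset.mem_filter.1 hp
    obtain ⟨t, _⟩ := hkey p p ⟨hp1, hp1, hp2, hp2⟩
    exact ⟨t⟩
  choose! ty ρ hρ using hkey
  have hfreq : ∃ᶠ J : ℕ in atTop, (η / 2) * Real.log J ≤
      ∑ i ∈ Finset.range J, ∑ p ∈ (blk i).filter (fun p => GG ν T I p), (1 : ℝ) / p :=
    block_unif (fun p => GG ν T I p) hη hfreq0
  -- the sum over a block
  have hblocks : ∀ᶠ i : ℕ in atTop, ∑ p ∈ (blk i).filter (fun p => GG ν T I p),
      ∑ p' ∈ ((blk i).filter (fun p => GG ν T I p)).erase p,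
        ‖∫ z : X × X, c z.1 * conj (c z.2) ∂(ρ p p')‖ ≤ κ * pib i ^ 2 := by
    filter_upwards [eventually_all.2 hblk] with i hi
    have hpr : ∀ p ∈ blk i, p.Prime := fun p hp => (Finset.mem_filter.1 hp).2
    have hpib : (0 : ℝ) ≤ pib i := by unfold pib; positivity
    have hone : ∀ p ∈ (blk i).filter (fun p => GG ν T I p),
        ∑ p' ∈ ((blk i).filter (fun p => GG ν T I p)).erase p,
          ‖∫ z : X × X, c z.1 * conj (c z.2) ∂(ρ p p')‖ ≤ κ * pib i := by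
      intro p hp
      obtain ⟨hpb, hpG⟩ := Finset.mem_filter.1 hp
      obtain ⟨S, hS⟩ : ∃ S : Finset ℕ, S = ((blk i).filter (fun p => GG ν T I p)).erase p :=
        ⟨_, rfl⟩
      have hSm : ∀ p' ∈ S, p' ∈ blk i ∧ GG ν T I p' ∧ p' ≠ p := by
        intro p' hp'
        rw [hS, Finset.mem_erase, Finset.mem_filter] at hp'
        exact ⟨hp'.2.1, hp'.2.2, hp'.1⟩
      have hJ : ∀ p' ∈ S, EJ ((⇑T)^[p]) ((⇑T)^[p']) (ν (ty p p').1) (ν (ty p p').2) (ρ p p') :=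
        fun p' hp' => (hρ p p' ⟨hpr p hpb, hpr p' (hSm p' hp').1, hpG, (hSm p' hp').2.1⟩).1
      have hcmp : ∀ p' ∈ S, ‖∫ z : X × X, c z.1 * conj (c z.2) ∂(ρ p p')‖ ≤
          4 * ‖∫ z : X × X, FS (ν (ty p p').1) T g z.1 * conj (FS (ν (ty p p').2) T g z.2)
            ∂(ρ p p')‖ + 6 * δ := by
        intro p' hp'
        refine (cmp T hE (ty p p').1 (ty p p').2 hg hδ hδ1 (hcL _) (hcL _) (hJ p' hp')).trans
          (add_le_add_left (le_of_eq ?_) _)
        have e : ∀ z : X × X, (g z.1 - cex (ν (ty p p').1) T g z.1) *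
            conj (g z.2 - cex (ν (ty p p').2) T g z.2) =
            4 * (FS (ν (ty p p').1) T g z.1 * conj (FS (ν (ty p p').2) T g z.2)) := by
          intro z
          simp only [FS, map_div₀, map_ofNat]
          ring
        simp_rw [e]
        rw [integral_const_mul, norm_mul]
        norm_num
      have hcard : ((S.card : ℕ) : ℝ) ≤ pib i := by
        unfold pib
        exact_mod_cast Finset.card_le_card fun p' hp' => (hSm p' hp').1
      have hty := sum_types (ι' := ι × ι) S (fun p' => ty p p')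
        (fun p' => ‖∫ z : X × X, FS (ν (ty p p').1) T g z.1 * conj (FS (ν (ty p p').2) T g z.2)
            ∂(ρ p p')‖) (A := ε₁ * pib i) (by
          intro t
          have h1 := hi t p hpb (hGt t p hpG) (S.filter (fun p' => ty p p' = t))
            (fun p' hp' => by
              have h2 := hSm p' (Finset.mem_filter.1 hp').1
              exact Finset.mem_erase.2 ⟨h2.2.2, h2.1⟩)
            (fun p' hp' => hGt t p' (hSm p' (Finset.mem_filter.1 hp').1).2.1)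
            (fun p' => ρ p p')
            (fun p' hp' => by
              obtain ⟨h2, h3⟩ := Finset.mem_filter.1 hp'
              have h4 := hJ p' h2
              rw [h3] at h4
              exact h4)
          refine le_of_eq_of_le (Finset.sum_congr rfl fun p' hp' => ?_) h1
          rw [(Finset.mem_filter.1 hp').2])
      rw [← hS]
      calc ∑ p' ∈ S, ‖∫ z : X × X, c z.1 * conj (c z.2) ∂(ρ p p')‖
          ≤ ∑ p' ∈ S, (4 * ‖∫ z : X × X, FS (ν (ty p p').1) T g z.1 *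
            conj (FS (ν (ty p p').2) T g z.2) ∂(ρ p p')‖ + 6 * δ) := Finset.sum_le_sum hcmp
        _ = 4 * ∑ p' ∈ S, ‖∫ z : X × X, FS (ν (ty p p').1) T g z.1 *
            conj (FS (ν (ty p p').2) T g z.2) ∂(ρ p p')‖ + S.card * (6 * δ) := by
            rw [Finset.sum_add_distrib, Finset.mul_sum, Finset.sum_const, nsmul_eq_mul]
        _ ≤ 4 * (M * (ε₁ * pib i)) + pib i * (6 * δ) := by
            rw [← hM] at hty
            exact add_le_add (mul_le_mul_of_nonneg_left hty (by norm_num))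
              (mul_le_mul_of_nonneg_right hcard (by positivity))
        _ = (M * (4 * ε₁) + 6 * δ) * pib i := by ring
        _ ≤ κ * pib i := mul_le_mul_of_nonneg_right (by linarith) hpib
    calc ∑ p ∈ (blk i).filter (fun p => GG ν T I p),
          ∑ p' ∈ ((blk i).filter (fun p => GG ν T I p)).erase p,
            ‖∫ z : X × X, c z.1 * conj (c z.2) ∂(ρ p p')‖
        ≤ ∑ _p ∈ (blk i).filter (fun p => GG ν T I p), κ * pib i := Finset.sum_le_sum hone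
      _ = ((blk i).filter (fun p => GG ν T I p)).card * (κ * pib i) := by
          rw [Finset.sum_const, nsmul_eq_mul]
      _ ≤ pib i * (κ * pib i) := by
          refine mul_le_mul_of_nonneg_right ?_ (by positivity)
          unfold pib
          exact_mod_cast Finset.card_le_card (Finset.filter_subset _ _)
      _ = κ * pib i ^ 2 := by ring
  have hres := hkbsz ‖c‖ (fun n => c ((⇑T)^[n] x)) (fun n => c.norm_coe_le_norm _)
    (fun p => GG ν T I p) (fun p p' => ‖∫ z : X × X, c z.1 * conj (c z.2) ∂(ρ p p')‖)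
    (fun _ _ => norm_nonneg _)
    (fun p p' h1 h2 h3 h4 _ => (hρ p p' ⟨h1, h2, h3, h4⟩).2) κ (η / 2) hκ (by positivity)
    hblocks hfreq (ε / 4) (by positivity)
  filter_upwards [hres, hH2 x] with N h1 h2
  have hdec : (N : ℂ)⁻¹ * ∑ n ∈ Finset.Icc 1 N,
      g ((⇑T)^[n] x) * ((ArithmeticFunction.moebius n : ℤ) : ℂ) =
      (N : ℂ)⁻¹ * ∑ n ∈ Finset.Icc 1 N,
      c ((⇑T)^[n] x) * ((ArithmeticFunction.moebius n : ℤ) : ℂ) +
      (N : ℂ)⁻¹ * ∑ n ∈ Finset.Icc 1 N,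
      Str T L H g ((⇑T)^[n] x) * ((ArithmeticFunction.moebius n : ℤ) : ℂ) := by
    rw [← mul_add, ← Finset.sum_add_distrib]
    congr 1
    refine Finset.sum_congr rfl fun n _ => ?_
    rw [hcx]
    ring
  rw [hdec]
  calc _ ≤ _ := norm_add_le _ _
    _ ≤ (K * Real.sqrt κ / (η / 2) + ε / 4) + ε / 4 := add_le_add h1 h2
    _ ≤ ε := by linarith

open Classical in
/-- THEOREM SM. -/
theorem SM (hLam : Pool.Agent.BGG.SWLam) [Finite ι] (T : X ≃ₜ X) (hB : BddSeqEnt T)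
    (hE : ∀ s, Ergodic T (ν s))
    (hfin : ∀ m : Measure X, IsProbabilityMeasure m → Ergodic T m → ∃ s, m = ν s)
    (hG : ∃ η : ℝ, 0 < η ∧ ∀ I : Finset ℂ, (∀ l ∈ I, l ∈ GE ν T ∧ ¬ Tors l) →
      ∃ᶠ x : ℕ in atTop, η * Real.log (Real.log x) ≤
        ∑ p ∈ (Finset.range x).filter (fun p => p.Prime ∧ GG ν T I p), (1 : ℝ) / p)
    (x : X) (g : C(X, ℂ)) :
    Tendsto (fun N : ℕ => (N : ℂ)⁻¹ * ∑ n ∈ Finset.Icc 1 N,
      g ((⇑T)^[n] x) * ((ArithmeticFunction.moebius n : ℤ) : ℂ)) atTop (𝓝 0) := by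
  rw [Metric.tendsto_atTop]
  intro ε hε
  obtain ⟨C, hC⟩ : ∃ C : ℝ, C = ‖g‖ + 1 := ⟨_, rfl⟩
  have hC0 : 0 < C := by rw [hC]; positivity
  obtain ⟨g', hg'⟩ : ∃ g' : C(X, ℂ), g' = ((C : ℂ))⁻¹ • g := ⟨_, rfl⟩
  have hgx : ∀ y, g' y = (C : ℂ)⁻¹ * g y := fun y => by
    rw [hg', ContinuousMap.smul_apply, smul_eq_mul]
  have h1 : ∀ y, ‖g' y‖ ≤ 1 := by
    intro y
    rw [hgx, norm_mul, norm_inv, Complex.norm_real, Real.norm_of_nonneg hC0.le, inv_mul_le_one₀ hC0]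
    calc ‖g y‖ ≤ ‖g‖ := g.norm_coe_le_norm y
      _ ≤ C := by rw [hC]; linarith
  obtain ⟨N₀, hN₀⟩ := eventually_atTop.1 (SM1 hLam T hB hE hfin hG x h1 (ε := ε / (2 * C))
    (by positivity))
  refine ⟨N₀, fun N hN => ?_⟩
  have h2 := hN₀ N hN
  rw [dist_zero_right]
  have h3 : (N : ℂ)⁻¹ * ∑ n ∈ Finset.Icc 1 N,
      g ((⇑T)^[n] x) * ((ArithmeticFunction.moebius n : ℤ) : ℂ) =
      (C : ℂ) * ((N : ℂ)⁻¹ * ∑ n ∈ Finset.Icc 1 N,
      g' ((⇑T)^[n] x) * ((ArithmeticFunction.moebius n : ℤ) : ℂ)) := by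
    have hCc : (C : ℂ) ≠ 0 := by exact_mod_cast hC0.ne'
    have h4 : ∀ n, g' ((⇑T)^[n] x) * ((ArithmeticFunction.moebius n : ℤ) : ℂ) =
        (C : ℂ)⁻¹ * (g ((⇑T)^[n] x) * ((ArithmeticFunction.moebius n : ℤ) : ℂ)) := by
      intro n
      rw [hgx]
      ring
    simp_rw [h4]
    rw [← Finset.mul_sum]
    field_simp
  rw [h3, norm_mul, Complex.norm_real, Real.norm_of_nonneg hC0.le]
  calc C * _ ≤ C * (ε / (2 * C)) := mul_le_mul_of_nonneg_left h2 hC0.le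
    _ = ε / 2 := by field_simp
    _ < ε := by linarith

end Pool.Agent.Smj
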