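import Pool.Agent.Smj.Defs
import Pool.Agent.Sar.K1
import Pool.Agent.Sar.K3

/-!
Smj VN: von Neumann's theorem with an eigenvalue.
-/

set_option autoImplicit false

namespace Pool.Agent.Smj

open MeasureTheory ProbabilityTheory Filter Topology Pool.Agent.Sar
open scoped ENNReal ComplexConjugate

variable {X : Type*} [mX : MeasurableSpace X] {ν : Measure X} [IsProbabilityMeasure ν] {T : X → X}

private theorem VN_cc {z : ℂ} (hz : ‖z‖ = 1) : conj z * z = 1 := by
  rw [mul_comm, Complex.mul_conj', hz]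
  norm_num

omit [IsProbabilityMeasure ν] in
/-- norm of an `L²` function -/
private theorem VN_norm {f : X → ℂ} (hf : MemLp f 2 ν) : ‖hf.toLp f‖ ^ 2 = ∫ x, ‖f x‖ ^ 2 ∂ν := by
  have h1 : ((‖hf.toLp f‖ ^ 2 : ℝ) : ℂ) = inner ℂ (hf.toLp f) (hf.toLp f) := by
    rw [inner_self_eq_norm_sq_to_K]
    push_cast
    rfl
  have h2 : (inner ℂ (hf.toLp f) (hf.toLp f) : ℂ) = ((∫ x, ‖f x‖ ^ 2 ∂ν : ℝ) : ℂ) := by
    rw [K3_inner hf hf, ← integral_complex_ofReal]
    refine integral_congr_ae (Eventually.of_forall fun x => ?_)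
    show conj (f x) * f x = ((‖f x‖ ^ 2 : ℝ) : ℂ)
    rw [mul_comm, Complex.mul_conj']
    push_cast
    rfl
  rw [h2] at h1
  exact_mod_cast h1

open Classical in
/-- The isometry `U' = conj l · U` of `L²(ν)` (`U v = v ∘ T`): the mean ergodic theorem (Mathlib: `ContinuousLinearMap.tendsto_birkhoffAverage_orthogonalProjection`) gives convergence to the projection on `{f : U f = l f}`, which is spanned by `eg l` if `l ∈ EV` and 0 otherwise (`eig_of_fun`).
(`∑_{h ∈ Ioc 0 H}` instead of `range H`: difference `O(1/H)`.) -/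
theorem vn (hE : Ergodic T ν) {v : X → ℂ} (hv : BM v) {l : ℂ} (hl : ‖l‖ = 1) :
    Tendsto (fun H : ℕ => ∫ x, ‖(H : ℂ)⁻¹ * ∑ h ∈ Finset.Ioc 0 H, (conj l) ^ h * v (T^[h] x) -
      (if l ∈ EV ν T then fc ν T v l * eg ν T l x else 0)‖ ^ 2 ∂ν) atTop (𝓝 0) := by
  have hT : MeasurePreserving T ν ν := hE.toMeasurePreserving
  have hvL : MemLp v 2 ν := K3_memLp hv.meas hv.bdd
  have hvn : ∀ n, MemLp (fun x => v (T^[n] x)) 2 ν := fun n =>
    hvL.comp_measurePreserving (hT.iterate n)
  set U : Lp ℂ 2 ν →ₗᵢ[ℂ] Lp ℂ 2 ν := Lp.compMeasurePreservingₗᵢ ℂ T hT with hU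
  have hUn : ∀ n, U^[n] (hvL.toLp v) = (hvn n).toLp (fun x => v (T^[n] x)) := fun n =>
    K3_iter hT hvL n (hvn n)
  have hcl : ‖conj l‖ = 1 := by rw [RCLike.norm_conj, hl]
  obtain ⟨W, hW⟩ : ∃ W : Lp ℂ 2 ν →L[ℂ] Lp ℂ 2 ν, ∀ f, W f = (conj l) • U f :=
    ⟨(conj l) • U.toContinuousLinearMap, fun f => rfl⟩
  have hW1 : ‖W‖ ≤ 1 := by
    refine W.opNorm_le_bound zero_le_one fun f => ?_
    rw [hW, norm_smul, hcl, U.norm_map]
  have hWin : ∀ f g, (inner ℂ (W f) (W g) : ℂ) = inner ℂ f g := by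
    intro f g
    rw [hW, hW, inner_smul_left, inner_smul_right, U.inner_map_map, Complex.conj_conj,
      ← mul_assoc, mul_comm l, VN_cc hl, one_mul]
  have hWn : ∀ n f, W^[n] f = (conj l) ^ n • U^[n] f := by
    intro n
    induction n with
    | zero => intro f; simp
    | succ n ih =>
      intro f
      rw [Function.iterate_succ_apply', ih, map_smul, hW, Function.iterate_succ_apply', smul_smul,
        pow_succ]
  set x0 : Lp ℂ 2 ν := hvL.toLp v with hx0
  set K := W.eqLocus (1 : Lp ℂ 2 ν →L[ℂ] Lp ℂ 2 ν) with hK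
  have hmem : ∀ f, f ∈ K ↔ W f = f := fun f => Iff.rfl
  have hconv := W.tendsto_birkhoffAverage_orthogonalProjection hW1 (W x0)
  set g0 : Lp ℂ 2 ν := K.starProjection (W x0) with hg0
  have hconv' : Tendsto (fun N => birkhoffAverage ℂ W _root_.id N (W x0)) atTop (𝓝 g0) := hconv
  have hg0K : W g0 = g0 := (hmem g0).1 (K.starProjection_apply_mem (W x0))
  -- the inner product with fixed vectors
  have hin : ∀ f, W f = f → (inner ℂ f g0 : ℂ) = inner ℂ f x0 := by
    intro f hf
    have h1 := K.starProjection_inner_eq_zero (W x0) f ((hmem f).2 hf)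
    rw [inner_sub_left, sub_eq_zero] at h1
    have h2 : (inner ℂ f g0 : ℂ) = inner ℂ f (W x0) := by
      rw [← inner_conj_symm f g0, ← inner_conj_symm f (W x0), h1]
    rw [h2, ← hWin f x0, hf]
  -- the limit
  have htm : MemLp (fun x => if l ∈ EV ν T then fc ν T v l * eg ν T l x else 0) 2 ν := by
    refine K3_memLp ?_ ⟨‖fc ν T v l‖, fun x => ?_⟩
    · by_cases h : l ∈ EV ν T
      · simp only [if_pos h]
        exact (eg_meas l).const_mul _
      · simp only [if_neg h]
        exact measurable_const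
    · by_cases h : l ∈ EV ν T
      · simp only [if_pos h]
        rw [norm_mul, eg_norm, mul_one]
      · simp only [if_neg h]
        rw [norm_zero]
        exact norm_nonneg _
  have hfun : ∀ᵐ x ∂ν, (g0 : X → ℂ) (T x) = l * (g0 : X → ℂ) x := by
    have h1 : U g0 = l • g0 := by
      have h2 := hg0K
      rw [hW] at h2
      have h3 := congrArg (fun z => l • z) h2
      simp only [smul_smul] at h3
      rw [mul_comm l, VN_cc hl, one_smul] at h3
      exact h3
    have h2 : (U g0 : X → ℂ) =ᵐ[ν] (g0 : X → ℂ) ∘ T := Lp.coeFn_compMeasurePreserving g0 hT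
    have h3 : (U g0 : X → ℂ) =ᵐ[ν] l • (g0 : X → ℂ) := by
      rw [h1]
      exact Lp.coeFn_smul l g0
    filter_upwards [h2, h3] with x h4 h5
    rw [h5] at h4
    exact h4.symm
  have hg0i : Integrable (g0 : X → ℂ) ν := (Lp.memLp g0).integrable (by norm_num)
  have hlim : g0 = htm.toLp _ := by
    by_cases hlE : l ∈ EV ν T
    · have hem : MemLp (eg ν T l) 2 ν :=
        K3_memLp (eg_meas l) ⟨1, fun x => (eg_norm l x).le⟩
      have hfix : W (hem.toLp _) = hem.toLp _ := by
        rw [hW]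
        have h1 : U (hem.toLp _) = l • hem.toLp (eg ν T l) := by
          show Lp.compMeasurePreserving T hT (hem.toLp _) = _
          rw [Lp.toLp_compMeasurePreserving, ← MemLp.toLp_const_smul]
          refine MemLp.toLp_congr _ _ ?_
          filter_upwards [(eg_spec hlE).eq] with x hx
          exact hx
        rw [h1, smul_smul, VN_cc hl, one_smul]
      have hc : ∃ c : ℂ, ∀ᵐ x ∂ν, (g0 : X → ℂ) x = c * eg ν T l x := by
        by_cases h0 : ∀ᵐ x ∂ν, (g0 : X → ℂ) x = 0
        · refine ⟨0, ?_⟩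
          filter_upwards [h0] with x hx
          rw [hx, zero_mul]
        · obtain ⟨-, c, -, hc⟩ := eig_of_fun hE hg0i hfun h0
          exact ⟨c, hc⟩
      obtain ⟨c, hc⟩ := hc
      have h1 := hin _ hfix
      have h2 : (inner ℂ (hem.toLp _) g0 : ℂ) = c := by
        have h3 := K3_inner hem (Lp.memLp g0)
        rw [Lp.toLp_coeFn] at h3
        rw [h3]
        have h4 : ∫ x, conj (eg ν T l x) * (g0 : X → ℂ) x ∂ν = ∫ _, c ∂ν := by
          refine integral_congr_ae ?_
          filter_upwards [hc] with x hx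
          rw [hx]
          calc conj (eg ν T l x) * (c * eg ν T l x)
              = c * (conj (eg ν T l x) * eg ν T l x) := by ring
            _ = c := by rw [VN_cc (eg_norm l x), mul_one]
        rw [h4]
        simp
      have h3 : (inner ℂ (hem.toLp _) x0 : ℂ) = fc ν T v l := by
        rw [hx0, K3_inner hem hvL, fc]
        refine integral_congr_ae (Eventually.of_forall fun x => ?_)
        exact mul_comm _ _
      have h4 : c = fc ν T v l := by rw [← h2, h1, h3]
      have h5 : (g0 : X → ℂ) =ᵐ[ν]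
          fun x => if l ∈ EV ν T then fc ν T v l * eg ν T l x else 0 := by
        filter_upwards [hc] with x hx
        rw [if_pos hlE, hx, h4]
      rw [← Lp.toLp_coeFn g0 (Lp.memLp g0)]
      exact MemLp.toLp_congr _ _ h5
    · have h0 : ∀ᵐ x ∂ν, (g0 : X → ℂ) x = 0 := by
        by_contra h0
        exact hlE (eig_of_fun hE hg0i hfun h0).1
      have h5 : (g0 : X → ℂ) =ᵐ[ν]
          fun x => if l ∈ EV ν T then fc ν T v l * eg ν T l x else 0 := by
        filter_upwards [h0] with x hx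
        rw [if_neg hlE, hx]
      rw [← Lp.toLp_coeFn g0 (Lp.memLp g0)]
      exact MemLp.toLp_congr _ _ h5
  -- the averages
  have hSm : ∀ (s : Finset ℕ), MemLp (fun x => ∑ h ∈ s, (conj l) ^ h * v (T^[h] x)) 2 ν := by
    intro s
    exact memLp_finsetSum s fun h _ => (hvn h).const_mul _
  have hSL : ∀ (s : Finset ℕ), (hSm s).toLp _ = ∑ h ∈ s, W^[h] x0 := by
    intro s
    induction s using Finset.induction_on with
    | empty =>
      rw [Finset.sum_empty]
      have : (hSm ∅).toLp _ = (MemLp.zero' (p := 2) (μ := ν) (ε := ℂ)).toLp _ :=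
        MemLp.toLp_congr _ _ (Eventually.of_forall fun x => by simp)
      rw [this]
      rfl
    | insert a s ha ih =>
      rw [Finset.sum_insert ha, ← ih, hWn, hUn, ← MemLp.toLp_const_smul, ← MemLp.toLp_add]
      refine MemLp.toLp_congr _ _ (Eventually.of_forall fun x => ?_)
      show ∑ h ∈ insert a s, (conj l) ^ h * v (T^[h] x) =
        (conj l) ^ a * v (T^[a] x) + ∑ h ∈ s, (conj l) ^ h * v (T^[h] x)
      exact Finset.sum_insert ha
  have hAm : ∀ H : ℕ, MemLp (fun x => (H : ℂ)⁻¹ *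
      ∑ h ∈ Finset.Ioc 0 H, (conj l) ^ h * v (T^[h] x)) 2 ν := fun H =>
    (hSm _).const_mul _
  have hAL : ∀ H : ℕ, (hAm H).toLp _ = birkhoffAverage ℂ W _root_.id H (W x0) := by
    intro H
    have h1 : (hAm H).toLp _ = (H : ℂ)⁻¹ • (hSm (Finset.Ioc 0 H)).toLp _ := by
      rw [← MemLp.toLp_const_smul]
      exact MemLp.toLp_congr _ _ (Eventually.of_forall fun x => rfl)
    rw [h1, hSL]
    unfold birkhoffAverage birkhoffSum
    congr 1
    have h2 : Finset.Ioc 0 H = Finset.Ico 1 (H + 1) := by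
      ext k
      simp only [Finset.mem_Ioc, Finset.mem_Ico]
      omega
    rw [h2, Finset.sum_Ico_eq_sum_range]
    refine Finset.sum_congr (by simp) fun k _ => ?_
    rw [id_eq, ← Function.iterate_succ_apply, Nat.succ_eq_add_one, add_comm 1 k]
  have hfin : ∀ H : ℕ, ∫ x, ‖(H : ℂ)⁻¹ * ∑ h ∈ Finset.Ioc 0 H, (conj l) ^ h * v (T^[h] x) -
      (if l ∈ EV ν T then fc ν T v l * eg ν T l x else 0)‖ ^ 2 ∂ν =
      ‖birkhoffAverage ℂ W _root_.id H (W x0) - g0‖ ^ 2 := by
    intro H
    rw [← hAL, hlim, ← MemLp.toLp_sub, VN_norm]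
    rfl
  simp_rw [hfin]
  have h1 : Tendsto (fun N => birkhoffAverage ℂ W _root_.id N (W x0) - g0) atTop (𝓝 0) := by
    have := hconv'.sub_const g0
    rwa [sub_self] at this
  have h2 := (tendsto_zero_iff_norm_tendsto_zero.1 h1).pow 2
  rwa [zero_pow two_ne_zero] at h2

end Pool.Agent.Smj
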